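import Pool.Agent.H48.SF.Efa

/-!
# [H48 SF EVC] the sets `Ev l`, 100-150 lines. File Pool/Agent/H48/SF/EvC.lean

`ev_iff`: for `P` over `l`: `nm P = nm l ^ fr P` (`fr_nm`), so `∏_{P ∈ g} nm P = nm l ^ (∑ fr P)`, and `nm l ≥ 2` (`one_lt_nm`): it is `nm l ^ (2 k)` iff `∑ fr P = 2 k` (`Nat.pow_right_injective`).
`ev_fin`: subsets of `ov c l`. `ev_card`: the number of all `g ⊆ ov c l` (the empty set included) with `∑ fr P` even is `2 ^ (#ov - 1)`: some `P₀` over `l` has odd `fr` (`ef_sum`: `∑ er * fr = 3`), and `g ↦ g ∆ {P₀}` is a bijection between the `g` with even and with odd sum (`Finset.card_powerset`); `np_ov`, `c.lam l = 2 ^ (np l - 1) - 1`.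
-/

set_option autoImplicit false
set_option linter.dupNamespace false

open scoped NumberField Classical Pointwise
open IsDedekindDomain H38.ML H63.MA

noncomputable section

namespace H48.SF

open H48.KV H67.SX H38.SE
open H48.T3 hiding Ch Fib

variable {K : IntermediateField ℚ QBar} [NumberField K]

theorem ev_iff (c : Cu K) (l : Pl K) (g : Finset (Pl c.F)) :
    g ∈ c.Ev l ↔ g.Nonempty ∧ g ⊆ ov c l ∧ ∑ P ∈ g, (fr c P : ZMod 2) = 0 := by
  have key : g ⊆ ov c l → ((∃ k : ℕ, ∏ P ∈ g, nm P = nm l ^ (2 * k)) ↔ ∑ P ∈ g, (fr c P : ZMod 2) = 0) := by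
    intro hg
    have h2 : ∏ P ∈ g, nm P = nm l ^ (∑ P ∈ g, fr c P) := by
      rw [← Finset.prod_pow_eq_pow_sum]
      refine Finset.prod_congr rfl fun P hP => ?_
      rw [fr_nm, (bl_eq c P l).1 ((mem_ov c l P).1 (hg hP))]
    rw [h2, ← Nat.cast_sum, ZMod.natCast_eq_zero_iff]
    constructor
    · rintro ⟨k, hk⟩
      exact ⟨k, Nat.pow_right_injective (one_lt_nm l) hk⟩
    · rintro ⟨k, hk⟩
      exact ⟨k, by rw [hk]⟩
  constructor
  · rintro ⟨h2, h3, h4⟩
    have hg : g ⊆ ov c l := fun P hP => (mem_ov c l P).2 (h3 P hP)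
    exact ⟨h2, hg, (key hg).1 h4⟩
  · rintro ⟨h2, hg, h3⟩
    exact ⟨h2, fun P hP => (mem_ov c l P).1 (hg hP), (key hg).2 h3⟩

private theorem ev_eq (c : Cu K) (l : Pl K) : c.Ev l = (((ov c l).powerset.filter
    fun g => ∑ P ∈ g, (fr c P : ZMod 2) = 0).erase ∅ : Finset (Finset (Pl c.F))) := by
  ext g
  rw [ev_iff, Finset.mem_coe, Finset.mem_erase, Finset.mem_filter, Finset.mem_powerset, Finset.nonempty_iff_ne_empty]

theorem ev_fin (c : Cu K) (l : Pl K) : (c.Ev l).Finite := by
  rw [ev_eq]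
  exact Finset.finite_toSet _

private theorem ev_half {α : Type} (W : Finset α) (f : α → ZMod 2) (P : α) (hP : P ∈ W) (hf : f P = 1) :
    (W.powerset.filter fun g => ∑ x ∈ g, f x = 0).card = 2 ^ (W.card - 1) := by
  rw [← Finset.card_erase_of_mem hP, ← Finset.card_powerset]
  have h01 : ∀ a : ZMod 2, a ≠ 0 → a = 1 := by decide
  refine Finset.card_nbij' (fun g => g.erase P)
    (fun h => if ∑ x ∈ h, f x = 0 then h else insert P h) ?_ ?_ ?_ ?_
  · intro g hg
    rw [Finset.mem_coe, Finset.mem_filter, Finset.mem_powerset] at hg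
    rw [Finset.mem_coe, Finset.mem_powerset]
    exact Finset.erase_subset_erase P hg.1
  · intro h hh
    rw [Finset.mem_coe, Finset.mem_powerset] at hh
    have h1 : P ∉ h := fun h2 => (Finset.mem_erase.1 (hh h2)).1 rfl
    have h2 : h ⊆ W := hh.trans (Finset.erase_subset P W)
    rw [Finset.mem_coe, Finset.mem_filter, Finset.mem_powerset]
    show (if ∑ x ∈ h, f x = 0 then h else insert P h) ⊆ W ∧
      ∑ x ∈ (if ∑ x ∈ h, f x = 0 then h else insert P h), f x = 0
    by_cases h3 : ∑ x ∈ h, f x = 0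
    · rw [if_pos h3]
      exact ⟨h2, h3⟩
    · rw [if_neg h3]
      refine ⟨Finset.insert_subset hP h2, ?_⟩
      rw [Finset.sum_insert h1, hf, h01 _ h3]
      decide
  · intro g hg
    rw [Finset.mem_coe, Finset.mem_filter, Finset.mem_powerset] at hg
    show (if ∑ x ∈ g.erase P, f x = 0 then g.erase P else insert P (g.erase P)) = g
    by_cases h1 : P ∈ g
    · have h2 := Finset.add_sum_erase g f h1
      rw [hg.2, hf] at h2
      rw [if_neg, Finset.insert_erase h1]
      intro h3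
      rw [h3, add_zero] at h2
      exact one_ne_zero h2
    · rw [Finset.erase_eq_of_notMem h1, if_pos hg.2]
  · intro h hh
    rw [Finset.mem_coe, Finset.mem_powerset] at hh
    have h1 : P ∉ h := fun h2 => (Finset.mem_erase.1 (hh h2)).1 rfl
    show (if ∑ x ∈ h, f x = 0 then h else insert P h).erase P = h
    split_ifs
    · exact Finset.erase_eq_of_notMem h1
    · exact Finset.erase_insert h1

theorem ev_card (c : Cu K) (l : Pl K) : ((c.Ev l).ncard : ℝ) = c.lam l := by
  -- a prime of odd degree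
  obtain ⟨P, hP, hf⟩ : ∃ P ∈ ov c l, (fr c P : ZMod 2) = 1 := by
    by_contra hcon
    push Not at hcon
    have h01 : ∀ a : ZMod 2, a ≠ 1 → a = 0 := by decide
    have h1 : ((∑ P ∈ ov c l, er c P * fr c P : ℕ) : ZMod 2) = 0 := by
      rw [Nat.cast_sum]
      refine Finset.sum_eq_zero fun P hP => ?_
      rw [Nat.cast_mul, h01 _ (hcon P hP), mul_zero]
    rw [ef_sum] at h1
    exact absurd h1 (by decide)
  have h1 := ev_half (ov c l) (fun P => (fr c P : ZMod 2)) P hP hf
  have h2 : (∅ : Finset (Pl c.F)) ∈ (ov c l).powerset.filter fun g => ∑ P ∈ g, (fr c P : ZMod 2) = 0 := by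
    rw [Finset.mem_filter]
    exact ⟨Finset.empty_mem_powerset _, Finset.sum_empty⟩
  rw [ev_eq, Set.ncard_coe_finset, Finset.card_erase_of_mem h2, h1, Cu.lam, np_ov]
  rw [Nat.cast_sub Nat.one_le_two_pow]
  push_cast
  rfl

end H48.SF
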