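import Pool.Agent.H48.SF.Efa
import Pool.Agent.H48.SF.EvC
import Pool.Agent.H48.T3.ApB

/-!
# [H48 SF AQO] from `QC` to the pairs `AQ`, 110-160 lines. File Pool/Agent/H48/SF/AqO.lean

Pattern: Pool/Agent/H48/T3/ApB.lean (copy and adapt). `F = c.F`, `𝔪 = mS S ≠ 0`, `mF S F = md 𝔪 F = 𝔪 𝓞_F`. `ray_rc Nat.prime_two` (H63/MA/RayC.lean) for `hθ.ray` gives `χ : RC F (md 𝔪 F)` with `χ P = ep 2 (θ P) = (-1)^{θ P}` for `P` not dividing the modulus, and `χ.Non` if `θ ≠ 0`. The `AQ` is `⟨c, χ, ..⟩`.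
* `quad`: `χ` is multiplicative, every nonzero ideal prime to the modulus is a product of primes prime to it with `χ P = ±1`.
* `triv`: for a prime `l` of `K` not dividing `𝔪`: `l 𝓞_F = ∏_{P | l} P ^ er P`, so `χ (l 𝓞_F) = (-1)^{∑ er P * θ P} = 1` (`hθ.tri`). Then induction on `J`.
* injective: `θ P` is determined by `χ P` for `P` not dividing the modulus, and `θ P = 0` for the others (`hθ.ray.zero`).
* the sum: `x.sq Y = ∑_{q ∈ AS} ∏_{l ∈ q} x.lp l`, `x.lp l = ∑ᶠ g ∈ Ev l, ∏_{P ∈ g} (χ P).re`; for `l ∈ q`, `q ∈ AS K S Y`: `l ∉ S`, so `l` is not above 2 (`h2`) and the `P ∈ g` (over `l`) do not divide the modulus: `(χ P).re = sg (θ P)`.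
-/

set_option autoImplicit false
set_option linter.dupNamespace false

open scoped NumberField Classical Pointwise
open IsDedekindDomain H38.ML H63.MA

noncomputable section

namespace H48.SF

open H48.KV H67.SX H38.SE
open H48.T3 hiding Ch Fib

variable {K : IntermediateField ℚ QBar} [NumberField K]

private theorem aqo_ep1 : ep 2 1 = -1 := by
  have h1 : ep 2 (1 : ZMod 2) = Complex.exp (Real.pi * Complex.I) := by
    unfold ep
    congr 1
    have h2 : (1 : ZMod 2).val = 1 := rfl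
    rw [h2]
    push_cast
    ring
  rw [h1, Complex.exp_pi_mul_I]

private theorem aqo_zm (a : ZMod 2) : a = 0 ∨ a = 1 := by
  revert a
  decide

private theorem aqo_sg (a : ZMod 2) : (ep 2 a).re = sg a := by
  rcases aqo_zm a with rfl | rfl
  · rw [ep_zero]
    simp [sg]
  · rw [aqo_ep1]
    simp [sg]

private theorem aqo_pm (a : ZMod 2) : ep 2 a = 1 ∨ ep 2 a = -1 := by
  rcases aqo_zm a with rfl | rfl
  · exact Or.inl (ep_zero 2)
  · exact Or.inr aqo_ep1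

private theorem aqo_inj {a b : ZMod 2} (h : ep 2 a = ep 2 b) : a = b := by
  have h1 : (1 : ℂ) ≠ -1 := by
    intro h2
    have h3 := congrArg Complex.re h2
    simp at h3
    norm_num at h3
  rcases aqo_zm a with rfl | rfl <;> rcases aqo_zm b with rfl | rfl
  · rfl
  · rw [ep_zero, aqo_ep1] at h
    exact absurd h h1
  · rw [ep_zero, aqo_ep1] at h
    exact absurd h.symm h1
  · rfl

private theorem aqo_sum {ι : Type} (f : Finset ι) (g : ι → ZMod 2) :
    ∏ i ∈ f, ep 2 (g i) = ep 2 (∑ i ∈ f, g i) := by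
  induction f using Finset.induction_on with
  | empty => rw [Finset.prod_empty, Finset.sum_empty, ep_zero]
  | insert i f hi ih => rw [Finset.prod_insert hi, Finset.sum_insert hi, ep_add Nat.prime_two, ih]

private theorem aqo_pow (a : ZMod 2) (n : ℕ) : ep 2 a ^ n = ep 2 ((n : ZMod 2) * a) := by
  induction n with
  | zero => rw [pow_zero, Nat.cast_zero, zero_mul, ep_zero]
  | succ n ih => rw [pow_succ, ih, ← ep_add Nat.prime_two, Nat.cast_succ, add_mul, one_mul]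

private theorem aqo_mS (S : Finset (Pl K)) : mS S ≠ ⊥ := by
  unfold mS
  refine mul_ne_zero ?_ ?_
  · rw [Ideal.zero_eq_bot, Ne, Ideal.span_singleton_eq_bot]
    exact OfNat.ofNat_ne_zero 8
  · exact Finset.prod_ne_zero_iff.2 fun v _ => v.ne_bot

/-- the primes which divide the modulus -/
private theorem aqo_dvd0 (S : Finset (Pl K)) (h2 : ∀ v : Pl K, Above 2 v → v ∈ S) (l : Pl K) :
    l.asIdeal ∣ mS S ↔ l ∈ S := by
  unfold mS
  constructor
  · intro h
    rcases l.prime.dvd_or_dvd h with h1 | h1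
    · apply h2
      rw [Ideal.dvd_span_singleton] at h1
      have h3 : (8 : 𝓞 K) = 2 ^ 3 := by norm_num
      rw [h3] at h1
      have h4 := l.isPrime.mem_of_pow_mem 3 h1
      unfold Above
      exact_mod_cast h4
    · obtain ⟨v, hv, h3⟩ := (l.prime.dvd_finsetProd_iff _).1 h1
      have h4 : l = v := by
        apply HeightOneSpectrum.ext
        have h5 := Ideal.dvd_iff_le.1 h3
        exact (v.isMaximal.eq_of_le l.isPrime.ne_top h5).symm
      rw [h4]
      exact hv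
  · intro h
    exact (Finset.dvd_prod_of_mem (fun v : Pl K => v.asIdeal) h).mul_left _

private theorem aqo_md (c : Cu K) (S : Finset (Pl K)) : H57.LI.md (mS S) c.F ≠ ⊥ := by
  unfold H57.LI.md
  exact Ideal.map_ne_bot_of_ne_bot (aqo_mS S)

private theorem aqo_dvd (c : Cu K) (S : Finset (Pl K)) (h2 : ∀ v : Pl K, Above 2 v → v ∈ S)
    {P : Pl c.F} {l : Pl K} (hP : Over P l) : P.asIdeal ∣ H57.LI.md (mS S) c.F ↔ l ∈ S := by
  rw [← aqo_dvd0 S h2 l, Ideal.dvd_iff_le, Ideal.dvd_iff_le]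
  unfold H57.LI.md
  rw [Ideal.map_le_iff_le_comap]
  have h3 : P.asIdeal.comap (algebraMap (𝓞 K) (𝓞 c.F)) = l.asIdeal := hP
  rw [h3]

private theorem aqo_po (c : Cu K) (l : Pl K) :
    (fun P : Pl c.F => P.asIdeal) '' {P : Pl c.F | Over P l} = l.asIdeal.primesOver (𝓞 c.F) := by
  ext Q
  constructor
  · rintro ⟨w, hw, rfl⟩
    exact ⟨w.isPrime, ⟨Eq.symm hw⟩⟩
  · rintro ⟨h1, h2⟩
    exact ⟨⟨Q, h1, Ideal.ne_bot_of_liesOver_of_ne_bot l.ne_bot Q⟩, h2.over.symm, rfl⟩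

/-- `l 𝓞_F` is the product of the primes over `l` with the ramification indices -/
private theorem aqo_fac (c : Cu K) (l : Pl K) :
    H57.LI.md l.asIdeal c.F = ∏ P ∈ ov c l, P.asIdeal ^ er c P := by
  have hmax := l.isMaximal
  unfold H57.LI.md
  rw [Ideal.map_algebraMap_eq_finsetProd_pow (S := 𝓞 K) (R := 𝓞 c.F) (p := l.asIdeal) l.ne_bot]
  symm
  refine Finset.prod_bij (fun P _ => P.asIdeal) ?_ ?_ ?_ ?_
  · intro P hP
    rw [Set.mem_toFinset, ← aqo_po]
    exact ⟨P, (mem_ov c l P).1 hP, rfl⟩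
  · intro P _ P' _ h
    exact HeightOneSpectrum.ext h
  · intro Q hQ
    rw [Set.mem_toFinset, ← aqo_po] at hQ
    obtain ⟨P, hP, rfl⟩ := hQ
    exact ⟨P, (mem_ov c l P).2 hP, rfl⟩
  · intro P _
    rfl

private theorem aqo_cop {F : Type} [Field F] [NumberField F] {P : Pl F} {M : Ideal (𝓞 F)}
    (h : IsCoprime P.asIdeal M) : ¬ P.asIdeal ∣ M := by
  intro h1
  have h2 : IsUnit P.asIdeal := h.isUnit_of_dvd' dvd_rfl h1
  exact P.prime.not_isUnit h2

private theorem aqo_pl {F : Type} [Field F] [NumberField F] {p : Ideal (𝓞 F)} (hp : Prime p) :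
    ∃ P : Pl F, P.asIdeal = p :=
  ⟨⟨p, Ideal.isPrime_of_prime hp, hp.ne_zero⟩, rfl⟩

private theorem aqo_quad {F : Type} [Field F] [NumberField F] {M : Ideal (𝓞 F)} (χ : RC F M)
    (θ : Pl F → ZMod 2) (hχ : ∀ v : Pl F, ¬ v.asIdeal ∣ M → χ.χ v.asIdeal = ep 2 (θ v))
    (I : Ideal (𝓞 F)) : I ≠ ⊥ → IsCoprime I M → χ.χ I = 1 ∨ χ.χ I = -1 := by
  induction I using UniqueFactorizationMonoid.induction_on_prime with
  | h₁ => exact fun h => absurd rfl h
  | h₂ I hI =>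
    intro _ _
    have h1 : I = 1 := by
      rw [Ideal.one_eq_top]
      exact Ideal.isUnit_iff.1 hI
    rw [h1, map_one]
    exact Or.inl rfl
  | h₃ a p ha hp ih =>
    intro _ hc
    obtain ⟨P, rfl⟩ := aqo_pl hp
    rw [map_mul, hχ P (aqo_cop hc.of_mul_left_left)]
    rcases aqo_pm (θ P) with h1 | h1 <;> rcases ih ha hc.of_mul_left_right with h2 | h2 <;>
      rw [h1, h2] <;> norm_num

private theorem aqo_triv (c : Cu K) (S : Finset (Pl K)) (h2 : ∀ v : Pl K, Above 2 v → v ∈ S)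
    {θ : Pl c.F → ZMod 2} (hθ : QC c S θ) (χ : RC c.F (H57.LI.md (mS S) c.F))
    (hχ : ∀ v : Pl c.F, ¬ v.asIdeal ∣ H57.LI.md (mS S) c.F → χ.χ v.asIdeal = ep 2 (θ v))
    (J : Ideal (𝓞 K)) : J ≠ ⊥ → IsCoprime J (mS S) → χ.χ (H57.LI.md J c.F) = 1 := by
  induction J using UniqueFactorizationMonoid.induction_on_prime with
  | h₁ => exact fun h => absurd rfl h
  | h₂ I hI =>
    intro _ _
    have h1 : I = ⊤ := Ideal.isUnit_iff.1 hI
    unfold H57.LI.md
    rw [h1, Ideal.map_top, ← Ideal.one_eq_top, map_one]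
  | h₃ a p ha hp ih =>
    intro _ hc
    obtain ⟨l, rfl⟩ := aqo_pl hp
    have h1 : H57.LI.md (l.asIdeal * a) c.F = H57.LI.md l.asIdeal c.F * H57.LI.md a c.F :=
      Ideal.map_mul _ _ _
    rw [h1, map_mul, ih ha hc.of_mul_left_right, mul_one]
    have h3 : l ∉ S := fun h => aqo_cop hc.of_mul_left_left ((aqo_dvd0 S h2 l).2 h)
    rw [aqo_fac c l, map_prod]
    have h4 : ∀ P ∈ ov c l, χ.χ (P.asIdeal ^ er c P) = ep 2 ((er c P : ZMod 2) * θ P) := by
      intro P hP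
      rw [map_pow, hχ P fun h => h3 ((aqo_dvd c S h2 ((mem_ov c l P).1 hP)).1 h), aqo_pow]
    rw [Finset.prod_congr rfl h4, aqo_sum, hθ.tri l, ep_zero]

/-- the pair which belongs to a character -/
private def aqo_mk (c : Cu K) (S : Finset (Pl K)) (χ : RC c.F (H57.LI.md (mS S) c.F))
    (h1 : ∀ I, I ≠ ⊥ → IsCoprime I (H57.LI.md (mS S) c.F) → χ.χ I = 1 ∨ χ.χ I = -1)
    (h2 : ∀ J : Ideal (𝓞 K), J ≠ ⊥ → IsCoprime J (mS S) → χ.χ (H57.LI.md J c.F) = 1)
    (h3 : χ.Non) : AQ K S :=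
  { c := c, χ := χ, quad := h1, triv := h2, non := h3 }

private theorem aqo_mk_inj (c : Cu K) (S : Finset (Pl K)) {χ χ' : RC c.F (H57.LI.md (mS S) c.F)}
    {h1 h2 h3 h1' h2' h3'} (h : aqo_mk c S χ h1 h2 h3 = aqo_mk c S χ' h1' h2' h3') : χ = χ' := by
  unfold aqo_mk at h
  injection h

theorem aq_of (c : Cu K) (S : Finset (Pl K)) (h2 : ∀ v : Pl K, Above 2 v → v ∈ S) :
    ∃ z : {θ : Pl c.F → ZMod 2 // QC c S θ ∧ θ ≠ 0} → AQ K S,
      Function.Injective z ∧ (∀ θ, (z θ).c = c) ∧ ∀ θ (Y : ℝ),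
        (z θ).sq Y = ∑ q ∈ AS K S Y, ∏ l ∈ q, ∑ᶠ g ∈ c.Ev l, ∏ P ∈ g, sg (θ.1 P) := by
  have h1 : ∀ θ : {θ : Pl c.F → ZMod 2 // QC c S θ ∧ θ ≠ 0},
      ∃ χ : RC c.F (H57.LI.md (mS S) c.F),
        (∀ v : Pl c.F, ¬ v.asIdeal ∣ H57.LI.md (mS S) c.F → χ.χ v.asIdeal = ep 2 (θ.1 v)) ∧
          χ.Non := by
    rintro ⟨θ, hθ, hθ0⟩
    obtain ⟨χ, h3, h4⟩ := ray_rc Nat.prime_two (aqo_md c S) hθ.ray
    refine ⟨χ, h3, h4 ?_⟩
    by_contra hcon
    push Not at hcon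
    exact hθ0 (funext hcon)
  choose χ hχ hnon using h1
  refine ⟨fun θ => aqo_mk c S (χ θ) (fun I hI hc => aqo_quad (χ θ) θ.1 (hχ θ) I hI hc)
    (fun J hJ hc => aqo_triv c S h2 θ.2.1 (χ θ) (hχ θ) J hJ hc) (hnon θ), ?_, fun _ => rfl, ?_⟩
  · intro θ θ' h
    have h3 : χ θ = χ θ' := aqo_mk_inj c S h
    apply Subtype.ext
    funext P
    by_cases hP : P.asIdeal ∣ H57.LI.md (mS S) c.F
    · rw [θ.2.1.ray.zero P hP, θ'.2.1.ray.zero P hP]
    · apply aqo_inj
      rw [← hχ θ P hP, ← hχ θ' P hP, h3]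
  · intro θ Y
    unfold AQ.sq
    refine Finset.sum_congr rfl fun q hq => Finset.prod_congr rfl fun l hl => ?_
    have hlS : l ∉ S := by
      unfold AS at hq
      exact (Finset.mem_filter.1 hq).2 l hl
    unfold AQ.lp
    refine finsum_mem_congr rfl fun g hg => Finset.prod_congr rfl fun P hP => ?_
    have hover : Over P l := hg.2.1 P hP
    have h5 := hχ θ P fun h => hlS ((aqo_dvd c S h2 hover).1 h)
    change ((χ θ).χ P.asIdeal).re = sg (θ.1 P)
    rw [h5, aqo_sg]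

end H48.SF
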