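import Pool.Agent.H48.SF.SDf
import Pool.Agent.H38.SE.Two

/-!
# [H48 SF STD] the standing data for one character, 80-120 lines. File Pool/Agent/H48/SF/Sta.lean

* `std_ex`: `FT χ`: `χ` is trivial on `E.fixingSubgroup`, `E/K` finite. The subgroup `U = {σ | χ σ 0 = 0}` contains `E.fixingSubgroup`, so it is open, hence closed, and `(fixedField U).fixingSubgroup = U` (`InfiniteGalois.fixingSubgroup_fixedField`; see `H38.ML.fixing_fixedField`, H38/ML, for the kernel of a homomorphism: copy the proof with `U`). `t 0 = 1`, `t i` from the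
  surjectivity: a permutation with `0 ↦ i`.
* `std_cu`: `two_ex` in Pool/Agent/H38/SE/Two.lean (proved) and `std_ex`. Its proof: `c : Cu K`. The three `K`-embeddings `F → QBar` (`AlgHom.card`, separable, `c.deg`): choose `e : (c.F →ₐ[K] QBar) ≃ Fin 3` with `e (val) = 0`. `χ σ = e ∘ (σ ∘ ·) ∘ e⁻¹`. `χ σ 0 = 0` iff `σ` fixes `F`. `FT χ`: trivial on the fixing subgroup of the normal closure of `F` (finite). Surjective: the image is transitive (an embedding extends to an automorphism of `QBar`),
  so it has order divisible by 3; if it is not all of `Perm (Fin 3)` it has order 3, so an element which fixes `0` is 1: `χ σ 0 = 0` implies `χ σ = 1`, so `F.fixingSubgroup = ker χ` is normal and `F` is Galois (`InfiniteGalois`/`IntermediateField` correspondence; or: every embedding has the same image `F` since `σ F = F`), against `c.non`.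
  Then `c.F = F0 χ`: same fixing subgroup, or `std_ex`-argument and `InfiniteGalois.fixedField_fixingSubgroup`.
-/

set_option autoImplicit false
set_option linter.dupNamespace false

open scoped NumberField Classical Pointwise
open IsDedekindDomain H38.ML H63.MA

noncomputable section

namespace H48.SF

open H48.KV H67.SX H38.SE
open H48.T3 hiding Ch Fib

variable {K : IntermediateField ℚ QBar} [NumberField K]

omit [NumberField K] in
private theorem stab_eq {χ : Gal(QBar/K) →* Equiv.Perm (Fin 3)} {σ : Gal(QBar/K)} :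
    σ ∈ (MulAction.stabilizer (Equiv.Perm (Fin 3)) (0 : Fin 3)).comap χ ↔ χ σ 0 = 0 := by
  rw [Subgroup.mem_comap, MulAction.mem_stabilizer_iff]
  rfl

private theorem fix_eq {χ : Gal(QBar/K) →* Equiv.Perm (Fin 3)} (h : FT χ) :
    (F0 χ).fixingSubgroup = (MulAction.stabilizer (Equiv.Perm (Fin 3)) (0 : Fin 3)).comap χ := by
  obtain ⟨E, hE, hle⟩ := h
  refine (fixing_fixedField _ E ?_).1
  intro σ hσ
  have h1 : χ σ = 1 := hle hσ
  rw [stab_eq, h1]
  rfl

theorem std_ex (χ : Gal(QBar/K) →* Equiv.Perm (Fin 3)) (hχ : χ ∈ Ch K) (c : Cu K)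
    (hc : c.F = F0 χ) : ∃ t, Std χ c t := by
  have hex : ∀ i : Fin 3, ∃ σ, χ σ 0 = i := by
    intro i
    obtain ⟨σ, hσ⟩ := hχ.2 (Equiv.swap 0 i)
    exact ⟨σ, by rw [hσ, Equiv.swap_apply_left]⟩
  choose t ht using hex
  refine ⟨fun i => if i = 0 then 1 else t i, hχ.1, hχ.2, fun σ => ?_, if_pos rfl, fun i => ?_⟩
  · rw [hc, fix_eq hχ.1, stab_eq]
  · by_cases hi : i = 0
    · simp only [if_pos hi]
      rw [map_one, hi]
      rfl
    · simp only [if_neg hi]
      exact ht i

theorem std_cu (c : Cu K) : ∃ (χ : Gal(QBar/K) →* Equiv.Perm (Fin 3)) (t : _),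
    χ ∈ Ch K ∧ c.F = F0 χ ∧ Std χ c t := by
  obtain ⟨χ, hχ, hF⟩ := two_ex c
  obtain ⟨t, ht⟩ := std_ex χ hχ c hF
  exact ⟨χ, t, hχ, hF, ht⟩

end H48.SF
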