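import Pool.Agent.H48.SF.Kx
import Pool.Agent.H48.SF.Sta

/-!
# [H48 SF KFN] the cocycle of a Kummer character and the norm, 100-150 lines. File Pool/Agent/H48/SF/Kfn.lean

`kf c χ t a σ i = kx c a ((t i)⁻¹ σ t j)`, `j = (χ σ)⁻¹ i`: the cocycle of the induced representation. `(t i)⁻¹ σ (t j)` fixes the point 0: `χ (t j) 0 = j`, `χ σ j = i`, so it is in `F.fixingSubgroup` (`H.fix`).
* `kf_mem`: this. `kf_coc`: `(t i)⁻¹ σ τ (t m) = ((t i)⁻¹ σ (t j)) ((t j)⁻¹ τ (t m))`, `j = (χ σ)⁻¹ i`, `m = (χ τ)⁻¹ j = (χ (σ τ))⁻¹ i`; `kx_mul`. `kf_zero`: `σ ∈ F.fixingSubgroup`, `i = 0`: `t 0 = 1`, `(χ σ)⁻¹ 0 = 0`.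
* `kf_nm`: let `B ^ 2 = a` in `QBar`, `B_i = t i B`, `B_i ^ 2 = (t i) a`; the product of the `(t i) a` over `i` is the norm of `a` (the three embeddings of `F` are the restrictions of the `t i`: `Algebra.norm_eq_prod_embeddings`; they are different: `t i` and `t i'` agree on `F` iff `(t i)⁻¹ t i'` fixes `F` iff `i = i'`; there are three embeddings). So `M = ∏ B_i` is a square root of `N a` and
  `σ M = ∏_j σ t_j B = ∏_i t_i ((t i)⁻¹ σ t_j) B = ∏_i t_i ((-1)^(kf σ i) B) = (-1)^(∑ kf) M` (`kx_root`), and `kk_of_root` over `K` gives the value (`kk 2 (-1 : K) (Nm K c.F a) σ`).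
* `kf_sq`: `Nm a` is a square in `K` iff `kk 2 (-1 : K) (Nm a) = 0` (`kk_eq_zero_iff`) iff the sums vanish.
* `kf_nmf`: for `σ ∈ F.fixingSubgroup` the Kummer character over `F` of the element `N a ∈ K ⊆ F` is the restriction of the Kummer character over `K`: both are determined by the action on a square root (`kx_root`, `kk_root`).
-/

set_option autoImplicit false
set_option linter.dupNamespace false

open scoped NumberField Classical Pointwise
open IsDedekindDomain H38.ML H63.MA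

noncomputable section

namespace H48.SF

open H48.KV H67.SX H38.SE
open H48.T3 hiding Ch Fib

variable {K : IntermediateField ℚ QBar} [NumberField K]

/-- the cocycle of the Kummer character of `a` -/
def kf (c : Cu K) (χ : Gal(QBar/K) →* Equiv.Perm (Fin 3)) (t : Fin 3 → Gal(QBar/K)) (a : c.Fˣ)
    (σ : Gal(QBar/K)) (i : Fin 3) : ZMod 2 := kx c a ((t i)⁻¹ * σ * t ((χ σ)⁻¹ i))

variable {χ : Gal(QBar/K) →* Equiv.Perm (Fin 3)} {c : Cu K} {t : Fin 3 → Gal(QBar/K)}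

theorem kf_mem (H : Std χ c t) (σ : Gal(QBar/K)) (i : Fin 3) :
    (t i)⁻¹ * σ * t ((χ σ)⁻¹ i) ∈ c.F.fixingSubgroup := by
  have h : χ σ ((χ σ)⁻¹ i) = i := (χ σ).apply_symm_apply i
  rw [H.fix, map_mul, map_mul, map_inv, Equiv.Perm.mul_apply, Equiv.Perm.mul_apply, H.ti, h,
    Equiv.Perm.inv_eq_iff_eq, H.ti]

theorem kf_coc (H : Std χ c t) (a : c.Fˣ) (σ τ : Gal(QBar/K)) (i : Fin 3) :
    kf c χ t a (σ * τ) i = kf c χ t a σ i + kf c χ t a τ ((χ σ)⁻¹ i) := by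
  have h1 : (χ (σ * τ))⁻¹ i = (χ τ)⁻¹ ((χ σ)⁻¹ i) := by
    rw [map_mul, mul_inv_rev, Equiv.Perm.mul_apply]
  unfold kf
  rw [← kx_mul c a (kf_mem H σ i) (kf_mem H τ ((χ σ)⁻¹ i)), h1]
  congr 1
  group

theorem kf_zero (H : Std χ c t) (a : c.Fˣ) (σ : Gal(QBar/K)) (hσ : σ ∈ c.F.fixingSubgroup) :
    kf c χ t a σ 0 = kx c a σ := by
  have h1 : (χ σ)⁻¹ 0 = 0 := by
    rw [Equiv.Perm.inv_eq_iff_eq, (H.fix σ).1 hσ]
  unfold kf
  rw [h1, H.t0, inv_one, one_mul, mul_one]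

/-- the embeddings -/
private def kfe (c : Cu K) (t : Fin 3 → Gal(QBar/K)) (i : Fin 3) : c.F →ₐ[K] QBar :=
  ((t i : Gal(QBar/K)) : QBar →ₐ[K] QBar).comp c.F.val

private theorem kfe_apply (c : Cu K) (t : Fin 3 → Gal(QBar/K)) (i : Fin 3) (x : c.F) :
    kfe c t i x = t i (x : QBar) := rfl

private theorem kfe_bij (H : Std χ c t) : Function.Bijective (kfe c t) := by
  rw [Fintype.bijective_iff_injective_and_card]
  constructor
  · intro i j hij
    have h1 : (t i)⁻¹ * t j ∈ c.F.fixingSubgroup := by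
      rw [IntermediateField.mem_fixingSubgroup_iff]
      intro x hx
      have h2 := DFunLike.congr_fun hij ⟨x, hx⟩
      rw [kfe_apply, kfe_apply] at h2
      simp only at h2
      rw [AlgEquiv.mul_apply, ← h2, ← AlgEquiv.mul_apply, inv_mul_cancel]
      rfl
    rw [H.fix, map_mul, map_inv, Equiv.Perm.mul_apply, H.ti, Equiv.Perm.inv_eq_iff_eq, H.ti] at h1
    exact h1.symm
  · rw [AlgHom.card, c.deg, Fintype.card_fin]

private theorem kf_norm (H : Std χ c t) (a : c.F) :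
    ((Algebra.norm K a : K) : QBar) = ∏ i, t i (a : QBar) := by
  have h1 := Algebra.norm_eq_prod_embeddings K QBar a
  have h2 : ∏ i, t i (a : QBar) = ∏ σ : c.F →ₐ[K] QBar, σ a :=
    Fintype.prod_bijective (kfe c t) (kfe_bij H) _ _ fun i => rfl
  rw [h2, ← h1]
  rfl

private theorem kf_ac (K : IntermediateField ℚ QBar) : IsAlgClosure K QBar :=
  ⟨inferInstance, Algebra.IsAlgebraic.tower_top (K := ℚ) K⟩

theorem kf_nm (H : Std χ c t) (a : c.Fˣ) (σ : Gal(QBar/K)) :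
    kk 2 (-1 : K) (Nm K c.F a) σ = ∑ i, kf c χ t a σ i := by
  have := kf_ac K
  obtain ⟨B, hB⟩ : ∃ B : QBar, B ^ 2 = ((a : c.F) : QBar) :=
    IsAlgClosed.exists_pow_nat_eq _ two_pos
  have hM : (∏ i, t i B) ^ 2 = algebraMap K QBar ((Nm K c.F a : Kˣ) : K) := by
    have h1 : algebraMap K QBar ((Nm K c.F a : Kˣ) : K) = ((Algebra.norm K (a : c.F) : K) : QBar) := rfl
    rw [h1, kf_norm H, ← Finset.prod_pow]
    refine Finset.prod_congr rfl fun i _ => ?_
    rw [← map_pow, hB]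
  have hσ : σ (∏ i, t i B) = algebraMap K QBar (-1) ^ (∑ i, ((kf c χ t a σ i).val : ℤ)) * ∏ i, t i B := by
    rw [map_prod]
    have h1 : ∏ i, σ (t i B) = ∏ i, σ (t ((χ σ)⁻¹ i) B) :=
      (Equiv.prod_comp ((χ σ)⁻¹ : Equiv.Perm (Fin 3)) fun i => σ (t i B)).symm
    rw [h1]
    have h2 : ∀ i, σ (t ((χ σ)⁻¹ i) B) = (-1) ^ (kf c χ t a σ i).val * t i B := by
      intro i
      have h3 := kx_root c a B hB (kf_mem H σ i)
      have h4 : σ (t ((χ σ)⁻¹ i) B) = t i (((t i)⁻¹ * σ * t ((χ σ)⁻¹ i)) B) := by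
        rw [← AlgEquiv.mul_apply, ← AlgEquiv.mul_apply]
        congr 1
        group
      rw [h4, h3, map_mul, map_pow, map_neg, map_one]
      rfl
    rw [Finset.prod_congr rfl fun i _ => h2 i, Finset.prod_mul_distrib, Finset.prod_pow_eq_pow_sum]
    congr 1
    rw [map_neg, map_one, ← zpow_natCast]
    push_cast
    rfl
  have h3 := kk_of_root Nat.prime_two (neg_one_prim K) (Nm K c.F a) (∏ i, t i B) hM σ _ hσ
  rw [h3]
  push_cast
  exact Finset.sum_congr rfl fun i _ => ZMod.natCast_zmod_val _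

theorem kf_sq (H : Std χ c t) (a : c.Fˣ) :
    IsSquare (Algebra.norm K (a : c.F)) ↔ ∀ σ, ∑ i, kf c χ t a σ i = 0 := by
  have := kf_ac K
  have h1 := kk_eq_zero_iff (Ω := QBar) Nat.prime_two (neg_one_prim K) (Nm K c.F a)
  have h2 : (∀ σ, ∑ i, kf c χ t a σ i = 0) ↔ ∀ σ : Gal(QBar/K), kk 2 (-1 : K) (Nm K c.F a) σ = 0 :=
    forall_congr' fun σ => by rw [kf_nm H]
  rw [h2, h1]
  constructor
  · rintro ⟨b, hb⟩
    have hb0 : b ≠ 0 := by
      rintro rfl
      rw [mul_zero] at hb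
      exact a.ne_zero (Algebra.norm_eq_zero_iff.1 hb)
    refine ⟨Units.mk0 b hb0, Units.ext ?_⟩
    rw [Units.val_pow_eq_pow_val, Units.val_mk0, sq]
    exact hb.symm
  · rintro ⟨b, hb⟩
    refine ⟨b, ?_⟩
    have h3 := congrArg (fun u : Kˣ => (u : K)) hb
    simp only [Units.val_pow_eq_pow_val] at h3
    rw [← sq]
    exact h3.symm

theorem kf_nmf (H : Std χ c t) (a : c.Fˣ) (σ : Gal(QBar/K)) (hσ : σ ∈ c.F.fixingSubgroup) :
    kx c (inc K c.F (Nm K c.F a)) σ = ∑ i, kf c χ t a σ i := by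
  have := kf_ac K
  rw [← kf_nm H]
  obtain ⟨M, hM⟩ := gkum_root (K := K) (Ω := QBar) Nat.prime_two (Nm K c.F a)
  have h1 := kx_root c (inc K c.F (Nm K c.F a)) M hM hσ
  have h2 := kk_of_root Nat.prime_two (neg_one_prim K) (Nm K c.F a) M hM σ
    ((kx c (inc K c.F (Nm K c.F a)) σ).val : ℤ) (by
      rw [h1, map_neg, map_one, zpow_natCast])
  rw [h2]
  push_cast
  exact (ZMod.natCast_zmod_val _).symm

end H48.SF
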