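import Pool.Agent.H48.SF.Kx
import Pool.Agent.H48.SF.Sta
import Pool.Agent.H48.SF.Kfn
import Pool.Agent.H48.T3.AxA
import Pool.Agent.H63.MC.CLkC

/-!
# [H48 SF AXA] local conditions for a Kummer class over the cubic field, 110-160 lines. File Pool/Agent/H48/SF/AxA.lean

Pattern: Pool/Agent/H48/T3/AxA.lean (`ax_loc`, `axa_hom`, `axa_ex`; copy and adapt; `ax_dec` is public there). `F = c.F`.
`ψ v`, `v ∈ S`, homomorphisms of finite type with `pi ∘ ψ v = χ` on `dec (Q.P v)`. We want `b ∈ Fˣ` with `kx c b (g x g⁻¹) = lam (ψ v x) i₀`, `i₀ = (χ g)⁻¹ 0`, for all `x ∈ dec (Q.P v)` with `χ x i₀ = i₀` (then `g x g⁻¹` fixes `F`: `χ (g x g⁻¹) 0 = 0`, `H.fix`).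
* For every prime `P` of `F` choose `l`, `g` with `P = (g • Q.P l) ∩ 𝓞 F` (`axa_ex`), `Q'.P P = g • Q.P l` (a `DP F QBar`).
* The local character at `P` (over `l = v ∈ S`): for `σ ∈ Gal(QBar/F)` in the decomposition group of `g • Q.P v`: `x = g⁻¹ σ g ∈ dec (Q.P v)` (`ax_dec`), `χ x i₀ = i₀`; `δ_P σ = lam (ψ v x) i₀`. Homomorphism: `lam (ψ v (x y)) i₀ = lam (ψ v x) i₀ + lam (ψ v y) ((χ x)⁻¹ i₀) = ..` (`k.mul`, `hpi`). Finite level: as in `axa_hom`.
* `lock` (H63/MC/CLkC.lean) over the field `F` gives `b` with `kk 2 (-1) b = δ_P` on the decomposition group of `Q'.P P` for the `P` over `S`. For arbitrary `g` and `x`: let `P` be the prime of `F` below `g • Q.P v`, `g_P` the chosen element; `g • Q.P v = (e g_P) • Q.P v` with `e ∈ Gal(QBar/F)` (transitivity over `F`), so `g = e g_P d`, `d ∈ dec (Q.P v)`.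
  `σ = g x g⁻¹`, `e⁻¹ σ e = g_P (d x d⁻¹) g_P⁻¹`, and `kk b (e⁻¹ σ e) = kk b σ`; the value is `lam (ψ v (d x d⁻¹)) ((χ g_P)⁻¹ 0)`, `(χ g_P)⁻¹ 0 = χ d ((χ g)⁻¹ 0) = χ d i₀` (`χ e 0 = 0`), and `lam (ψ v (d x d⁻¹)) (χ d i₀) = lam (ψ v x) i₀`: from `lam (D X) (p i) = lam D (p i) + lam X i`, `lam (Y D) (p i) = lam Y (p i) + lam D (p i)` for
  `D = ψ v d`, `p = χ d`, `X = ψ v x`, `Y = D X D⁻¹` (`pi Y` fixes `p i`).
-/

set_option autoImplicit false
set_option linter.dupNamespace false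

open scoped NumberField Classical Pointwise
open IsDedekindDomain H38.ML H63.MA

noncomputable section

namespace H48.SF

open H48.KV H67.SX H38.SE
open H48.T3 hiding Ch Fib

private theorem axa_trans {K : Type} [Field K] [NumberField K] {Ω : Type} [Field Ω] [Algebra K Ω]
    [IsAlgClosure K Ω] (P P' : Ideal (𝓞 Ω)) (hP : P.IsPrime) (hP' : P'.IsPrime)
    (h : P.under (𝓞 K) = P'.under (𝓞 K)) : ∃ g : Gal(Ω/K), P' = g • P := by
  have : IsGalois K Ω := IsAlgClosure.isGalois K Ω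
  let _ : TopologicalSpace (𝓞 Ω) := ⊥
  have : DiscreteTopology (𝓞 Ω) := ⟨rfl⟩
  have : ContinuousSMul Gal(Ω/K) (𝓞 Ω) := by
    rw [continuousSMul_iff_stabilizer_isOpen]
    intro x
    have h1 := stabilizer_isOpen_of_isIntegral (K := K) (L := Ω) (x : Ω)
    have h2 : (MulAction.stabilizer Gal(Ω/K) x : Set Gal(Ω/K)) =
        (MulAction.stabilizer Gal(Ω/K) (x : Ω) : Set Gal(Ω/K)) := by
      ext g
      simp only [SetLike.mem_coe, MulAction.mem_stabilizer_iff]
      constructor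
      · intro hg
        exact congrArg (fun z : 𝓞 Ω => (z : Ω)) hg
      · intro hg
        exact NumberField.RingOfIntegers.ext hg
    rw [h2]
    exact h1
  have : Algebra.IsInvariant (𝓞 K) (𝓞 Ω) Gal(Ω/K) := ⟨fun b hb => by
    have h1 : (b : Ω) ∈ (⊥ : IntermediateField K Ω) := by
      rw [← InfiniteGalois.fixedField_bot (k := K) (K := Ω), IntermediateField.mem_fixedField_iff]
      intro g _
      exact congrArg (fun z : 𝓞 Ω => (z : Ω)) (hb g)
    obtain ⟨a, ha⟩ := IntermediateField.mem_bot.1 h1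
    have h2 : IsIntegral ℤ a := by
      have h3 : IsIntegral ℤ (algebraMap K Ω a) := by
        rw [ha]
        exact b.2
      exact (isIntegral_algebraMap_iff (algebraMap K Ω).injective).1 h3
    refine ⟨⟨a, h2⟩, NumberField.RingOfIntegers.ext ?_⟩
    exact ha⟩
  exact Algebra.IsInvariant.exists_smul_of_under_eq_of_profinite (A := 𝓞 K) (G := Gal(Ω/K)) P P' h

variable {K : IntermediateField ℚ QBar} [NumberField K] {G : Type} [Group G] {k : KS G}
  {χ : Gal(QBar/K) →* Equiv.Perm (Fin 3)} {c : Cu K} {t : Fin 3 → Gal(QBar/K)}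

/-- for every prime of `F` there is `g` such that the prime is below `g • Q.P l` -/
private theorem axa_ex (c : Cu K) (Q : DP K QBar) (P : Pl c.F) :
    ∃ (l : Pl K) (g : Gal(QBar/K)), Over P l ∧ (g • Q.P l).under (𝓞 c.F) = P.asIdeal := by
  have hcl : IsAlgClosure c.F QBar := alg_cl c.F
  obtain ⟨l, hl⟩ := exists_below (K := K) P
  obtain ⟨B, hB, hBP⟩ := gloc_over c.F QBar P.asIdeal P.isPrime
  have hBl : B.under (𝓞 K) = l.asIdeal := by
    rw [← hl, ← hBP]
    ext x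
    exact Iff.rfl
  obtain ⟨g, hg⟩ := axa_trans (K := K) (Q.P l) B (Q.prime l) hB ((Q.under l).trans hBl.symm)
  exact ⟨l, g, hl, by rw [← hg]; exact hBP⟩

private theorem axa_ai (e : Equiv.Perm (Fin 3)) (i : Fin 3) : e (e⁻¹ i) = i :=
  e.apply_symm_apply i

private theorem axa_ia (e : Equiv.Perm (Fin 3)) (i : Fin 3) : e⁻¹ (e i) = i :=
  e.symm_apply_apply i

private theorem axa_one (k : KS G) (i : Fin 3) : k.lam 1 i = 0 := by
  have h := k.mul 1 1 i
  rw [one_mul, map_one, inv_one, Equiv.Perm.coe_one, id] at h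
  exact left_eq_add.1 h

/-- conjugation -/
private theorem axa_conj (k : KS G) (D X : G) (i : Fin 3) (hX : k.pi X i = i) :
    k.lam (D * X * D⁻¹) (k.pi D i) = k.lam X i := by
  have h1 := k.mul D X (k.pi D i)
  have h2 := k.mul (D * X * D⁻¹) D (k.pi D i)
  have h3 : D * X * D⁻¹ * D = D * X := by group
  have h4 : (k.pi (D * X * D⁻¹))⁻¹ (k.pi D i) = k.pi D i := by
    rw [Equiv.Perm.inv_eq_iff_eq]
    rw [map_mul, map_mul, map_inv, Equiv.Perm.mul_apply, Equiv.Perm.mul_apply,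
      axa_ia, hX]
  rw [axa_ia] at h1
  rw [h3, h4, h1, add_comm] at h2
  exact (add_right_cancel h2).symm

private theorem axa_fix (H : Std χ c t) (g : Gal(QBar/K)) (σ : Gal(QBar/c.F)) :
    χ (g⁻¹ * σ.restrictScalars K * g) ((χ g)⁻¹ 0) = (χ g)⁻¹ 0 := by
  rw [map_mul, map_mul, map_inv, Equiv.Perm.mul_apply, Equiv.Perm.mul_apply,
    axa_ai, (H.fix _).1 (kx_fix c σ)]

/-- the local character -/
private theorem axa_hom (H : Std χ c t) (P : Ideal (𝓞 QBar))
    (ψ : Gal(QBar/K) →* G) (hft : FT ψ)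
    (hpi : ∀ σ ∈ dec (K := K) P, k.pi (ψ σ) = χ σ) (g : Gal(QBar/K)) :
    ∃ δ : dec (K := c.F) (g • P) →* Multiplicative (ZMod 2),
      (∀ σ : dec (K := c.F) (g • P), Multiplicative.toAdd (δ σ) =
        k.lam (ψ (g⁻¹ * (σ : Gal(QBar/c.F)).restrictScalars K * g)) ((χ g)⁻¹ 0)) ∧
      ∃ E : IntermediateField c.F QBar, FiniteDimensional c.F E ∧
        ∀ u : dec (K := c.F) (g • P), (u : Gal(QBar/c.F)) ∈ E.fixingSubgroup → δ u = 1 := by
  have hd : ∀ σ : dec (K := c.F) (g • P),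
      g⁻¹ * (σ : Gal(QBar/c.F)).restrictScalars K * g ∈ dec (K := K) P := by
    intro σ
    rw [← ax_dec]
    exact fun x => σ.2 x
  refine ⟨⟨⟨fun σ => Multiplicative.ofAdd
      (k.lam (ψ (g⁻¹ * (σ : Gal(QBar/c.F)).restrictScalars K * g)) ((χ g)⁻¹ 0)), ?_⟩, ?_⟩,
      fun σ => rfl, ?_⟩
  · have h1 : ((1 : dec (K := c.F) (g • P)) : Gal(QBar/c.F)).restrictScalars K = 1 := rfl
    rw [h1, mul_one, inv_mul_cancel, map_one, axa_one]
    rfl
  · intro σ σ'
    change Multiplicative.ofAdd _ = Multiplicative.ofAdd _ * Multiplicative.ofAdd _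
    rw [← ofAdd_add]
    have h1 : ((σ * σ' : dec (K := c.F) (g • P)) : Gal(QBar/c.F)).restrictScalars K =
      (σ : Gal(QBar/c.F)).restrictScalars K * (σ' : Gal(QBar/c.F)).restrictScalars K := rfl
    have h2 : g⁻¹ * ((σ : Gal(QBar/c.F)).restrictScalars K * (σ' : Gal(QBar/c.F)).restrictScalars K) * g
      = (g⁻¹ * (σ : Gal(QBar/c.F)).restrictScalars K * g) *
        (g⁻¹ * (σ' : Gal(QBar/c.F)).restrictScalars K * g) := by group
    have h3 : (k.pi (ψ (g⁻¹ * (σ : Gal(QBar/c.F)).restrictScalars K * g)))⁻¹ ((χ g)⁻¹ 0) =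
        (χ g)⁻¹ 0 := by
      rw [hpi _ (hd σ), Equiv.Perm.inv_eq_iff_eq]
      exact (axa_fix H g _).symm
    rw [h1, h2, map_mul, k.mul, h3]
  · obtain ⟨E, hE1, hE2⟩ := hft
    have hF : FiniteDimensional K c.F :=
      FiniteDimensional.of_finrank_pos (by rw [c.deg]; norm_num)
    let E' : IntermediateField K QBar := E.map (g : QBar →ₐ[K] QBar)
    have hE' : FiniteDimensional K E' := by
      have h1 : E ≃ₐ[K] E' := IntermediateField.equivMap E _
      exact h1.toLinearEquiv.finiteDimensional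
    have hle : c.F ≤ c.F ⊔ E' := le_sup_left
    have hfs : FiniteDimensional K (c.F ⊔ E' : IntermediateField K QBar) :=
      IntermediateField.finiteDimensional_sup c.F E'
    refine ⟨IntermediateField.extendScalars hle, ?_, ?_⟩
    · have h1 : FiniteDimensional K (IntermediateField.extendScalars hle) := hfs
      exact FiniteDimensional.right K c.F _
    · intro u hu
      rw [IntermediateField.mem_fixingSubgroup_iff] at hu
      have h1 : g⁻¹ * (u : Gal(QBar/c.F)).restrictScalars K * g ∈ E.fixingSubgroup := by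
        rw [IntermediateField.mem_fixingSubgroup_iff]
        intro x hx
        have h2 : (u : Gal(QBar/c.F)) (g x) = g x := by
          refine hu (g x) ?_
          rw [IntermediateField.mem_extendScalars]
          exact (le_sup_right : E' ≤ c.F ⊔ E') ((IntermediateField.mem_map E).2 ⟨x, hx, rfl⟩)
        change g⁻¹ ((u : Gal(QBar/c.F)) (g x)) = x
        rw [h2]
        exact g.symm_apply_apply x
      have h2 : ψ (g⁻¹ * (u : Gal(QBar/c.F)).restrictScalars K * g) = 1 := hE2 h1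
      change Multiplicative.ofAdd _ = 1
      rw [h2, axa_one]
      rfl


theorem ax_loc (H : Std χ c t) (Q : DP K QBar) (S : Finset (Pl K))
    (ψ : Pl K → Gal(QBar/K) →* G) (hft : ∀ v ∈ S, FT (ψ v))
    (hpi : ∀ v ∈ S, ∀ σ ∈ dec (K := K) (Q.P v), k.pi (ψ v σ) = χ σ) :
    ∃ b : c.Fˣ, ∀ v ∈ S, ∀ g x : Gal(QBar/K), x ∈ dec (K := K) (Q.P v) →
      χ x ((χ g)⁻¹ 0) = (χ g)⁻¹ 0 → kx c b (g * x * g⁻¹) = k.lam (ψ v x) ((χ g)⁻¹ 0) := by
  have hcl : IsAlgClosure c.F QBar := alg_cl c.F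
  choose lf gf hl hg using axa_ex c Q
  let Q' : DP c.F QBar :=
    { P := fun P => gf P • Q.P (lf P)
      prime := fun P => by
        have := Q.prime (lf P)
        infer_instance
      under := hg }
  obtain ⟨S', hS'⟩ : ∃ S' : Finset (Pl c.F), ∀ v ∈ S, ∀ P : Pl c.F, Over P v → P ∈ S' := by
    refine ⟨S.biUnion fun v => (over_finite (L := c.F) v).toFinset, fun v hv P hP => ?_⟩
    rw [Finset.mem_biUnion]
    exact ⟨v, hv, (Set.Finite.mem_toFinset _).2 hP⟩
  have hex : ∀ P : Pl c.F, ∃ δ : dec (K := c.F) (Q'.P P) →* Multiplicative (ZMod 2),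
      (lf P ∈ S → ∀ σ : dec (K := c.F) (Q'.P P), Multiplicative.toAdd (δ σ) =
        k.lam (ψ (lf P) ((gf P)⁻¹ * (σ : Gal(QBar/c.F)).restrictScalars K * gf P))
          ((χ (gf P))⁻¹ 0)) ∧
      ∃ E : IntermediateField c.F QBar, FiniteDimensional c.F E ∧
        ∀ u : dec (K := c.F) (Q'.P P), (u : Gal(QBar/c.F)) ∈ E.fixingSubgroup → δ u = 1 := by
    intro P
    by_cases hP : lf P ∈ S
    · obtain ⟨δ, h1, h2⟩ := axa_hom H (Q.P (lf P)) (ψ (lf P)) (hft _ hP) (hpi _ hP) (gf P)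
      exact ⟨δ, fun _ => h1, h2⟩
    · refine ⟨1, fun h1 => absurd h1 hP, ⊥, inferInstance, fun u _ => rfl⟩
  choose δ hδ1 hδ2 using hex
  obtain ⟨b, hb⟩ := lock Nat.prime_two (neg_one_prim c.F) S' Q' δ (fun P _ => hδ2 P)
  refine ⟨b, fun v hv g x hxd hx0 => ?_⟩
  have hfx : g * x * g⁻¹ ∈ c.F.fixingSubgroup := by
    rw [H.fix, map_mul, map_mul, map_inv, Equiv.Perm.mul_apply, Equiv.Perm.mul_apply, hx0,
      axa_ai]
  obtain ⟨σ, hσ⟩ := kx_ex c _ hfx
  rw [← hσ, kx_kk]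
  have hx : x = g⁻¹ * σ.restrictScalars K * g := by
    rw [hσ]
    group
  -- the prime of `F` below `g • Q.P v`
  have hQp := Q.prime v
  have hB : (g • Q.P v).IsPrime := by
    infer_instance
  have hBK : (g • Q.P v).under (𝓞 K) = v.asIdeal := by
    rw [Ideal.under_smul]
    exact Q.under v
  have hBF : ((g • Q.P v).under (𝓞 c.F)).comap (algebraMap (𝓞 K) (𝓞 c.F)) = v.asIdeal := by
    rw [← hBK]
    ext x
    exact Iff.rfl
  let P : Pl c.F :=
    { asIdeal := (g • Q.P v).under (𝓞 c.F)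
      isPrime := Ideal.IsPrime.under _ _
      ne_bot := by
        intro h0
        apply v.ne_bot
        rw [← hBF, h0]
        exact Ideal.comap_bot_of_injective _ (FaithfulSMul.algebraMap_injective (𝓞 K) (𝓞 c.F)) }
  have hPv : Over P v := hBF
  have hlv : lf P = v := below_unique (hl P) hPv
  obtain ⟨e, he⟩ := axa_trans (K := c.F) (Q'.P P) (g • Q.P v) (Q'.prime P) hB (Q'.under P)
  have he' : g • Q.P v = (e.restrictScalars K * gf P) • Q.P v := by
    rw [he, mul_smul]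
    change e • (gf P • Q.P (lf P)) = _
    rw [hlv]
    rfl
  -- the element `e⁻¹ σ e`
  have hσ1 : σ ∈ dec (K := c.F) (g • Q.P v) := by
    have h1 : σ.restrictScalars K ∈ dec (K := K) (g • Q.P v) := by
      rw [ax_dec, ← hx]
      exact hxd
    exact fun y => h1 y
  have hσ2 : e⁻¹ * σ * e ∈ dec (K := c.F) (Q'.P P) := by
    rw [← ax_dec, ← he]
    exact hσ1
  have h1 := hb P (hS' v hv P hPv) ⟨_, hσ2⟩
  rw [hδ1 P (by rw [hlv]; exact hv)] at h1
  have h2 : kk 2 (-1 : c.F) b (e⁻¹ * σ * e) = kk 2 (-1 : c.F) b σ := by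
    have h3 : kk 2 (-1 : c.F) b (e⁻¹ * σ * e) =
      Multiplicative.toAdd (kc 2 (-1 : c.F) QBar b (e⁻¹ * σ * e)) := rfl
    have h4 : kk 2 (-1 : c.F) b σ = Multiplicative.toAdd (kc 2 (-1 : c.F) QBar b σ) := rfl
    rw [h3, h4]
    simp only [map_mul, map_inv]
    rw [mul_comm _ (kc 2 (-1 : c.F) QBar b σ), mul_assoc, inv_mul_cancel, mul_one]
  change kk 2 (-1 : c.F) b (e⁻¹ * σ * e) = _ at h1
  rw [h2] at h1
  rw [h1]
  -- `d = gP⁻¹ e⁻¹ g ∈ dec`
  have hrs : ((e⁻¹ * σ * e : Gal(QBar/c.F))).restrictScalars K =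
      (e.restrictScalars K)⁻¹ * σ.restrictScalars K * e.restrictScalars K := rfl
  have hd : (gf P)⁻¹ * (e.restrictScalars K)⁻¹ * g ∈ dec (K := K) (Q.P v) := by
    have h3 : ((gf P)⁻¹ * (e.restrictScalars K)⁻¹ * g) • Q.P v = Q.P v := by
      rw [mul_smul, he', ← mul_smul]
      have h4 : (gf P)⁻¹ * (e.restrictScalars K)⁻¹ * (e.restrictScalars K * gf P) = 1 := by group
      rw [h4, one_smul]
    intro y
    have h4 : ((gf P)⁻¹ * (e.restrictScalars K)⁻¹ * g) • y ∈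
      ((gf P)⁻¹ * (e.restrictScalars K)⁻¹ * g) • Q.P v ↔ y ∈ Q.P v := Ideal.smul_mem_pointwise_smul_iff
    rw [h3] at h4
    exact h4
  set d := (gf P)⁻¹ * (e.restrictScalars K)⁻¹ * g with hddef
  have hg1 : g = e.restrictScalars K * gf P * d := by
    rw [hddef]
    group
  have h5 : (gf P)⁻¹ * (((⟨_, hσ2⟩ : dec (K := c.F) (Q'.P P)) : Gal(QBar/c.F))).restrictScalars K * gf P
      = d * x * d⁻¹ := by
    change (gf P)⁻¹ * ((e⁻¹ * σ * e : Gal(QBar/c.F))).restrictScalars K * gf P = _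
    rw [hrs, hx, hddef]
    group
  rw [h5, hlv]
  have h6 : (χ (gf P))⁻¹ 0 = k.pi (ψ v d) ((χ g)⁻¹ 0) := by
    rw [hpi v hv d hd, Equiv.Perm.inv_eq_iff_eq]
    have h7 : χ (e.restrictScalars K) 0 = 0 := (H.fix _).1 (kx_fix c e)
    have h8 : gf P * d * g⁻¹ = (e.restrictScalars K)⁻¹ := by
      rw [hddef]
      group
    have h9 : ∀ A D : Gal(QBar/K), χ A (χ D ((χ g)⁻¹ 0)) = χ (A * D * g⁻¹) 0 := by
      intro A D
      rw [map_mul, map_mul, map_inv, Equiv.Perm.mul_apply, Equiv.Perm.mul_apply]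
    rw [h9 (gf P) d, h8, map_inv, eq_comm, Equiv.Perm.inv_eq_iff_eq, h7]
  have h10 : k.pi (ψ v x) ((χ g)⁻¹ 0) = (χ g)⁻¹ 0 := by
    rw [hpi v hv x hxd, hx0]
  rw [h6, map_mul, map_mul, map_inv]
  exact axa_conj k _ _ _ h10

end H48.SF
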