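import Pool.Agent.H48.SF.SDf

/-!
# [H48 SF GRP] the group `V ⋊ S_3`, pure group theory, 100-150 lines. File Pool/Agent/H48/SF/Grp.lean

`k : KS G`, an element `g` is the pair `(lam g, pi g)`; `lam (g h) i = lam g i + lam h ((pi g)⁻¹ i)` (`k.mul`), `∑ lam = 0`. `V = ker pi`.
* `ks_one`: `lam (1 * 1) i = lam 1 i + lam 1 i`. `ks_inv`: `0 = lam (g * g⁻¹) (pi g i) = lam g (pi g i) + lam g⁻¹ i`. `ks_conj`: `k.mul` twice and `ks_inv` (`pi δ = 1`). `ks_sec`: `s x` = the element of `k.ex x 0`; homomorphism by `k.inj`.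
* `ks_surj`: let `x = φ σ`, `lam x ≠ 0` (`k.inj x 1`), `∑ lam x = 0`, so `lam x` is the indicator of the complement of one point `j` (`Fin 3`, `decide`). For `y = φ τ` with `pi y = p`: `lam (y x y⁻¹) i = lam x (p⁻¹ i)` (compute with `k.mul`, `ks_inv`; `pi x = 1`), so the indicators of the complements of all points occur, and all elements of `ker pi` are
  in the range. For `g : G` take `τ` with `pi (φ τ) = pi g`; `g (φ τ)⁻¹ ∈ ker pi`.
* `ks_split`: let `p = pi (φ σ)`, `p i = i`. If `p = 1` then `φ σ = 1` (`hJ`), `lam = 0`. Otherwise `p * p = 1` (a permutation of three points with a fixed point; `decide`), `pi (φ (σ * σ)) = 1`, so `φ σ * φ σ = 1`, `0 = lam (φ σ) j + lam (φ σ) (p⁻¹ j)` for all `j`; for the two points `j, j'` `≠ i`: `lam j = lam j'`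
  (`p` exchanges them), and `lam i + lam j + lam j' = 0`, so `lam i = 0`.
* `ks_free`: `z = δ'⁻¹ δ`, `pi z = 1`, commutes with all `φ σ`; `lam z` is invariant under all `pi (φ σ)` (compare `lam (g z)` and `lam (z g)`), so constant, and of sum zero: `3 lam = 0`, so `lam z = 0`, `z = 1`.
* `ks_card`: `{δ | pi δ = 1}` is in bijection (`lam`; `k.inj`, `k.ex`) with the `f : Fin 3 → ZMod 2` of sum zero, of which there are 4 (`decide`).
-/

set_option autoImplicit false
set_option linter.dupNamespace false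

open scoped NumberField Classical Pointwise
open IsDedekindDomain H38.ML H63.MA

noncomputable section

namespace H48.SF

open H48.KV H67.SX H38.SE
open H48.T3 hiding Ch Fib

variable {G : Type} [Group G] (k : KS G)

private theorem z2 {a b : ZMod 2} (h : a + b = 0) : b = a := by
  rw [eq_neg_of_add_eq_zero_right h, ZMod.neg_eq_self_mod_two]

private theorem z2' (a : ZMod 2) : a + a = 0 := CharTwo.add_self_eq_zero a

private theorem perm_inv (p : Equiv.Perm (Fin 3)) (i : Fin 3) : p⁻¹ (p i) = i := p.symm_apply_apply i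

private theorem perm_inv' (p : Equiv.Perm (Fin 3)) (i : Fin 3) : p (p⁻¹ i) = i := p.apply_symm_apply i

private theorem dc1 : ∀ f0 f : Fin 3 → ZMod 2, f0 ≠ 0 → ∑ i, f0 i = 0 → ∑ i, f i = 0 →
    f = 0 ∨ ∃ p : Equiv.Perm (Fin 3), ∀ i, f i = f0 (p⁻¹ i) := by
  decide

private theorem dc2 : ∀ (p : Equiv.Perm (Fin 3)) (i : Fin 3), p i = i → p * p = 1 := by
  decide

private theorem dc3 : ∀ (p : Equiv.Perm (Fin 3)) (i : Fin 3) (f : Fin 3 → ZMod 2), p ≠ 1 → p i = i →
    (∀ j, f j + f (p⁻¹ j) = 0) → ∑ i, f i = 0 → f i = 0 := by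
  decide

private theorem dc4 : ∀ f : Fin 3 → ZMod 2, (∀ (p : Equiv.Perm (Fin 3)) (i : Fin 3), f i = f (p⁻¹ i)) →
    ∑ i, f i = 0 → f = 0 := by
  decide

private theorem dc5 : (Finset.univ.filter (fun f : Fin 3 → ZMod 2 => ∑ i, f i = 0)).card = 4 := by
  decide

theorem ks_one (i : Fin 3) : k.lam 1 i = 0 := by
  have h := k.mul 1 1 i
  rw [map_one, inv_one, Equiv.Perm.one_apply, mul_one] at h
  exact (left_eq_add.1 h)

theorem ks_inv (g : G) (i : Fin 3) : k.lam g⁻¹ i = k.lam g (k.pi g i) := by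
  have h := k.mul g g⁻¹ (k.pi g i)
  rw [mul_inv_cancel, ks_one, perm_inv] at h
  exact z2 h.symm

theorem ks_conj {δ : G} (hδ : k.pi δ = 1) (g : G) (i : Fin 3) :
    k.lam (δ * g * δ⁻¹) i = k.lam g i + (k.lam δ i + k.lam δ ((k.pi g)⁻¹ i)) := by
  rw [k.mul, k.mul, ks_inv, map_mul, hδ, inv_one, one_mul, Equiv.Perm.one_apply, Equiv.Perm.one_apply]
  ring

theorem ks_sec : ∃ s : Equiv.Perm (Fin 3) →* G, (∀ x, k.pi (s x) = x) ∧ ∀ x i, k.lam (s x) i = 0 := by
  choose s hs hs' using fun x : Equiv.Perm (Fin 3) => k.ex x 0 (by simp)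
  refine ⟨{ toFun := s, map_one' := ?_, map_mul' := ?_ }, hs, fun x i => ?_⟩
  · apply k.inj
    · rw [hs, map_one]
    · rw [hs']
      funext i
      rw [ks_one]
      rfl
  · intro x y
    apply k.inj
    · rw [map_mul, hs, hs, hs]
    · funext i
      rw [k.mul, hs', hs', hs']
      simp
  · show k.lam (s x) i = 0
    rw [hs']
    rfl

theorem ks_surj {H : Type} [Group H] (φ : H →* G) (hs : Function.Surjective (k.pi.comp φ)) {σ : H}
    (h1 : k.pi (φ σ) = 1) (h2 : φ σ ≠ 1) : Function.Surjective φ := by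
  have hne : k.lam (φ σ) ≠ 0 := by
    intro h0
    apply h2
    apply k.inj
    · rw [h1, map_one]
    · rw [h0]
      funext i
      rw [ks_one]
      rfl
  have key : ∀ f : Fin 3 → ZMod 2, ∑ i, f i = 0 → ∃ τ : H, k.pi (φ τ) = 1 ∧ k.lam (φ τ) = f := by
    intro f hf
    rcases dc1 _ f hne (k.sum _) hf with rfl | ⟨p, hp⟩
    · refine ⟨1, by rw [map_one, map_one], ?_⟩
      funext i
      rw [map_one, ks_one]
      rfl
    · obtain ⟨τ, hτ⟩ := hs p
      have hτ' : k.pi (φ τ) = p := hτ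
      refine ⟨τ * σ * τ⁻¹, ?_, ?_⟩
      · rw [map_mul, map_mul, map_inv, map_mul, map_mul, map_inv, h1, mul_one, mul_inv_cancel]
      · funext i
        rw [hp, map_mul, map_mul, map_inv, k.mul, k.mul, ks_inv, map_mul, h1, mul_one, hτ',
          perm_inv', add_comm (k.lam (φ τ) i), add_assoc, z2', add_zero]
  intro g
  obtain ⟨τ, hτ⟩ := hs (k.pi g)
  have hτ' : k.pi (φ τ) = k.pi g := hτ
  obtain ⟨τ', h3, h4⟩ := key (k.lam (g * (φ τ)⁻¹)) (k.sum _)
  refine ⟨τ' * τ, ?_⟩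
  have h5 : φ τ' = g * (φ τ)⁻¹ := by
    apply k.inj _ _ _ h4
    rw [h3, map_mul, map_inv, hτ', mul_inv_cancel]
  rw [map_mul, h5, inv_mul_cancel_right]

theorem ks_split {H : Type} [Group H] (φ : H →* G) (J : Subgroup H)
    (hJ : ∀ τ ∈ J, k.pi (φ τ) = 1 → φ τ = 1) {σ : H} (hσ : σ ∈ J) (i : Fin 3)
    (hi : k.pi (φ σ) i = i) : k.lam (φ σ) i = 0 := by
  by_cases hp : k.pi (φ σ) = 1
  · rw [hJ σ hσ hp, ks_one]
  · have h1 := dc2 _ _ hi
    have h2 : φ (σ * σ) = 1 := by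
      apply hJ _ (J.mul_mem hσ hσ)
      rw [map_mul, map_mul, h1]
    apply dc3 _ i _ hp hi _ (k.sum _)
    intro j
    rw [← k.mul, ← map_mul, h2, ks_one]

theorem ks_free {H : Type} [Group H] (φ : H →* G) (hs : Function.Surjective (k.pi.comp φ))
    {δ δ' : G} (hδ : k.pi δ = 1) (hδ' : k.pi δ' = 1)
    (h : ∀ σ, δ * φ σ * δ⁻¹ = δ' * φ σ * δ'⁻¹) : δ = δ' := by
  have hz : k.pi (δ'⁻¹ * δ) = 1 := by rw [map_mul, map_inv, hδ, hδ', inv_one, mul_one]
  have h1 : ∀ σ, (δ'⁻¹ * δ) * φ σ = φ σ * (δ'⁻¹ * δ) := by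
    intro σ
    have h2 := h σ
    have h3 : δ'⁻¹ * (δ * φ σ * δ⁻¹) * δ = δ'⁻¹ * (δ' * φ σ * δ'⁻¹) * δ := by rw [h2]
    simpa [mul_assoc] using h3
  have h4 : k.lam (δ'⁻¹ * δ) = 0 := by
    apply dc4 _ _ (k.sum _)
    intro p i
    obtain ⟨σ, hσ⟩ := hs p
    have hσ' : k.pi (φ σ) = p := hσ
    have h5 := congrArg (fun x => k.lam x i) (h1 σ)
    rw [k.mul, k.mul _ (δ'⁻¹ * δ), hz, inv_one, Equiv.Perm.one_apply, hσ', add_comm] at h5
    exact add_left_cancel h5
  have h6 : δ'⁻¹ * δ = 1 := by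
    apply k.inj
    · rw [hz, map_one]
    · rw [h4]
      funext i
      rw [ks_one]
      rfl
  exact (inv_mul_eq_one.1 h6).symm

theorem ks_card : {δ : G | k.pi δ = 1}.Finite ∧ {δ : G | k.pi δ = 1}.ncard = 4 := by
  have hinj : Set.InjOn k.lam {δ : G | k.pi δ = 1} := by
    intro g hg h hh he
    exact k.inj _ _ (Eq.trans hg (Eq.symm hh)) he
  have him : k.lam '' {δ : G | k.pi δ = 1} =
      ↑(Finset.univ.filter (fun f : Fin 3 → ZMod 2 => ∑ i, f i = 0)) := by
    ext f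
    simp only [Set.mem_image, Set.mem_ofPred_eq, Finset.coe_filter, Finset.mem_univ, true_and]
    constructor
    · rintro ⟨g, -, rfl⟩
      exact k.sum g
    · intro hf
      obtain ⟨g, hg, hg'⟩ := k.ex 1 f hf
      exact ⟨g, hg, hg'⟩
  constructor
  · apply Set.Finite.of_finite_image _ hinj
    rw [him]
    exact Finset.finite_toSet _
  · rw [← hinj.ncard_image, him, Set.ncard_coe_finset]
    convert dc5

end H48.SF
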