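import Pool.Agent.H48.SF.Kx
import Pool.Agent.H38.SE.Defs

/-!
# [H48 SF KDF] definitions of the Kummer part (complete), 0 lines. File Pool/Agent/H48/SF/KDg.lean

* `LW k χ`: the lifts of `χ` of finite type. `SL k χ`: the surjective ones.
* `ClD k χ c cl`: `cl φ ∈ V2 c.F` is the Kummer class of the lift `φ`: its Kummer character on `F.fixingSubgroup` is `σ ↦ lam (φ σ) 0`.
* `Lq k S Q φ φ'`: `φ` and `φ'` are conjugate by an element of `V = ker pi` on every decomposition group at `v ∈ S`.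
* `nty k S Q χ p`: the number of classes modulo `Lq` of the surjective lifts of `χ` with the property `p`.
* `Inv k S Q p`: `p φ` depends only on the restrictions of `φ` to the decomposition groups at `S`, up to conjugation in `G`.
-/

set_option autoImplicit false
set_option linter.dupNamespace false

open scoped NumberField Classical Pointwise
open IsDedekindDomain H38.ML H63.MA

noncomputable section

namespace H48.SF

open H48.KV H67.SX H38.SE
open H48.T3 hiding Ch Fib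

variable {K : IntermediateField ℚ QBar} [NumberField K] {G : Type} [Group G]

/-- the lifts of finite type -/
def LW (k : KS G) (χ : Gal(QBar/K) →* Equiv.Perm (Fin 3)) : Set (Gal(QBar/K) →* G) :=
  {φ | FT φ ∧ k.pi.comp φ = χ}

/-- the surjective lifts of finite type -/
def SL (k : KS G) (χ : Gal(QBar/K) →* Equiv.Perm (Fin 3)) : Set (Gal(QBar/K) →* G) :=
  {φ | FT φ ∧ Function.Surjective φ ∧ k.pi.comp φ = χ}

/-- `cl φ` is the Kummer class of the lift `φ` -/
structure ClD (k : KS G) (χ : Gal(QBar/K) →* Equiv.Perm (Fin 3)) (c : Cu K)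
    (cl : (Gal(QBar/K) →* G) → V2 c.F) : Prop where
  kc : ∀ φ ∈ LW k χ, ∀ a : c.Fˣ, v2 a = cl φ ↔
    ∀ σ ∈ c.F.fixingSubgroup, kx c a σ = k.lam (φ σ) 0
  va : ∀ φ ∈ LW k χ, cl φ ∈ VA c
  eq : ∀ φ ∈ LW k χ, ∀ φ' ∈ LW k χ,
    cl φ = cl φ' ↔ ∃ δ, k.pi δ = 1 ∧ φ = (MulAut.conj δ).toMonoidHom.comp φ'
  sj : ∀ x ∈ VA c, ∃ φ ∈ LW k χ, cl φ = x
  su : ∀ φ ∈ LW k χ, Function.Surjective φ ↔ cl φ ≠ 0

/-- conjugate by an element of `V` on every decomposition group at `v ∈ S` -/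
def Lq (k : KS G) (S : Finset (Pl K)) (Q : DP K QBar) (φ φ' : Gal(QBar/K) →* G) : Prop :=
  ∀ v ∈ S, ∃ δ, k.pi δ = 1 ∧ ∀ σ ∈ dec (K := K) (Q.P v), φ σ = δ * φ' σ * δ⁻¹

/-- the number of classes modulo `Lq` of the surjective lifts with the property `p` -/
def nty (k : KS G) (S : Finset (Pl K)) (Q : DP K QBar)
    (χ : Gal(QBar/K) →* Equiv.Perm (Fin 3)) (p : (Gal(QBar/K) →* G) → Prop) : ℕ :=
  Nat.card (Quot fun φ φ' : {φ : Gal(QBar/K) →* G // φ ∈ SL k χ ∧ p φ} => Lq k S Q φ.1 φ'.1)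

/-- `p φ` depends only on the restrictions to the decomposition groups, up to conjugation in `G` -/
def Inv (S : Finset (Pl K)) (Q : DP K QBar) (p : (Gal(QBar/K) →* G) → Prop) : Prop :=
  ∀ φ φ' : Gal(QBar/K) →* G, FT φ → Function.Surjective φ → FT φ' → Function.Surjective φ' →
    (∀ v ∈ S, ∃ δ : G, ∀ σ ∈ dec (K := K) (Q.P v), φ σ = δ * φ' σ * δ⁻¹) → (p φ ↔ p φ')

end H48.SF
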