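import Pool.Agent.H48.SF.SDf

/-!
# [H48 SF ORB] coboundaries, pure group theory, 70-110 lines. File Pool/Agent/H48/SF/Orb.lean

`D` acts on `Fin 3` through `χ`; `e` is a cocycle on `D` (function values) which vanishes at the fixed points. For every orbit of `D` on `Fin 3` choose a base point: `b : Fin 3 → Fin 3` with `b i` in the orbit of `i` and `b i = b j` if `i, j` are in the same orbit (`Quotient.out` of `MulAction.orbitRel` of `D.map χ` or by hand), and `d i ∈ D` with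
`χ (d i) (b i) = i`. Put `δ₀ i = e (d i) i`. For `σ ∈ D`, `j = (χ σ)⁻¹ i`: `b i = b j`, and `ρ = (d i)⁻¹ σ (d j) ∈ D` fixes `b i`. `σ (d j) = (d i) ρ`, so `e (σ d_j) i = e σ i + e (d_j) j` and `e (d_i ρ) i = e (d_i) i + e ρ (b i) = e (d_i) i` (`h0`). So `e σ i = δ₀ i + δ₀ j` (characteristic 2).
`δ i = δ₀ i + ∑ δ₀`: the same property, and the sum is `4 ∑ δ₀ = 0`.
-/

set_option autoImplicit false
set_option linter.dupNamespace false

open scoped NumberField Classical Pointwise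
open IsDedekindDomain H38.ML H63.MA

noncomputable section

namespace H48.SF

open H48.KV H67.SX H38.SE
open H48.T3 hiding Ch Fib

theorem ks_orb {H : Type} [Group H] (χ : H →* Equiv.Perm (Fin 3)) (D : Subgroup H)
    (e : H → Fin 3 → ZMod 2)
    (he : ∀ σ ∈ D, ∀ τ ∈ D, ∀ i, e (σ * τ) i = e σ i + e τ ((χ σ)⁻¹ i))
    (h0 : ∀ σ ∈ D, ∀ i, χ σ i = i → e σ i = 0) :
    ∃ δ : Fin 3 → ZMod 2, ∑ i, δ i = 0 ∧ ∀ σ ∈ D, ∀ i, e σ i = δ i + δ ((χ σ)⁻¹ i) := by
  let st : Setoid (Fin 3) :=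
    { r := fun i j => ∃ σ ∈ D, χ σ j = i
      iseqv := ⟨fun i => ⟨1, D.one_mem, by rw [map_one, Equiv.Perm.one_apply]⟩,
        fun {i j} h => by
          obtain ⟨σ, hσ, h1⟩ := h
          refine ⟨σ⁻¹, D.inv_mem hσ, ?_⟩
          rw [map_inv, Equiv.Perm.inv_eq_iff_eq]
          exact h1.symm,
        fun {i j k} h h' => by
          obtain ⟨σ, hσ, h1⟩ := h
          obtain ⟨τ, hτ, h2⟩ := h'
          refine ⟨σ * τ, D.mul_mem hσ hτ, ?_⟩
          rw [map_mul, Equiv.Perm.mul_apply, h2, h1]⟩ }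
  let b : Fin 3 → Fin 3 := fun i => (Quotient.mk st i).out
  have hb : ∀ i, ∃ σ ∈ D, χ σ (b i) = i := by
    intro i
    have h1 : Quotient.mk st i = Quotient.mk st (b i) := (Quotient.out_eq _).symm
    exact Quotient.exact h1
  have hbb : ∀ σ ∈ D, ∀ j, b (χ σ j) = b j := by
    intro σ hσ j
    have h1 : Quotient.mk st (χ σ j) = Quotient.mk st j := Quotient.sound ⟨σ, hσ, rfl⟩
    show (Quotient.mk st (χ σ j)).out = (Quotient.mk st j).out
    rw [h1]
  choose d hd hdb using hb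
  have h2 : (2 : ZMod 2) = 0 := rfl
  have key : ∀ σ ∈ D, ∀ i, e σ i = e (d i) i + e (d ((χ σ)⁻¹ i)) ((χ σ)⁻¹ i) := by
    intro σ hσ i
    set j := (χ σ)⁻¹ i with hj
    have hij : χ σ j = i := by rw [hj, ← Equiv.Perm.mul_apply, mul_inv_cancel, Equiv.Perm.one_apply]
    have hbi : b i = b j := by rw [← hij]; exact hbb σ hσ j
    have h3 : e (σ * d j) i = e σ i + e (d j) j := he σ hσ (d j) (hd j) i
    have h4 : e (d i * ((d i)⁻¹ * σ * d j)) i =
        e (d i) i + e ((d i)⁻¹ * σ * d j) ((χ (d i))⁻¹ i) :=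
      he (d i) (hd i) _ (D.mul_mem (D.mul_mem (D.inv_mem (hd i)) hσ) (hd j)) i
    have h5 : (χ (d i))⁻¹ i = b i := by
      rw [Equiv.Perm.inv_eq_iff_eq]
      exact (hdb i).symm
    have h6 : e ((d i)⁻¹ * σ * d j) (b i) = 0 := by
      refine h0 _ (D.mul_mem (D.mul_mem (D.inv_mem (hd i)) hσ) (hd j)) _ ?_
      rw [map_mul, map_mul, map_inv, Equiv.Perm.mul_apply, Equiv.Perm.mul_apply, hbi, hdb j, hij,
        h5, hbi]
    have h7 : d i * ((d i)⁻¹ * σ * d j) = σ * d j := by group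
    rw [h7, h3, h5, h6, add_zero] at h4
    linear_combination h4 - e (d j) j * h2
  refine ⟨fun i => e (d i) i + ∑ k, e (d k) k, ?_, fun σ hσ i => ?_⟩
  · rw [Finset.sum_add_distrib, Finset.sum_const, Finset.card_univ, Fintype.card_fin,
      nsmul_eq_mul]
    push_cast
    linear_combination (2 * ∑ k, e (d k) k) * h2
  · rw [key σ hσ i]
    linear_combination -(∑ k, e (d k) k) * h2

end H48.SF
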