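import Pool.Agent.H48.SF.Kfn
import Pool.Agent.H48.SF.KDg
import Pool.Agent.H48.SF.Grp
import Pool.Agent.H48.SF.Orb

/-!
# [H48 SF CLA] the Kummer class of a lift, 120-170 lines. File Pool/Agent/H48/SF/ClA.lean

`φ` a lift of `χ`: `f σ i = lam (φ σ) i` is a cocycle: `f (σ τ) i = f σ i + f τ ((χ σ)⁻¹ i)` (`k.mul`).
* `ca_hom`: on `F.fixingSubgroup` (`χ σ 0 = 0`) `f (σ τ) 0 = f σ 0 + f τ 0`.
* `ca_kf`: if `kx c a σ = f σ 0` for all `σ ∈ F.fixingSubgroup` then with `δ i = f (t i) i`: `kf a σ i = f ((t i)⁻¹ σ t j) 0`, `j = (χ σ)⁻¹ i`. `t i * ((t i)⁻¹ σ t j) = σ * t j`: `f (t i) i + f (..) ((χ (t i))⁻¹ i = 0) = f σ i + f (t j) j`. So `f σ i = kf a σ i + δ i + δ j`.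
* `ca_ex`: `kx_all` for `κ σ = lam (φ σ) 0` (`FT φ`: `φ σ = 1` for `σ ∈ E.fixingSubgroup`, `ks_one`).
* `ca_va`: `∑ f σ i = 0` (`k.sum`) and `∑_i (δ i + δ ((χ σ)⁻¹ i)) = 0` (the sum over `i` of `δ ((χ σ)⁻¹ i)` is `∑ δ`: `Equiv.sum_comp`), so `∑ kf = 0`, `kf_sq`.
* `ca_eq`: (→) if both have the class of `a`: `f σ i + f' σ i = ε i + ε j` with `ε = δ + δ'` (`ca_kf` twice). Replace `ε` by `ε + ∑ ε` (sum zero, `3 = 1` in `ZMod 2`); let `d : G` with `pi d = 1`, `lam d = ε` (`k.ex`). `ks_conj`: `lam (d φ'σ d⁻¹) i = f' σ i + (ε i + ε j) = f σ i`; `k.inj`. (←) `ks_conj` at `i = 0`, `σ ∈ F.fixingSubgroup`: `(χ σ)⁻¹ 0 = 0`.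
* `ca_sj`: `a` with `N a` a square: `∑ kf a σ = 0` (`kf_sq`); `φ σ` = the element with `pi = χ σ`, `lam = kf a σ` (`k.ex`; unique by `k.inj`); a homomorphism by `k.mul`, `kf_coc`, `k.inj`; finite type: let `E` be a finite Galois extension of `K` which contains `F`, a square root `B` of `a`, on whose fixing subgroup `χ = 1` (then `(t i)⁻¹ σ t i` fixes `E` and `B`, so `kx = 0` by `kx_root`, `2 ≠ 0`;
  `χ σ = 1`). `kf_zero`: the class.
* `ca_su`: the class of `a`: surjective iff `a` is not a square. If `φ` is surjective and `a` is a square: by `ca_eq` (with the lift `s ∘ χ`, `ks_sec`, whose class is that of `1`) `φ = d (s ∘ χ) d⁻¹`; not surjective: if `φ σ = x` with `pi x = 1`, `x ≠ 1` then `χ σ = 1`, `φ σ = 1`. If `φ` is not surjective then by `ks_surj` there is no `σ` with `pi (φ σ) = 1`, `φ σ ≠ 1`, and `ks_split`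
  with `J = ⊤` gives `lam (φ σ) 0 = 0` for `σ ∈ F.fixingSubgroup`, so `kx c a = 0`, `kx_zero`.
-/

set_option autoImplicit false
set_option linter.dupNamespace false

open scoped NumberField Classical Pointwise
open IsDedekindDomain H38.ML H63.MA

noncomputable section

namespace H48.SF

open H48.KV H67.SX H38.SE
open H48.T3 hiding Ch Fib

variable {K : IntermediateField ℚ QBar} [NumberField K] {G : Type} [Group G] {k : KS G}
  {χ : Gal(QBar/K) →* Equiv.Perm (Fin 3)} {c : Cu K} {t : Fin 3 → Gal(QBar/K)}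

private theorem ca_two : (2 : ZMod 2) = 0 := rfl

omit [NumberField K] in
private theorem ca_pi {φ : Gal(QBar/K) →* G} (hφ : k.pi.comp φ = χ) (σ : Gal(QBar/K)) :
    k.pi (φ σ) = χ σ := by
  rw [← hφ]
  rfl

private theorem ca_fix (H : Std χ c t) {σ : Gal(QBar/K)} (hσ : σ ∈ c.F.fixingSubgroup) :
    (χ σ)⁻¹ 0 = 0 := by
  rw [Equiv.Perm.inv_eq_iff_eq]
  exact ((H.fix σ).1 hσ).symm

theorem ca_kf (H : Std χ c t) (φ : Gal(QBar/K) →* G) (hφ : k.pi.comp φ = χ) (a : c.Fˣ)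
    (ha : ∀ σ ∈ c.F.fixingSubgroup, kx c a σ = k.lam (φ σ) 0) (σ : Gal(QBar/K)) (i : Fin 3) :
    k.lam (φ σ) i = kf c χ t a σ i + (k.lam (φ (t i)) i +
      k.lam (φ (t ((χ σ)⁻¹ i))) ((χ σ)⁻¹ i)) := by
  have h1 : kf c χ t a σ i = k.lam (φ ((t i)⁻¹ * σ * t ((χ σ)⁻¹ i))) 0 := ha _ (kf_mem H σ i)
  have h2 : φ (t i) * φ ((t i)⁻¹ * σ * t ((χ σ)⁻¹ i)) = φ σ * φ (t ((χ σ)⁻¹ i)) := by
    rw [← map_mul, ← map_mul]
    congr 1
    group
  have h3 := k.mul (φ (t i)) (φ ((t i)⁻¹ * σ * t ((χ σ)⁻¹ i))) i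
  have h4 := k.mul (φ σ) (φ (t ((χ σ)⁻¹ i))) i
  have h5 : (χ (t i))⁻¹ i = 0 := by
    rw [Equiv.Perm.inv_eq_iff_eq]
    exact (H.ti i).symm
  rw [ca_pi hφ, h5, ← h1] at h3
  rw [ca_pi hφ] at h4
  rw [h2, h4] at h3
  linear_combination h3 - k.lam (φ (t ((χ σ)⁻¹ i))) ((χ σ)⁻¹ i) * ca_two

private theorem ca_sum (σ : Gal(QBar/K)) (δ : Fin 3 → ZMod 2) :
    ∑ i, (δ i + δ ((χ σ)⁻¹ i)) = 0 := by
  rw [Finset.sum_add_distrib, Equiv.sum_comp ((χ σ)⁻¹) δ]
  exact CharTwo.add_self_eq_zero _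

theorem ca_ex (H : Std χ c t) (φ : Gal(QBar/K) →* G) (hφ : φ ∈ LW k χ) :
    ∃ a : c.Fˣ, IsSquare (Algebra.norm K (a : c.F)) ∧
      ∀ σ ∈ c.F.fixingSubgroup, kx c a σ = k.lam (φ σ) 0 := by
  obtain ⟨hft, hpi⟩ := hφ
  obtain ⟨a, ha⟩ := kx_all c (fun σ => k.lam (φ σ) 0) (fun σ hσ τ _ => by
    show k.lam (φ (σ * τ)) 0 = k.lam (φ σ) 0 + k.lam (φ τ) 0
    rw [map_mul, k.mul, ca_pi hpi, ca_fix H hσ]) (by
    obtain ⟨E, hE, hker⟩ := hft
    refine ⟨E, hE, fun σ hσ _ => ?_⟩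
    have h1 : φ σ = 1 := hker hσ
    show k.lam (φ σ) 0 = 0
    rw [h1, ks_one])
  refine ⟨a, (kf_sq H a).2 fun σ => ?_, ha⟩
  have h1 : ∑ i, k.lam (φ σ) i = ∑ i, (kf c χ t a σ i + (k.lam (φ (t i)) i +
      k.lam (φ (t ((χ σ)⁻¹ i))) ((χ σ)⁻¹ i))) :=
    Finset.sum_congr rfl fun i _ => ca_kf H φ hpi a ha σ i
  rw [k.sum, Finset.sum_add_distrib, ca_sum σ (fun i => k.lam (φ (t i)) i), add_zero] at h1
  exact h1.symm

theorem ca_eq (H : Std χ c t) (φ φ' : Gal(QBar/K) →* G) (hφ : φ ∈ LW k χ) (hφ' : φ' ∈ LW k χ) :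
    (∀ σ ∈ c.F.fixingSubgroup, k.lam (φ σ) 0 = k.lam (φ' σ) 0) ↔
      ∃ δ, k.pi δ = 1 ∧ φ = (MulAut.conj δ).toMonoidHom.comp φ' := by
  constructor
  · intro h
    obtain ⟨a, -, ha⟩ := ca_ex H φ' hφ'
    have ha' : ∀ σ ∈ c.F.fixingSubgroup, kx c a σ = k.lam (φ σ) 0 := fun σ hσ => by
      rw [ha σ hσ, h σ hσ]
    have e1 := ca_kf H φ hφ.2 a ha'
    have e2 := ca_kf H φ' hφ'.2 a ha
    set ε : Fin 3 → ZMod 2 := fun i => k.lam (φ (t i)) i + k.lam (φ' (t i)) i with hε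
    have hsum : ∑ i, (ε i + ∑ j, ε j) = 0 := by
      rw [Finset.sum_add_distrib, Finset.sum_const, Finset.card_univ, Fintype.card_fin,
        nsmul_eq_mul]
      have h4 : ((3 : ℕ) : ZMod 2) = 1 := rfl
      rw [h4, one_mul]
      exact CharTwo.add_self_eq_zero _
    obtain ⟨d, hd1, hd2⟩ := k.ex 1 (fun i => ε i + ∑ j, ε j) hsum
    refine ⟨d, hd1, MonoidHom.ext fun σ => ?_⟩
    show φ σ = d * φ' σ * d⁻¹
    apply k.inj
    · rw [map_mul, map_mul, map_inv, hd1, one_mul, inv_one, mul_one, ca_pi hφ.2, ca_pi hφ'.2]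
    · funext i
      rw [ks_conj k hd1, hd2, ca_pi hφ'.2, e1 σ i, e2 σ i]
      simp only [hε]
      linear_combination (-(∑ j, (k.lam (φ (t j)) j + k.lam (φ' (t j)) j)) -
        k.lam (φ' (t i)) i - k.lam (φ' (t ((χ σ)⁻¹ i))) ((χ σ)⁻¹ i)) * ca_two
  · rintro ⟨δ, hδ, rfl⟩ σ hσ
    show k.lam (δ * φ' σ * δ⁻¹) 0 = k.lam (φ' σ) 0
    rw [ks_conj k hδ, ca_pi hφ'.2, ca_fix H hσ]
    linear_combination k.lam δ 0 * ca_two

theorem ca_sj (H : Std χ c t) (a : c.Fˣ) (ha : IsSquare (Algebra.norm K (a : c.F))) :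
    ∃ φ ∈ LW k χ, ∀ σ ∈ c.F.fixingSubgroup, kx c a σ = k.lam (φ σ) 0 := by
  have hs := (kf_sq H a).1 ha
  choose f hf1 hf2 using fun σ : Gal(QBar/K) => k.ex (χ σ) (kf c χ t a σ) (hs σ)
  let φ : Gal(QBar/K) →* G := MonoidHom.mk' f (fun σ τ => by
    apply k.inj
    · rw [map_mul, hf1, hf1, hf1, map_mul]
    · funext i
      rw [k.mul, hf1, hf2, hf2, hf2, kf_coc H])
  have hφ : ∀ σ, φ σ = f σ := fun _ => rfl
  refine ⟨φ, ⟨?_, ?_⟩, ?_⟩
  · obtain ⟨E, hE, hker⟩ := H.ft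
    obtain ⟨B, hB⟩ := IsAlgClosed.exists_pow_nat_eq ((a : c.F) : QBar) (show 0 < 2 by norm_num)
    have hBi : IsIntegral K B := Algebra.IsIntegral.isIntegral B
    have hfd : FiniteDimensional K (IntermediateField.adjoin K {B}) :=
      IntermediateField.adjoin.finiteDimensional hBi
    let E₁ : IntermediateField K QBar := E ⊔ IntermediateField.adjoin K {B}
    have hfd1 : FiniteDimensional K E₁ := IntermediateField.finiteDimensional_sup E _
    have hnor : Normal K QBar := inferInstance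
    let M : IntermediateField K QBar := IntermediateField.normalClosure K E₁ QBar
    have hM1 : E₁ ≤ M := IntermediateField.le_normalClosure E₁
    have hMfd : FiniteDimensional K M := inferInstance
    have hMn : Normal K M := inferInstance
    refine ⟨M, hMfd, fun σ hσ => ?_⟩
    have hχ : χ σ = 1 := hker (IntermediateField.fixingSubgroup_antitone
      (le_sup_left.trans hM1) hσ)
    have hk : ∀ i, kf c χ t a σ i = 0 := by
      intro i
      have h1 := kf_mem H σ i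
      have h2 : (χ σ)⁻¹ i = i := by
        rw [hχ]
        rfl
      rw [h2] at h1
      unfold kf
      rw [h2]
      have h3 := kx_root c a B hB h1
      have hBM : B ∈ M := hM1 (le_sup_right (a := E) (IntermediateField.mem_adjoin_simple_self K B))
      have hBt : t i B ∈ M := by
        have h4 := IntermediateField.normal_iff_forall_map_le.1 hMn (t i).toAlgHom
        exact h4 ⟨B, hBM, rfl⟩
      have h5 : ((t i)⁻¹ * σ * t i) B = B := by
        have h6 : σ (t i B) = t i B := (IntermediateField.mem_fixingSubgroup_iff M σ).1 hσ _ hBt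
        rw [AlgEquiv.mul_apply, AlgEquiv.mul_apply, h6]
        exact (t i).symm_apply_apply B
      rw [h5] at h3
      have hB0 : B ≠ 0 := by
        rintro rfl
        rw [zero_pow (by norm_num)] at hB
        have h7 : ((a : c.F) : QBar) ≠ 0 := by
          intro h8
          exact a.ne_zero (Subtype.ext h8)
        exact h7 hB.symm
      have h9 : ∀ z : ZMod 2, z = 0 ∨ z = 1 := by decide
      rcases h9 (kx c a ((t i)⁻¹ * σ * t i)) with h10 | h10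
      · exact h10
      · exfalso
        rw [h10] at h3
        have h11 : (1 : ZMod 2).val = 1 := rfl
        rw [h11, pow_one] at h3
        have h12 : (2 : QBar) * B = 0 := by linear_combination h3
        rcases mul_eq_zero.1 h12 with h13 | h13
        · exact two_ne_zero h13
        · exact hB0 h13
    show φ σ = 1
    rw [hφ]
    apply k.inj
    · rw [hf1, hχ, map_one]
    · funext i
      rw [hf2, hk i, ks_one]
  · refine MonoidHom.ext fun σ => ?_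
    show k.pi (f σ) = χ σ
    exact hf1 σ
  · intro σ hσ
    rw [hφ, hf2, kf_zero H a σ hσ]

theorem ca_su (H : Std χ c t) (φ : Gal(QBar/K) →* G) (hφ : φ ∈ LW k χ) (a : c.Fˣ)
    (ha : ∀ σ ∈ c.F.fixingSubgroup, kx c a σ = k.lam (φ σ) 0) :
    Function.Surjective φ ↔ ¬ ∃ b : c.Fˣ, a = b ^ 2 := by
  constructor
  · rintro hsur ⟨b, rfl⟩
    obtain ⟨s, hs1, hs2⟩ := ks_sec k
    have hφ₀ : s.comp χ ∈ LW k χ := by
      refine ⟨?_, MonoidHom.ext fun σ => hs1 (χ σ)⟩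
      obtain ⟨E, hE, hker⟩ := H.ft
      refine ⟨E, hE, fun σ hσ => ?_⟩
      have h1 : χ σ = 1 := hker hσ
      show s (χ σ) = 1
      rw [h1, map_one]
    obtain ⟨δ, hδ, hδ2⟩ := (ca_eq H φ (s.comp χ) hφ hφ₀).1 (fun σ hσ => by
      rw [← ha σ hσ, kx_sq]
      exact (hs2 (χ σ) 0).symm)
    obtain ⟨x, hx1, hx2⟩ := k.ex 1 ![1, 1, 0] (by decide)
    obtain ⟨σ, hσ⟩ := hsur x
    have h1 : χ σ = 1 := by
      rw [← ca_pi hφ.2 σ, hσ, hx1]
    have h2 : φ σ = 1 := by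
      rw [hδ2]
      show δ * s (χ σ) * δ⁻¹ = 1
      rw [h1, map_one, mul_one, mul_inv_cancel]
    rw [← hσ, h2] at hx2
    have h3 := congrFun hx2 0
    rw [ks_one] at h3
    exact absurd h3 (by decide)
  · intro hns
    by_contra hn
    apply hns
    rw [← kx_zero]
    intro σ hσ
    rw [ha σ hσ]
    have hsj : Function.Surjective (k.pi.comp φ) := by
      rw [hφ.2]
      exact H.sj
    refine ks_split k φ ⊤ (fun τ _ h1 => ?_) (Subgroup.mem_top σ) 0 ?_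
    · by_contra h2
      exact hn (ks_surj k φ hsj h1 h2)
    · rw [ca_pi hφ.2]
      exact (H.fix σ).1 hσ

end H48.SF
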