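import Pool.Agent.H48.SF.ClA
import Pool.Agent.H48.T3.AxA

/-!
# [H48 SF CLL] the class and the decomposition groups, 90-130 lines. File Pool/Agent/H48/SF/ClL.lean

`cl_loc`: choose `a, a'` with `v2 a = cl φ`, `v2 a' = cl φ'` (`v2_surj`), `kx a σ = lam (φ σ) 0` (`hcl.kc`), `f σ i = lam (φ σ) i`, `f'` for `φ'`; `cl φ - cl φ' = v2 (a a')` (`v2_two`), so `∈ VL` means `LTr c S (a * a')` (`mem_VL`).
General fact (G): for `g : Gal(QBar/K)`, `σ' : Gal(QBar/K)`, `i₀ = (χ g)⁻¹ 0`, `χ σ' i₀ = i₀`: `σ = g σ' g⁻¹ ∈ F.fixingSubgroup` and `f σ 0 = f σ' i₀` (cocycle: `f (g σ') 0 = f g 0 + f σ' i₀`, `f (σ g) 0 = f σ 0 + f g ((χ σ)⁻¹ 0) = f σ 0 + f g 0`). The same for `f'`.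
* (→) Let `v ∈ S`, `D = dec (Q.P v)`, `e σ i = f σ i + f' σ i`: a cocycle. If `σ' ∈ D`, `χ σ' i = i`: take `g = (t i)⁻¹`, `(χ g)⁻¹ 0 = i`; `σ = g σ' g⁻¹` is in the decomposition group of `g • Q.P v` (`ax_dec`, AxA.lean of T3), a prime over `v`, and fixes `F`: `LTr` gives `kx (a a') σ = 0` (`kx_kk`, `kx_ex`), so `e σ' i = 0` by (G). `ks_orb`: `e σ i = δ i + δ ((χ σ)⁻¹ i)` on `D`,
  `∑ δ = 0`; `d : G` with `pi d = 1`, `lam d = δ` (`k.ex`), `φ σ = d φ'σ d⁻¹` by `ks_conj`, `k.inj`.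
* (←) let `𝔓` lie over `v ∈ S`; `𝔓 = g • Q.P v` (transitivity: the private `axa_trans` in AxA.lean of T3, copy it). `σ ∈ F.fixingSubgroup` in the decomposition group of `𝔓`, `σ' = g⁻¹ σ g ∈ dec (Q.P v)`, `i₀ = (χ g)⁻¹ 0`, `χ σ' i₀ = i₀`. `φ σ' = δ φ'σ' δ⁻¹`: `ks_conj` at `i₀`: `f σ' i₀ = f' σ' i₀`, so by (G) `kx a σ = kx a' σ`, `kx (a a') σ = 0`.
-/

set_option autoImplicit false
set_option linter.dupNamespace false

open scoped NumberField Classical Pointwise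
open IsDedekindDomain H38.ML H63.MA

noncomputable section

namespace H48.SF

open H48.KV H67.SX H38.SE
open H48.T3 hiding Ch Fib

variable {K : IntermediateField ℚ QBar} [NumberField K] {G : Type} [Group G] {k : KS G}
  {χ : Gal(QBar/K) →* Equiv.Perm (Fin 3)} {c : Cu K} {t : Fin 3 → Gal(QBar/K)}

private theorem sf_trans {K : Type} [Field K] [NumberField K] {Ω : Type} [Field Ω] [Algebra K Ω]
    [IsAlgClosure K Ω] (P P' : Ideal (𝓞 Ω)) (hP : P.IsPrime) (hP' : P'.IsPrime)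
    (h : P.under (𝓞 K) = P'.under (𝓞 K)) : ∃ g : Gal(Ω/K), P' = g • P := by
  have : IsGalois K Ω := IsAlgClosure.isGalois K Ω
  let _ : TopologicalSpace (𝓞 Ω) := ⊥
  have : DiscreteTopology (𝓞 Ω) := ⟨rfl⟩
  have : ContinuousSMul Gal(Ω/K) (𝓞 Ω) := by
    rw [continuousSMul_iff_stabilizer_isOpen]
    intro x
    have h1 := stabilizer_isOpen_of_isIntegral (K := K) (L := Ω) (x : Ω)
    have h2 : (MulAction.stabilizer Gal(Ω/K) x : Set Gal(Ω/K)) =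
        (MulAction.stabilizer Gal(Ω/K) (x : Ω) : Set Gal(Ω/K)) := by
      ext g
      simp only [SetLike.mem_coe, MulAction.mem_stabilizer_iff]
      constructor
      · intro hg
        exact congrArg (fun z : 𝓞 Ω => (z : Ω)) hg
      · intro hg
        exact NumberField.RingOfIntegers.ext hg
    rw [h2]
    exact h1
  have : Algebra.IsInvariant (𝓞 K) (𝓞 Ω) Gal(Ω/K) := ⟨fun b hb => by
    have h1 : (b : Ω) ∈ (⊥ : IntermediateField K Ω) := by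
      rw [← InfiniteGalois.fixedField_bot (k := K) (K := Ω), IntermediateField.mem_fixedField_iff]
      intro g _
      exact congrArg (fun z : 𝓞 Ω => (z : Ω)) (hb g)
    obtain ⟨a, ha⟩ := IntermediateField.mem_bot.1 h1
    have h2 : IsIntegral ℤ a := by
      have h3 : IsIntegral ℤ (algebraMap K Ω a) := by
        rw [ha]
        exact b.2
      exact (isIntegral_algebraMap_iff (algebraMap K Ω).injective).1 h3
    refine ⟨⟨a, h2⟩, NumberField.RingOfIntegers.ext ?_⟩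
    exact ha⟩
  exact Algebra.IsInvariant.exists_smul_of_under_eq_of_profinite (A := 𝓞 K) (G := Gal(Ω/K)) P P' h

private theorem sf_pi {φ : Gal(QBar/K) →* G} (hφ : k.pi.comp φ = χ) (σ : Gal(QBar/K)) :
    k.pi (φ σ) = χ σ := by
  rw [← hφ]
  rfl

private theorem sf_coc {φ : Gal(QBar/K) →* G} (hφ : k.pi.comp φ = χ) (σ τ : Gal(QBar/K)) (i : Fin 3) :
    k.lam (φ (σ * τ)) i = k.lam (φ σ) i + k.lam (φ τ) ((χ σ)⁻¹ i) := by
  rw [map_mul, k.mul, sf_pi hφ]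

theorem cl_cj (H : Std χ c t) (φ : Gal(QBar/K) →* G) (hφ : k.pi.comp φ = χ)
    (g σ' : Gal(QBar/K)) (h : χ σ' ((χ g)⁻¹ 0) = (χ g)⁻¹ 0) :
    g * σ' * g⁻¹ ∈ c.F.fixingSubgroup ∧
      k.lam (φ (g * σ' * g⁻¹)) 0 = k.lam (φ σ') ((χ g)⁻¹ 0) := by
  have h0 : χ (g * σ' * g⁻¹) 0 = 0 := by
    rw [map_mul, map_mul, map_inv, Equiv.Perm.mul_apply, Equiv.Perm.mul_apply, h]
    exact (χ g).apply_symm_apply 0
  refine ⟨(H.fix _).2 h0, ?_⟩
  have h1 : (χ (g * σ' * g⁻¹))⁻¹ 0 = 0 := by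
    rw [Equiv.Perm.inv_eq_iff_eq]
    exact h0.symm
  have h2 := sf_coc hφ g σ' 0
  have h3 := sf_coc hφ (g * σ' * g⁻¹) g 0
  have h4 : g * σ' * g⁻¹ * g = g * σ' := by group
  rw [h4, h1, h2, add_comm] at h3
  exact (add_right_cancel h3).symm

theorem cl_loc (H : Std χ c t) {cl : (Gal(QBar/K) →* G) → V2 c.F} (hcl : ClD k χ c cl)
    (S : Finset (Pl K)) (Q : DP K QBar) (φ φ' : Gal(QBar/K) →* G) (hφ : φ ∈ LW k χ)
    (hφ' : φ' ∈ LW k χ) : cl φ - cl φ' ∈ VL c S ↔ Lq k S Q φ φ' := by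
  obtain ⟨a, ha⟩ := v2_surj (cl φ)
  obtain ⟨a', ha'⟩ := v2_surj (cl φ')
  have hKa := (hcl.kc φ hφ a).1 ha
  have hKa' := (hcl.kc φ' hφ' a').1 ha'
  have hneg : - cl φ' = cl φ' := by
    rw [neg_eq_iff_add_eq_zero, ← two_nsmul]
    exact v2_two _
  rw [sub_eq_add_neg, hneg, ← ha, ← ha', ← v2_mul, mem_VL]
  have hkx : ∀ σ ∈ c.F.fixingSubgroup, kx c (a * a') σ = k.lam (φ σ) 0 + k.lam (φ' σ) 0 := by
    intro σ hσ
    rw [kx_arg, hKa σ hσ, hKa' σ hσ]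
  constructor
  · intro hL v hv
    have hQp := Q.prime v
    obtain ⟨δ, hδ, hd⟩ := ks_orb χ (dec (K := K) (Q.P v))
      (fun σ i => k.lam (φ σ) i + k.lam (φ' σ) i) (by
        intro σ _ τ _ i
        show k.lam (φ (σ * τ)) i + k.lam (φ' (σ * τ)) i = _
        rw [sf_coc hφ.2, sf_coc hφ'.2]
        ring) (by
        intro σ' hσ' i hi
        have hg : (χ (t i)⁻¹)⁻¹ 0 = i := by
          rw [map_inv, inv_inv, H.ti]
        have h1 := cl_cj H φ hφ.2 (t i)⁻¹ σ' (by rw [hg]; exact hi)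
        have h2 := cl_cj H φ' hφ'.2 (t i)⁻¹ σ' (by rw [hg]; exact hi)
        rw [hg] at h1 h2
        obtain ⟨h3, h4⟩ := h1
        have h5 := h2.2
        show k.lam (φ σ') i + k.lam (φ' σ') i = 0
        rw [← h4, ← h5, ← hkx _ h3]
        obtain ⟨τ, hτ⟩ := kx_ex c _ h3
        rw [← hτ, kx_kk]
        refine hL ((t i)⁻¹ • Q.P v) inferInstance ⟨v, hv, ?_⟩ τ ?_
        · rw [Ideal.under_smul]
          exact Q.under v
        · have h6 : (τ.restrictScalars K : Gal(QBar/K)) ∈ dec (K := K) ((t i)⁻¹ • Q.P v) := by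
            rw [ax_dec, hτ]
            have h7 : ((t i)⁻¹)⁻¹ * ((t i)⁻¹ * σ' * ((t i)⁻¹)⁻¹) * (t i)⁻¹ = σ' := by group
            rw [h7]
            exact hσ'
          exact h6)
    obtain ⟨d, hd1, hd2⟩ := k.ex 1 δ hδ
    refine ⟨d, hd1, fun σ hσ => ?_⟩
    apply k.inj
    · rw [map_mul, map_mul, map_inv, hd1, one_mul, inv_one, mul_one, sf_pi hφ.2, sf_pi hφ'.2]
    · funext i
      rw [ks_conj k hd1, hd2, sf_pi hφ'.2, ← hd σ hσ i]
      show k.lam (φ σ) i = k.lam (φ' σ) i + (k.lam (φ σ) i + k.lam (φ' σ) i)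
      rw [add_comm (k.lam (φ σ) i), ← add_assoc, CharTwo.add_self_eq_zero, zero_add]
  · rintro hL 𝔓 h𝔓 ⟨v, hv, h𝔓v⟩ τ hτ
    obtain ⟨g, rfl⟩ := sf_trans (K := K) (Q.P v) 𝔓 (Q.prime v) h𝔓 ((Q.under v).trans h𝔓v.symm)
    obtain ⟨δ, hδ, hd⟩ := hL v hv
    obtain ⟨σ, hσ⟩ : ∃ σ : Gal(QBar/K), σ = τ.restrictScalars K := ⟨_, rfl⟩
    have hfix : σ ∈ c.F.fixingSubgroup := by
      rw [hσ]
      exact kx_fix c τ
    have h0 := (H.fix σ).1 hfix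
    have h1 : g⁻¹ * σ * g ∈ dec (K := K) (Q.P v) := by
      rw [← ax_dec, hσ]
      exact hτ
    have h2 := hd _ h1
    have h3 : χ (g⁻¹ * σ * g) ((χ g)⁻¹ 0) = (χ g)⁻¹ 0 := by
      rw [map_mul, map_mul, map_inv, Equiv.Perm.mul_apply, Equiv.Perm.mul_apply]
      have h4 : χ g ((χ g)⁻¹ 0) = 0 := (χ g).apply_symm_apply 0
      rw [h4, h0]
    have h5 := (cl_cj H φ hφ.2 g _ h3).2
    have h6 := (cl_cj H φ' hφ'.2 g _ h3).2
    have h7 : g * (g⁻¹ * σ * g) * g⁻¹ = σ := by group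
    rw [h7] at h5 h6
    have h8 : (χ (g⁻¹ * σ * g))⁻¹ ((χ g)⁻¹ 0) = (χ g)⁻¹ 0 := by
      rw [Equiv.Perm.inv_eq_iff_eq]
      exact h3.symm
    rw [h2, ks_conj k hδ, sf_pi hφ'.2, h8, CharTwo.add_self_eq_zero, add_zero] at h5
    rw [← kx_kk, ← hσ, hkx σ hfix, h5, h6, CharTwo.add_self_eq_zero]

end H48.SF
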