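import Pool.Agent.H48.SF.AxA
import Pool.Agent.H48.SF.ClA
import Pool.Agent.H48.SF.ClL
import Pool.Agent.H48.SF.Orb

/-!
# [H48 SF AXB] a lift with given restrictions to the decomposition groups, 90-130 lines. File Pool/Agent/H48/SF/AxB.lean

* `ax_sq`: `b` from `ax_loc`, `a = b * inc (Nm b)`: the norm of `a` is `(N b)^4` (`Algebra.norm_algebraMap`, `c.deg`). It is enough that `kx c (inc (Nm b)) (g x g⁻¹) = 0` (`kx_arg`). Let `D' = dec (g • Q.P v)`, `E σ i = lam (ψ v (g⁻¹ σ g)) ((χ g)⁻¹ i)`: a cocycle on `D'` (`k.mul`, `hpi`, `ax_dec`) with `∑_i E σ i = 0` (`k.sum`, `Equiv.sum_comp`). `e σ i = kf b σ i + E σ i` is a cocycle on `D'`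
  (`kf_coc`), and if `χ σ i = i`, `σ ∈ D'`: `kf b σ i = kx b ((t i)⁻¹ σ t i)`, `(t i)⁻¹ σ t i = g' x g'⁻¹` with `x = g⁻¹ σ g`, `g' = (t i)⁻¹ g`, `(χ g')⁻¹ 0 = (χ g)⁻¹ (χ (t i) 0) = (χ g)⁻¹ i`, so it is `lam (ψ v x) ((χ g)⁻¹ i) = E σ i` by `ax_loc`: `e σ i = 0`. `ks_orb`: `e σ i = δ i + δ ((χ σ)⁻¹ i)`, so `∑ e σ i = 0` and `∑_i kf b σ i = 0`
  for `σ ∈ D'`. `kf_nmf` for `σ = g x g⁻¹`.
* `ax_lift`: `a` from `ax_sq`, `φ` from `ca_sj`. On `D = dec (Q.P v)`: `e σ i = lam (φ σ) i + lam (ψ v σ) i` is a cocycle (`k.mul`, `hpi`), zero if `χ σ i = i`: `lam (φ σ) i = kx a (g σ g⁻¹)` for `g = (t i)⁻¹` (`cl_cj`), `= lam (ψ v σ) i` (`ax_sq`). `ks_orb`, `k.ex` gives `d` with `pi d = 1`, `lam d = δ`; `φ σ = d ψ v σ d⁻¹` by `ks_conj`, `k.inj`.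
-/

set_option autoImplicit false
set_option linter.dupNamespace false

open scoped NumberField Classical Pointwise
open IsDedekindDomain H38.ML H63.MA

noncomputable section

namespace H48.SF

open H48.KV H67.SX H38.SE
open H48.T3 hiding Ch Fib

variable {K : IntermediateField ℚ QBar} [NumberField K] {G : Type} [Group G] {k : KS G}
  {χ : Gal(QBar/K) →* Equiv.Perm (Fin 3)} {c : Cu K} {t : Fin 3 → Gal(QBar/K)}

private theorem axb_ai (e : Equiv.Perm (Fin 3)) (i : Fin 3) : e (e⁻¹ i) = i :=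
  e.apply_symm_apply i

private theorem axb_norm (c : Cu K) (b : c.Fˣ) :
    IsSquare (Algebra.norm K ((b * inc K c.F (Nm K c.F b) : c.Fˣ) : c.F)) := by
  have h1 : ((b * inc K c.F (Nm K c.F b) : c.Fˣ) : c.F) =
      (b : c.F) * algebraMap K c.F (Algebra.norm K (b : c.F)) := rfl
  rw [h1, map_mul, Algebra.norm_algebraMap, c.deg]
  exact ⟨Algebra.norm K (b : c.F) ^ 2, by ring⟩

theorem ax_sq (H : Std χ c t) (Q : DP K QBar) (S : Finset (Pl K))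
    (ψ : Pl K → Gal(QBar/K) →* G) (hft : ∀ v ∈ S, FT (ψ v))
    (hpi : ∀ v ∈ S, ∀ σ ∈ dec (K := K) (Q.P v), k.pi (ψ v σ) = χ σ) :
    ∃ a : c.Fˣ, IsSquare (Algebra.norm K (a : c.F)) ∧ ∀ v ∈ S, ∀ g x : Gal(QBar/K),
      x ∈ dec (K := K) (Q.P v) → χ x ((χ g)⁻¹ 0) = (χ g)⁻¹ 0 →
      kx c a (g * x * g⁻¹) = k.lam (ψ v x) ((χ g)⁻¹ 0) := by
  obtain ⟨b, hb⟩ := ax_loc (k := k) H Q S ψ hft hpi
  refine ⟨b * inc K c.F (Nm K c.F b), axb_norm c b, fun v hv g x hx h0 => ?_⟩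
  have hfix : g * x * g⁻¹ ∈ c.F.fixingSubgroup := by
    rw [H.fix, map_mul, map_mul, map_inv, Equiv.Perm.mul_apply, Equiv.Perm.mul_apply, h0, axb_ai]
  rw [kx_arg, hb v hv g x hx h0, kf_nmf H b _ hfix]
  have hperm : ∀ (σ : Gal(QBar/K)) (i : Fin 3),
      (χ (g⁻¹ * σ * g))⁻¹ ((χ g)⁻¹ i) = (χ g)⁻¹ ((χ σ)⁻¹ i) := by
    intro σ i
    rw [map_mul, map_mul, map_inv, mul_inv_rev, mul_inv_rev, inv_inv, Equiv.Perm.mul_apply,
      Equiv.Perm.mul_apply, axb_ai]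
  obtain ⟨δ, hδ, hd⟩ := ks_orb χ (dec (K := K) (g • Q.P v))
    (fun σ i => kf c χ t b σ i + k.lam (ψ v (g⁻¹ * σ * g)) ((χ g)⁻¹ i)) (by
      intro σ hσ τ _ i
      rw [ax_dec] at hσ
      show kf c χ t b (σ * τ) i + k.lam (ψ v (g⁻¹ * (σ * τ) * g)) ((χ g)⁻¹ i) = _
      have e1 : g⁻¹ * (σ * τ) * g = (g⁻¹ * σ * g) * (g⁻¹ * τ * g) := by group
      rw [kf_coc H, e1, map_mul, k.mul, hpi v hv _ hσ, hperm]
      ring) (by
      intro σ hσ i hi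
      rw [ax_dec] at hσ
      show kf c χ t b σ i + k.lam (ψ v (g⁻¹ * σ * g)) ((χ g)⁻¹ i) = 0
      have e1 : (χ σ)⁻¹ i = i := by
        rw [Equiv.Perm.inv_eq_iff_eq]
        exact hi.symm
      have e2 : (χ ((t i)⁻¹ * g))⁻¹ 0 = (χ g)⁻¹ i := by
        rw [map_mul, map_inv, mul_inv_rev, inv_inv, Equiv.Perm.mul_apply, H.ti]
      have e3 : χ (g⁻¹ * σ * g) ((χ g)⁻¹ i) = (χ g)⁻¹ i := by
        rw [map_mul, map_mul, map_inv, Equiv.Perm.mul_apply, Equiv.Perm.mul_apply, axb_ai, hi]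
      have e4 := hb v hv ((t i)⁻¹ * g) (g⁻¹ * σ * g) hσ (by rw [e2]; exact e3)
      have e5 : (t i)⁻¹ * g * (g⁻¹ * σ * g) * ((t i)⁻¹ * g)⁻¹ = (t i)⁻¹ * σ * t i := by group
      rw [e5, e2] at e4
      have e6 : kf c χ t b σ i = kx c b ((t i)⁻¹ * σ * t i) := by
        unfold kf
        rw [e1]
      rw [e6, e4]
      exact CharTwo.add_self_eq_zero _)
  have hmem : g * x * g⁻¹ ∈ dec (K := K) (g • Q.P v) := by
    rw [ax_dec]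
    have e1 : g⁻¹ * (g * x * g⁻¹) * g = x := by group
    rw [e1]
    exact hx
  have h1 : ∑ i, (kf c χ t b (g * x * g⁻¹) i + k.lam (ψ v (g⁻¹ * (g * x * g⁻¹) * g)) ((χ g)⁻¹ i)) =
      ∑ i, (δ i + δ ((χ (g * x * g⁻¹))⁻¹ i)) :=
    Finset.sum_congr rfl fun i _ => hd _ hmem i
  have h2 : ∑ i, δ ((χ (g * x * g⁻¹))⁻¹ i) = ∑ i, δ i := Equiv.sum_comp ((χ (g * x * g⁻¹))⁻¹) δ
  have h3 : ∑ i, k.lam (ψ v (g⁻¹ * (g * x * g⁻¹) * g)) ((χ g)⁻¹ i) = 0 := by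
    rw [Equiv.sum_comp ((χ g)⁻¹) (k.lam (ψ v (g⁻¹ * (g * x * g⁻¹) * g)))]
    exact k.sum _
  rw [Finset.sum_add_distrib, Finset.sum_add_distrib, h2, h3, hδ, add_zero, add_zero] at h1
  rw [h1, add_zero]

theorem ax_lift (H : Std χ c t) (Q : DP K QBar) (S : Finset (Pl K))
    (ψ : Pl K → Gal(QBar/K) →* G) (hft : ∀ v ∈ S, FT (ψ v))
    (hpi : ∀ v ∈ S, ∀ σ ∈ dec (K := K) (Q.P v), k.pi (ψ v σ) = χ σ) :
    ∃ φ ∈ LW k χ, ∀ v ∈ S, ∃ δ, k.pi δ = 1 ∧ ∀ σ ∈ dec (K := K) (Q.P v),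
      φ σ = δ * ψ v σ * δ⁻¹ := by
  obtain ⟨a, ha, hloc⟩ := ax_sq H Q S ψ hft hpi
  obtain ⟨φ, hφ, hka⟩ := ca_sj (k := k) H a ha
  refine ⟨φ, hφ, fun v hv => ?_⟩
  have hpf : ∀ σ, k.pi (φ σ) = χ σ := by
    intro σ
    rw [← hφ.2]
    rfl
  obtain ⟨δ, hδ, hd⟩ := ks_orb χ (dec (K := K) (Q.P v))
    (fun σ i => k.lam (φ σ) i + k.lam (ψ v σ) i) (by
      intro σ hσ τ _ i
      show k.lam (φ (σ * τ)) i + k.lam (ψ v (σ * τ)) i = _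
      rw [map_mul, map_mul, k.mul, k.mul, hpf, hpi v hv σ hσ]
      ring) (by
      intro σ hσ i hi
      show k.lam (φ σ) i + k.lam (ψ v σ) i = 0
      have hg : (χ (t i)⁻¹)⁻¹ 0 = i := by
        rw [map_inv, inv_inv, H.ti]
      have h1 := cl_cj H φ hφ.2 (t i)⁻¹ σ (by rw [hg]; exact hi)
      have h2 := hloc v hv (t i)⁻¹ σ hσ (by rw [hg]; exact hi)
      rw [hg] at h1 h2
      rw [← h1.2, ← hka _ h1.1, h2]
      exact CharTwo.add_self_eq_zero _)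
  obtain ⟨d, hd1, hd2⟩ := k.ex 1 δ hδ
  refine ⟨d, hd1, fun σ hσ => ?_⟩
  apply k.inj
  · rw [map_mul, map_mul, map_inv, hd1, one_mul, inv_one, mul_one, hpf, hpi v hv σ hσ]
  · funext i
    rw [ks_conj k hd1, hd2, hpi v hv σ hσ, ← hd σ hσ i]
    show k.lam (φ σ) i = k.lam (ψ v σ) i + (k.lam (φ σ) i + k.lam (ψ v σ) i)
    rw [add_comm (k.lam (φ σ) i), ← add_assoc, CharTwo.add_self_eq_zero, zero_add]

end H48.SF
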