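import Pool.Agent.H48.SF.AxB
import Pool.Agent.H48.SF.Grp
import Pool.Agent.H48.T3.AxD

/-!
# [H48 SF AXC] surjectivity, and the approximation lemma, 90-130 lines. File Pool/Agent/H48/SF/AxC.lean

* `ax_spl`: let `M` be the fixed field of `ker χ` (finite Galois over `K`, `H38.ML.fixing_fixedField`, `FT χ`; as in T3, `ax_fd`); `exists_split K M` (see `ax_spl` in Pool/Agent/H48/T3/AxD.lean, the same proof) gives `v ∉ S` not above 2 with `χ = 1` on `dec (Q.P v)`.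
* `ax_surj`: as in Pool/Agent/H48/T3/AxD.lean: `v₀` from `ax_spl`, `π` a uniformizer, `ψ₀ = j ∘ kc 2 (-1) QBar π`, `j : Multiplicative (ZMod 2) →* G` with `j (ofAdd 1) = w`, `w ≠ 1`, `pi w = 1` (`ks_card` or `k.ex 1 ![0, 1, 1]`; `w * w = 1`), `L.t ∈ dec (Q.P v₀)` with `ψ₀ L.t = w`. `ax_lift` for `insert v₀ S`; `φ L.t` is conjugate to `w`; `ks_surj`.
* `apx`: `ψ v σ = s (e v) * φ σ * (s (e v))⁻¹` (`s` from `ks_sec`): finite type (`H38.ML.ft_comp` with `MulAut.conj`), `pi (ψ v σ) = e v * χ σ * (e v)⁻¹ = χ' σ` on `dec (Q.P v)`. `ax_surj` for `χ'`.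
-/

set_option autoImplicit false
set_option linter.dupNamespace false

open scoped NumberField Classical Pointwise
open IsDedekindDomain H38.ML H63.MA

noncomputable section

namespace H48.SF

open H48.KV H67.SX H38.SE
open H48.T3 hiding Ch Fib

variable {K : IntermediateField ℚ QBar} [NumberField K] {G : Type} [Group G] {k : KS G}
  {χ χ' : Gal(QBar/K) →* Equiv.Perm (Fin 3)} {c c' : Cu K} {t t' : Fin 3 → Gal(QBar/K)}

theorem ax_spl (H : Std χ c t) (Q : DP K QBar) (S : Finset (Pl K)) :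
    ∃ v : Pl K, v ∉ S ∧ ¬ Above 2 v ∧ ∀ σ ∈ dec (K := K) (Q.P v), χ σ = 1 := by
  obtain ⟨M, hfd, hgal, e, he, hρe⟩ := factor χ H.ft
  have hMn : NumberField M := NumberField.of_module_finite K M
  have hfin : ((fun v : Pl K => v.asIdeal) '' ((S : Set (Pl K)) ∪ {v : Pl K | Above 2 v})).Finite :=
    (S.finite_toSet.union (finite_above two_ne_zero)).image _
  obtain ⟨v, hv, hv0, hvS, hsp⟩ := exists_split K M _ hfin
  have hv1 : ∀ w : Pl K, w = ⟨v, hv, hv0⟩ → w ∉ S ∧ ¬ Above 2 w := by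
    intro w hw
    constructor
    · intro h1
      apply hvS
      exact ⟨w, Or.inl h1, by rw [hw]⟩
    · intro h1
      apply hvS
      exact ⟨w, Or.inr h1, by rw [hw]⟩
  refine ⟨⟨v, hv, hv0⟩, (hv1 _ rfl).1, (hv1 _ rfl).2, fun σ hσ => ?_⟩
  set w : Pl K := ⟨v, hv, hv0⟩ with hw
  have hQp := Q.prime w
  have hQ1 : ((Q.P w).under (𝓞 M)).IsPrime := Ideal.IsPrime.under _ _
  have hQ2 : ((Q.P w).under (𝓞 M)).under (𝓞 K) = v := by
    have h1 : (Q.P w).under (𝓞 K) = v := Q.under w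
    rw [← h1]
    ext x
    exact Iff.rfl
  have hst := hsp _ hQ1 hQ2
  let ρ : Gal(M/K) := AlgEquiv.restrictNormal σ M
  have hρ : ∀ x : M, ((ρ x : M) : QBar) = σ (x : QBar) := AlgEquiv.restrictNormal_commutes σ M
  have hρm : ρ ∈ MulAction.stabilizer Gal(M/K) ((Q.P w).under (𝓞 M)) := by
    rw [MulAction.mem_stabilizer_iff]
    ext y
    rw [Ideal.mem_pointwise_smul_iff_inv_smul_mem]
    have h1 := hσ (algebraMap (𝓞 M) (𝓞 QBar) (ρ⁻¹ • y))
    have h2 : σ • (algebraMap (𝓞 M) (𝓞 QBar) (ρ⁻¹ • y)) = algebraMap (𝓞 M) (𝓞 QBar) y := by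
      apply NumberField.RingOfIntegers.ext
      change σ (((ρ⁻¹ • y : 𝓞 M) : M) : QBar) = ((y : M) : QBar)
      rw [← hρ]
      congr 1
      exact ρ.apply_symm_apply (y : M)
    rw [h2] at h1
    exact h1.symm
  rw [hst, Subgroup.mem_bot] at hρm
  have h3 : res M σ = 1 := hρm
  rw [← hρe, h3, map_one]

private theorem axc_pow {x : G} (hx : x ^ 2 = 1) :
    ∃ j : Multiplicative (ZMod 2) →* G, j (Multiplicative.ofAdd 1) = x ∧
      ∀ y, j y ∈ Subgroup.zpowers x := by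
  have hmod : ∀ n : ℕ, x ^ n = x ^ (n % 2) := by
    intro n
    conv_lhs => rw [← Nat.mod_add_div n 2, pow_add, pow_mul, hx, one_pow, mul_one]
  refine ⟨⟨⟨fun y => x ^ (Multiplicative.toAdd y).val, ?_⟩, ?_⟩, ?_, ?_⟩
  · rw [toAdd_one, ZMod.val_zero, pow_zero]
  · intro y z
    change x ^ (Multiplicative.toAdd y + Multiplicative.toAdd z).val = _ * _
    rw [ZMod.val_add, ← hmod, pow_add]
  · change x ^ ((1 : ZMod 2)).val = x
    rw [show ((1 : ZMod 2)).val = 1 from rfl, pow_one]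
  · intro y
    exact Subgroup.npow_mem_zpowers x _

/-- an involution in the kernel of `pi` -/
private theorem axc_inv (k : KS G) : ∃ w : G, k.pi w = 1 ∧ w ≠ 1 ∧ w ^ 2 = 1 := by
  obtain ⟨w, hw1, hw2⟩ := k.ex 1 ![0, 1, 1] (by decide)
  refine ⟨w, hw1, fun h => ?_, ?_⟩
  · have h1 := congrFun hw2 1
    rw [h, ks_one] at h1
    exact absurd h1 (by decide)
  · rw [pow_two]
    apply k.inj
    · rw [map_mul, hw1, map_one, mul_one]
    · funext i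
      rw [k.mul, hw1, inv_one, Equiv.Perm.one_apply, ks_one]
      exact CharTwo.add_self_eq_zero _

theorem ax_surj (H : Std χ c t) (Q : DP K QBar) (S : Finset (Pl K))
    (ψ : Pl K → Gal(QBar/K) →* G) (hft : ∀ v ∈ S, FT (ψ v))
    (hpi : ∀ v ∈ S, ∀ σ ∈ dec (K := K) (Q.P v), k.pi (ψ v σ) = χ σ) :
    ∃ φ ∈ SL k χ, ∀ v ∈ S, ∃ δ, k.pi δ = 1 ∧ ∀ σ ∈ dec (K := K) (Q.P v),
      φ σ = δ * ψ v σ * δ⁻¹ := by
  obtain ⟨v₀, hv₀S, hv₀2, hv₀⟩ := ax_spl H Q S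
  obtain ⟨π, hπ⟩ := exists_unif v₀
  have hm1 := neg_one_prim K
  obtain ⟨L, hL⟩ := H63.BU.uord_at QBar Nat.prime_two hm1 hv₀2 hπ (Q.P v₀) (Q.prime v₀) (Q.under v₀)
  have hLt := ld_kk_t Nat.prime_two hm1 hv₀2 hπ L π
  rw [hπ, Int.cast_one] at hLt
  obtain ⟨w, hw1, hw2, hw3⟩ := axc_inv k
  obtain ⟨j, hj1, hj2⟩ := axc_pow hw3
  have hjV : ∀ y, k.pi (j y) = 1 := fun y => by
    have h1 : Subgroup.zpowers w ≤ k.pi.ker := Subgroup.zpowers_le.2 hw1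
    exact h1 (hj2 y)
  obtain ⟨ψ₀, hψ₀⟩ : ∃ ψ₀ : Gal(QBar/K) →* G, ψ₀ = j.comp (kc 2 (-1 : K) QBar π) := ⟨_, rfl⟩
  have hft₀ : FT ψ₀ := by
    rw [hψ₀]
    exact ft_comp j _ (kc_is Nat.prime_two hm1 π).1
  have hψ₀V : ∀ σ, k.pi (ψ₀ σ) = 1 := fun σ => by
    rw [hψ₀]
    exact hjV _
  have hψ₀t : ψ₀ L.t = w := by
    rw [hψ₀, MonoidHom.comp_apply, ← hj1]
    congr 1
  have htd : L.t ∈ dec (K := K) (Q.P v₀) := by
    intro x
    have h1 : L.t • x - x ∈ Q.P v₀ := by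
      have h2 := L.ht
      rw [hL] at h2
      exact h2 x
    constructor
    · intro h2
      have h3 : x = L.t • x - (L.t • x - x) := by ring
      rw [h3]
      exact Ideal.sub_mem _ h2 h1
    · intro h2
      have h3 : L.t • x = (L.t • x - x) + x := by ring
      rw [h3]
      exact Ideal.add_mem _ h1 h2
  obtain ⟨φ, hφ, hφ3⟩ := ax_lift (k := k) H Q (insert v₀ S)
    (fun v => if v = v₀ then ψ₀ else ψ v) (fun v hv => by
      change FT (if v = v₀ then ψ₀ else ψ v)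
      by_cases hv' : v = v₀
      · rw [if_pos hv']
        exact hft₀
      · rw [if_neg hv']
        exact hft v (Finset.mem_of_mem_insert_of_ne hv hv')) (fun v hv σ hσ => by
      change k.pi ((if v = v₀ then ψ₀ else ψ v) σ) = _
      by_cases hv' : v = v₀
      · rw [if_pos hv']
        rw [hv'] at hσ
        rw [hv₀ σ hσ, hψ₀V σ]
      · rw [if_neg hv']
        exact hpi v (Finset.mem_of_mem_insert_of_ne hv hv') σ hσ)
  obtain ⟨hφ1, hφ2⟩ := hφ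
  refine ⟨φ, ⟨hφ1, ?_, hφ2⟩, fun v hv => ?_⟩
  · obtain ⟨δ, hδ, hδ'⟩ := hφ3 v₀ (Finset.mem_insert_self _ _)
    have h1 := hδ' L.t htd
    change φ L.t = δ * (if v₀ = v₀ then ψ₀ else ψ v₀) L.t * δ⁻¹ at h1
    rw [if_pos rfl, hψ₀t] at h1
    refine ks_surj k φ ?_ (σ := L.t) ?_ ?_
    · rw [hφ2]
      exact H.sj
    · rw [h1, map_mul, map_mul, map_inv, hδ, hw1, mul_one, inv_one, mul_one]
    · intro h3
      rw [h1] at h3
      apply hw2
      have h4 : w = δ⁻¹ * (δ * w * δ⁻¹) * δ := by group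
      rw [h4, h3, mul_one, inv_mul_cancel]
  · obtain ⟨δ, hδ, hδ'⟩ := hφ3 v (Finset.mem_insert_of_mem hv)
    refine ⟨δ, hδ, fun σ hσ => ?_⟩
    have h1 := hδ' σ hσ
    have hne : v ≠ v₀ := by
      rintro rfl
      exact hv₀S hv
    change φ σ = δ * (if v = v₀ then ψ₀ else ψ v) σ * δ⁻¹ at h1
    rw [if_neg hne] at h1
    exact h1

theorem apx (H' : Std χ' c' t') {s : Equiv.Perm (Fin 3) →* G} (hs : ∀ x, k.pi (s x) = x)
    (Q : DP K QBar) (S : Finset (Pl K)) (e : Pl K → Equiv.Perm (Fin 3))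
    (he : ∀ v ∈ S, ∀ σ ∈ dec (K := K) (Q.P v), χ' σ = e v * χ σ * (e v)⁻¹)
    (φ : Gal(QBar/K) →* G) (hφ : φ ∈ LW k χ) :
    ∃ φ' ∈ SL k χ', ∀ v ∈ S, ∃ δ, k.pi δ = 1 ∧ ∀ σ ∈ dec (K := K) (Q.P v),
      φ' σ = (δ * s (e v)) * φ σ * (δ * s (e v))⁻¹ := by
  obtain ⟨hφ1, hφ2⟩ := hφ
  obtain ⟨φ', h1, h2⟩ := ax_surj (k := k) H' Q S
    (fun v => (MulAut.conj (s (e v))).toMonoidHom.comp φ)
    (fun v _ => ft_comp _ _ hφ1) (fun v hv σ hσ => by
      change k.pi (s (e v) * φ σ * (s (e v))⁻¹) = χ' σ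
      rw [map_mul, map_mul, map_inv, hs, he v hv σ hσ, ← hφ2]
      rfl)
  refine ⟨φ', h1, fun v hv => ?_⟩
  obtain ⟨δ, hδ, hδ'⟩ := h2 v hv
  refine ⟨δ, hδ, fun σ hσ => ?_⟩
  have h3 := hδ' σ hσ
  change φ' σ = δ * (s (e v) * φ σ * (s (e v))⁻¹) * δ⁻¹ at h3
  rw [h3]
  group

end H48.SF
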