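import Pool.Agent.H48.SF.ClA

/-!
# [H48 SF CLB] the class as a function, and the count, 60-100 lines. File Pool/Agent/H48/SF/ClB.lean

* `cl_ex`: choose `cl φ = v2 a`, `a` from `ca_ex`. `kc`: `kx_v2`. `va`: `mem_VA`. `eq`: `ca_eq`, `kx_v2`. `sj`: `ca_sj` (`x = v2 a`: `v2_surj`, `mem_VA`). `su`: `ca_su`; `v2 a = 0 ↔ ∃ b, a = b ^ 2` (`v2_eq` with `1`).
* `cl_cnt`: for `x ∈ VA` the `φ ∈ LW` with `cl φ = x` are the `δ φ₁ δ⁻¹`, `pi δ = 1` (`sj`, `eq`; `LW` is stable under conjugation by `V`), four different ones (`ks_free`, `ks_card`; `k.pi.comp φ₁ = χ` is surjective). Sum over `x ∈ X`. (Pattern: Pool/Agent/H48/T3/Cls.lean.)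
-/

set_option autoImplicit false
set_option linter.dupNamespace false

open scoped NumberField Classical Pointwise
open IsDedekindDomain H38.ML H63.MA

noncomputable section

namespace H48.SF

open H48.KV H67.SX H38.SE
open H48.T3 hiding Ch Fib

variable {K : IntermediateField ℚ QBar} [NumberField K] {G : Type} [Group G] {k : KS G}
  {χ : Gal(QBar/K) →* Equiv.Perm (Fin 3)} {c : Cu K} {t : Fin 3 → Gal(QBar/K)}

theorem cl_ex (H : Std χ c t) : ∃ cl : (Gal(QBar/K) →* G) → V2 c.F, ClD k χ c cl := by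
  have hex : ∀ φ ∈ LW k χ, ∃ a : c.Fˣ, IsSquare (Algebra.norm K (a : c.F)) ∧
      ∀ σ ∈ c.F.fixingSubgroup, kx c a σ = k.lam (φ σ) 0 := fun φ hφ => ca_ex H φ hφ
  choose! A hA1 hA2 using hex
  have hkc : ∀ φ ∈ LW k χ, ∀ a : c.Fˣ, v2 a = v2 (A φ) ↔
      ∀ σ ∈ c.F.fixingSubgroup, kx c a σ = k.lam (φ σ) 0 := by
    intro φ hφ a
    rw [← kx_v2]
    constructor
    · intro h σ hσ
      rw [h σ hσ, hA2 φ hφ σ hσ]
    · intro h σ hσ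
      rw [h σ hσ, hA2 φ hφ σ hσ]
  refine ⟨fun φ => v2 (A φ), ⟨hkc, ?_, ?_, ?_, ?_⟩⟩
  · intro φ hφ
    exact (mem_VA c (A φ)).2 (hA1 φ hφ)
  · intro φ hφ φ' hφ'
    rw [← ca_eq H φ φ' hφ hφ', ← kx_v2]
    constructor
    · intro h σ hσ
      rw [← hA2 φ hφ σ hσ, ← hA2 φ' hφ' σ hσ, h σ hσ]
    · intro h σ hσ
      rw [hA2 φ hφ σ hσ, hA2 φ' hφ' σ hσ, h σ hσ]
  · rintro x ⟨a, rfl, ha⟩
    obtain ⟨φ, hφ, h⟩ := ca_sj (k := k) H a ha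
    exact ⟨φ, hφ, ((hkc φ hφ a).2 h).symm⟩
  · intro φ hφ
    rw [ca_su H φ hφ (A φ) (hA2 φ hφ)]
    have h0 : (0 : V2 c.F) = v2 1 := rfl
    rw [Ne, h0, v2_eq]
    simp only [one_mul]

private theorem lw_cj {φ : Gal(QBar/K) →* G} (h : φ ∈ LW k χ) {δ : G} (hδ : k.pi δ = 1) :
    (MulAut.conj δ).toMonoidHom.comp φ ∈ LW k χ := by
  refine ⟨ft_comp _ φ h.1, ?_⟩
  ext σ : 1
  rw [← h.2]
  change k.pi (δ * φ σ * δ⁻¹) = k.pi (φ σ)
  rw [map_mul, map_mul, map_inv, hδ, one_mul, inv_one, mul_one]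

theorem cl_cnt (H : Std χ c t) {cl : (Gal(QBar/K) →* G) → V2 c.F} (hcl : ClD k χ c cl)
    (X : Set (V2 c.F)) (hX : X ⊆ VA c) (hf : X.Finite) : {φ | φ ∈ LW k χ ∧ cl φ ∈ X}.Finite ∧
      {φ | φ ∈ LW k χ ∧ cl φ ∈ X}.ncard = 4 * X.ncard := by
  have hex : ∀ x : X, ∃ φ ∈ LW k χ, cl φ = x := fun x => hcl.sj x (hX x.2)
  choose ψ hψ hψx using hex
  have hcj : ∀ (x : X) (δ : {δ : G | k.pi δ = 1}),
      cl ((MulAut.conj (δ : G)).toMonoidHom.comp (ψ x)) = x := by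
    intro x δ
    rw [← hψx x]
    exact (hcl.eq _ (lw_cj (hψ x) δ.2) _ (hψ x)).2 ⟨δ, δ.2, rfl⟩
  obtain ⟨f, hfd⟩ : ∃ f : X × {δ : G | k.pi δ = 1} → {φ | φ ∈ LW k χ ∧ cl φ ∈ X}, ∀ p,
      (f p : Gal(QBar/K) →* G) = (MulAut.conj (p.2 : G)).toMonoidHom.comp (ψ p.1) :=
    ⟨fun p => ⟨(MulAut.conj (p.2 : G)).toMonoidHom.comp (ψ p.1),
      lw_cj (hψ p.1) p.2.2, by rw [hcj]; exact p.1.2⟩, fun _ => rfl⟩
  have hinj : Function.Injective f := by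
    rintro ⟨x, δ⟩ ⟨x', δ'⟩ h
    have h1 : (MulAut.conj (δ : G)).toMonoidHom.comp (ψ x) =
        (MulAut.conj (δ' : G)).toMonoidHom.comp (ψ x') := by
      have h2 := congrArg Subtype.val h
      rw [hfd, hfd] at h2
      exact h2
    have h3 : x = x' := by
      apply Subtype.ext
      rw [← hcj x δ, h1, hcj]
    subst h3
    have h4 : δ = δ' := by
      apply Subtype.ext
      refine ks_free k (ψ x) (by rw [(hψ x).2]; exact H.sj) δ.2 δ'.2 fun σ => ?_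
      exact congrArg (fun u : Gal(QBar/K) →* G => u σ) h1
    rw [h4]
  have hsur : Function.Surjective f := by
    rintro ⟨φ, hφ, hφX⟩
    obtain ⟨δ, hδ, h1⟩ := (hcl.eq φ hφ _ (hψ ⟨cl φ, hφX⟩)).1 (hψx ⟨cl φ, hφX⟩).symm
    refine ⟨(⟨cl φ, hφX⟩, ⟨δ, hδ⟩), Subtype.ext ?_⟩
    rw [hfd]
    exact h1.symm
  have hXf : Finite X := hf
  have hVf : Finite {δ : G | k.pi δ = 1} := (ks_card k).1
  have hVc : Nat.card {δ : G | k.pi δ = 1} = 4 := by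
    rw [Nat.card_coe_set_eq, (ks_card k).2]
  have hfin : Finite {φ | φ ∈ LW k χ ∧ cl φ ∈ X} := Finite.of_surjective f hsur
  refine ⟨hfin, ?_⟩
  have h1 : Nat.card {φ | φ ∈ LW k χ ∧ cl φ ∈ X} = Nat.card (X × {δ : G | k.pi δ = 1}) :=
    (Nat.card_eq_of_bijective f ⟨hinj, hsur⟩).symm
  rw [Nat.card_prod, hVc] at h1
  rw [← Nat.card_coe_set_eq, ← Nat.card_coe_set_eq, h1, mul_comm]

end H48.SF
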