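import Pool.Agent.H48.SF.Efa

/-!
# [H48 SF GVI] the vectors `gv c S P`, 80-120 lines. File Pool/Agent/H48/SF/GvI.lean

`gv c S P R = [R = P] + [bl R = bl P] er R * fr P` if `P` is not over `S`, and 0 otherwise. `P` is over `S` iff `bl c P ∈ S` (`bl_over`, `below_unique`); so if `bl R = bl P` then `R` is over `S` iff `P` is.
* `gv_mem`: finite support (contained in `ov c (bl c P)`). Zero over `S`. `∑_{R | l} fr R * gv P R`: 0 if `l ≠ bl P`; if `l = bl P`: `fr P + fr P * ∑_R er R * fr R = 4 fr P = 0` (`ef_sum`).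
* `gv_tri`: at `R`: 0 if `bl R ≠ l` or `l ∈ S`; otherwise `∑_{P | l} er P * ([R = P] + er R * fr P) = er R + er R * 3 = 0` (`ef_sum`).
* `gv_exp`: at `R` not over `S`: `∑_{P ∈ E} g P * ([R = P] + [bl R = bl P] er R * fr P) = g R + er R * ∑_{P | bl R} fr P * g P = g R` (`g P = 0` outside `E`; over `S` both sides are 0).
* `gv_zero`: definition.
-/

set_option autoImplicit false
set_option linter.dupNamespace false

open scoped NumberField Classical Pointwise
open IsDedekindDomain H38.ML H63.MA

noncomputable section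

namespace H48.SF

open H48.KV H67.SX H38.SE
open H48.T3 hiding Ch Fib

variable {K : IntermediateField ℚ QBar} [NumberField K]

private theorem ovs_iff (c : Cu K) (S : Finset (Pl K)) (P : Pl c.F) : OvS c S P ↔ bl c P ∈ S :=
  ⟨fun ⟨_, hl, ho⟩ => (bl_eq c P _).1 ho ▸ hl, fun h => ⟨bl c P, h, bl_over c P⟩⟩

private theorem ov_iff (c : Cu K) (l : Pl K) (P : Pl c.F) : P ∈ ov c l ↔ bl c P = l := by
  rw [mem_ov, bl_eq]

private theorem ef_sum2 (c : Cu K) (l : Pl K) : ∑ P ∈ ov c l, (er c P : ZMod 2) * (fr c P : ZMod 2) = 1 := by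
  have h := congrArg (fun n : ℕ => (n : ZMod 2)) (ef_sum c l)
  simp only [Nat.cast_sum, Nat.cast_mul] at h
  rw [h]
  rfl

theorem gv_zero (c : Cu K) (S : Finset (Pl K)) (P : Pl c.F) (h : OvS c S P) :
    gv c S P = 0 := by
  funext R
  unfold gv
  rw [if_pos h]
  rfl

private theorem gv_ne (c : Cu K) (S : Finset (Pl K)) (P R : Pl c.F) (h : bl c R ≠ bl c P) :
    gv c S P R = 0 := by
  unfold gv
  split_ifs with h1 h2
  · rfl
  · exact absurd (by rw [h2]) h
  · exact add_zero 0

private theorem gv_eq (c : Cu K) (S : Finset (Pl K)) (P R : Pl c.F) (hP : ¬ OvS c S P) (h : bl c R = bl c P) :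
    gv c S P R = (if R = P then 1 else 0) + (er c R : ZMod 2) * fr c P := by
  unfold gv
  rw [if_neg hP, if_pos h]

private theorem gv_ov (c : Cu K) (S : Finset (Pl K)) (P R : Pl c.F) (hR : OvS c S R) : gv c S P R = 0 := by
  by_cases hP : OvS c S P
  · rw [gv_zero c S P hP]
    rfl
  · refine gv_ne c S P R fun h => hP ?_
    rw [ovs_iff] at hR ⊢
    rwa [← h]

theorem gv_mem (c : Cu K) (S : Finset (Pl K)) (P : Pl c.F) : gv c S P ∈ Ig c S := by
  refine ⟨?_, fun R hR => gv_ov c S P R hR, fun l => ?_⟩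
  · refine (Finset.finite_toSet (ov c (bl c P))).subset fun R hR => ?_
    rw [Function.mem_support] at hR
    rw [Finset.mem_coe, ov_iff]
    by_contra h
    exact hR (gv_ne c S P R h)
  · by_cases hP : OvS c S P
    · rw [gv_zero c S P hP]
      exact Finset.sum_eq_zero fun R _ => mul_zero _
    · by_cases hl : bl c P = l
      · have h1 : ∀ R ∈ ov c l, (fr c R : ZMod 2) * gv c S P R =
            (if R = P then (fr c R : ZMod 2) else 0) + fr c P * ((er c R : ZMod 2) * fr c R) := by
          intro R hR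
          rw [ov_iff] at hR
          rw [gv_eq c S P R hP (by rw [hR, hl])]
          split_ifs <;> ring
        rw [Finset.sum_congr rfl h1, Finset.sum_add_distrib, Finset.sum_ite_eq', if_pos ((ov_iff c l P).2 hl),
          ← Finset.mul_sum, ef_sum2, mul_one]
        exact CharTwo.add_self_eq_zero _
      · refine Finset.sum_eq_zero fun R hR => ?_
        rw [ov_iff] at hR
        rw [gv_ne c S P R (fun h => hl (by rw [← h, hR])), mul_zero]

theorem gv_tri (c : Cu K) (S : Finset (Pl K)) (l : Pl K) :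
    ∑ P ∈ ov c l, (er c P : ZMod 2) • gv c S P = 0 := by
  funext R
  rw [Finset.sum_apply, Pi.zero_apply]
  by_cases hl : l ∈ S
  · refine Finset.sum_eq_zero fun P hP => ?_
    rw [ov_iff] at hP
    rw [gv_zero c S P ((ovs_iff c S P).2 (by rwa [hP])), smul_zero, Pi.zero_apply]
  · by_cases hR : bl c R = l
    · have h1 : ∀ P ∈ ov c l, ((er c P : ZMod 2) • gv c S P) R =
          (if R = P then (er c P : ZMod 2) else 0) + er c R * ((er c P : ZMod 2) * fr c P) := by
        intro P hP
        rw [ov_iff] at hP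
        have hS : ¬ OvS c S P := by rwa [ovs_iff, hP]
        rw [Pi.smul_apply, smul_eq_mul, gv_eq c S P R hS (by rw [hR, hP])]
        split_ifs <;> ring
      rw [Finset.sum_congr rfl h1, Finset.sum_add_distrib, Finset.sum_ite_eq, if_pos ((ov_iff c l R).2 hR),
        ← Finset.mul_sum, ef_sum2, mul_one]
      exact CharTwo.add_self_eq_zero _
    · refine Finset.sum_eq_zero fun P hP => ?_
      rw [ov_iff] at hP
      rw [Pi.smul_apply, gv_ne c S P R (fun h => hR (by rw [h, hP])), smul_zero]

theorem gv_exp (c : Cu K) (S : Finset (Pl K)) (g : Pl c.F → ZMod 2) (hg : g ∈ Ig c S)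
    (E : Finset (Pl c.F)) (hE : ∀ P, P ∉ E → g P = 0) : g = ∑ P ∈ E, g P • gv c S P := by
  obtain ⟨-, hg2, hg3⟩ := hg
  funext R
  rw [Finset.sum_apply]
  by_cases hR : OvS c S R
  · rw [hg2 R hR]
    symm
    refine Finset.sum_eq_zero fun P _ => ?_
    rw [Pi.smul_apply, gv_ov c S P R hR, smul_zero]
  · have h1 : ∀ P ∈ E, (g P • gv c S P) R =
        (if R = P then g P else 0) + er c R * (if P ∈ ov c (bl c R) then (fr c P : ZMod 2) * g P else 0) := by
      intro P _
      rw [Pi.smul_apply, smul_eq_mul]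
      by_cases hP : OvS c S P
      · rw [hg2 P hP]
        simp
      · by_cases hb : bl c R = bl c P
        · rw [gv_eq c S P R hP hb, if_pos ((ov_iff c _ P).2 hb.symm)]
          split_ifs <;> ring
        · rw [gv_ne c S P R hb, if_neg (fun h => hb ((ov_iff c _ P).1 h).symm),
            if_neg (fun h => hb (by rw [h]))]
          ring
    rw [Finset.sum_congr rfl h1, Finset.sum_add_distrib, Finset.sum_ite_eq, ← Finset.mul_sum,
      ← Finset.sum_filter]
    have h2 : ∑ P ∈ E.filter (fun P => P ∈ ov c (bl c R)), (fr c P : ZMod 2) * g P = 0 := by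
      rw [← hg3 (bl c R)]
      refine Finset.sum_subset (fun P hP => (Finset.mem_filter.1 hP).2) fun P hP hP' => ?_
      have h3 : P ∉ E := fun h => hP' (Finset.mem_filter.2 ⟨h, hP⟩)
      rw [hE P h3, mul_zero]
    rw [h2, mul_zero, add_zero]
    split_ifs with h3
    · rfl
    · exact hE R h3

end H48.SF
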