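import Pool.Agent.H48.SF.Efa

/-!
# [H48 SF OGV] the parities of `x * N x`, 70-110 lines. File Pool/Agent/H48/SF/Ogv.lean

* `og_sq`: the norm of `x * N x` is `N x * (N x) ^ 3 = ((N x) ^ 2) ^ 2` (`Algebra.norm_algebraMap`, `c.deg`).
* `og_sum`: at `R` over `S` both sides are 0 (`gv c S P R = 0` if `P` is over `S`; if `P` is not over `S` and `R` is, then `R ≠ P` and `bl R ≠ bl P`: `OvS c S R` iff `bl c R ∈ S`). For `R` not over `S`: `ord R (x * inc (N x)) = ord R x + er R * ord (bl R) (N x) = ord R x + er R * ∑_{P ∈ ov (bl R)} fr P * ord P x` (`er_ord`, `nm_ord`). Right side: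
  `∑_{P ∈ E} ord P x * ([R = P] + [bl R = bl P] er R * fr P)`: the terms with `P ∉ E` are 0.
* `of_mem`: `x = v2 a`, `N a` a square, so `ord l (N a)` is even, `nm_ord`: `∑ fr P * ord P a` is even. Support finite (`finite_ord`), zero over `S` (definition of `oF`); for `l ∈ S` all `g P = 0`; for `l ∉ S` no `P` over `l` is over `S` (`below_unique`).
-/

set_option autoImplicit false
set_option linter.dupNamespace false

open scoped NumberField Classical Pointwise
open IsDedekindDomain H38.ML H63.MA

noncomputable section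

namespace H48.SF

open H48.KV H67.SX H38.SE
open H48.T3 hiding Ch Fib

variable {K : IntermediateField ℚ QBar} [NumberField K]

theorem og_sq (c : Cu K) (x : c.Fˣ) :
    IsSquare (Algebra.norm K ((x * inc K c.F (Nm K c.F x) : c.Fˣ) : c.F)) := by
  have h1 : ((x * inc K c.F (Nm K c.F x) : c.Fˣ) : c.F) =
      (x : c.F) * algebraMap K c.F (Algebra.norm K (x : c.F)) := rfl
  rw [h1, map_mul, Algebra.norm_algebraMap, c.deg]
  exact ⟨Algebra.norm K (x : c.F) ^ 2, by ring⟩

theorem ovs_iff (c : Cu K) (S : Finset (Pl K)) (P : Pl c.F) : OvS c S P ↔ bl c P ∈ S := by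
  constructor
  · rintro ⟨l, hl, h⟩
    rw [(bl_eq c P l).1 h]
    exact hl
  · exact fun h => ⟨_, h, bl_over c P⟩

theorem og_sum (c : Cu K) (S : Finset (Pl K)) (x : c.Fˣ) (E : Finset (Pl c.F))
    (hE : ∀ P, P ∉ E → ord P x = 0) :
    oF c S (x * inc K c.F (Nm K c.F x)) = ∑ P ∈ E, (ord P x : ZMod 2) • gv c S P := by
  funext R
  rw [Finset.sum_apply]
  simp only [Pi.smul_apply, smul_eq_mul]
  by_cases hR : OvS c S R
  · rw [oF, if_pos hR]
    symm
    apply Finset.sum_eq_zero
    intro P _
    rw [gv]
    split_ifs with h1 h2 h3 h4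
    · rw [mul_zero]
    · exact absurd (h2 ▸ hR) h1
    · exact absurd (h2 ▸ hR) h1
    · exfalso
      apply h1
      rw [ovs_iff, ← h4, ← ovs_iff]
      exact hR
    · rw [add_zero, mul_zero]
  · have hg : ∀ P, gv c S P R =
        (if R = P then 1 else 0) + if bl c R = bl c P then (er c R : ZMod 2) * fr c P else 0 := by
      intro P
      rw [gv]
      by_cases h1 : OvS c S P
      · rw [if_pos h1]
        have h2 : R ≠ P := fun h => hR (h ▸ h1)
        have h3 : bl c R ≠ bl c P := by
          intro h
          apply hR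
          rw [ovs_iff, h, ← ovs_iff]
          exact h1
        rw [if_neg h2, if_neg h3, add_zero]
      · rw [if_neg h1]
    simp only [hg, mul_add, Finset.sum_add_distrib]
    have e1 : ∑ P ∈ E, (ord P x : ZMod 2) * (if R = P then 1 else 0) = (ord R x : ZMod 2) := by
      simp only [mul_ite, mul_one, mul_zero]
      rw [Finset.sum_ite_eq]
      split_ifs with h
      · rfl
      · rw [hE R h]
        simp
    have e2 : ∑ P ∈ E, (ord P x : ZMod 2) *
        (if bl c R = bl c P then (er c R : ZMod 2) * fr c P else 0) =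
        (er c R : ZMod 2) * ∑ P ∈ ov c (bl c R), (fr c P : ZMod 2) * (ord P x : ZMod 2) := by
      have e3 : ∑ P ∈ E, (ord P x : ZMod 2) *
          (if bl c R = bl c P then (er c R : ZMod 2) * fr c P else 0) =
          ∑ P ∈ E ∪ ov c (bl c R), (ord P x : ZMod 2) *
          (if bl c R = bl c P then (er c R : ZMod 2) * fr c P else 0) := by
        apply Finset.sum_subset Finset.subset_union_left
        intro P _ hP
        rw [hE P hP]
        simp
      have e4 : ∑ P ∈ ov c (bl c R), (ord P x : ZMod 2) *
          (if bl c R = bl c P then (er c R : ZMod 2) * fr c P else 0) =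
          ∑ P ∈ E ∪ ov c (bl c R), (ord P x : ZMod 2) *
          (if bl c R = bl c P then (er c R : ZMod 2) * fr c P else 0) := by
        apply Finset.sum_subset Finset.subset_union_right
        intro P _ hP
        rw [mem_ov, bl_eq] at hP
        rw [if_neg (fun h => hP h.symm), mul_zero]
      rw [e3, ← e4, Finset.mul_sum]
      apply Finset.sum_congr rfl
      intro P hP
      rw [mem_ov, bl_eq] at hP
      rw [if_pos hP.symm]
      ring
    rw [e1, e2, oF, if_neg hR, ord_mul, er_ord, nm_ord]
    push_cast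
    rfl

theorem of_mem (c : Cu K) (S : Finset (Pl K)) (x : V2 c.F) (hx : x ∈ VA c) :
    oL c S x ∈ Ig c S := by
  obtain ⟨a, rfl, ha⟩ := hx
  rw [oL_v2]
  refine ⟨?_, ?_, ?_⟩
  · apply (finite_ord a).subset
    intro P hP
    rw [Function.mem_support, oF] at hP
    intro h0
    apply hP
    rw [h0]
    simp
  · intro P hP
    rw [oF, if_pos hP]
  · intro l
    by_cases hl : l ∈ S
    · apply Finset.sum_eq_zero
      intro P hP
      rw [mem_ov] at hP
      rw [oF, if_pos ⟨l, hl, hP⟩, mul_zero]
    · have h1 : ∑ P ∈ ov c l, (fr c P : ZMod 2) * oF c S a P =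
          ((∑ P ∈ ov c l, (fr c P : ℤ) * ord P a : ℤ) : ZMod 2) := by
        push_cast
        apply Finset.sum_congr rfl
        intro P hP
        rw [mem_ov, bl_eq] at hP
        have h2 : ¬ OvS c S P := by
          rw [ovs_iff, hP]
          exact hl
        rw [oF, if_neg h2]
      rw [h1, ← nm_ord]
      obtain ⟨b, hb⟩ := ha
      have hb0 : b ≠ 0 := by
        rintro rfl
        rw [mul_zero] at hb
        exact Algebra.norm_ne_zero_iff.2 a.ne_zero hb
      have h3 : Nm K c.F a = (Units.mk0 b hb0) ^ 2 := by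
        apply Units.ext
        rw [Units.val_pow_eq_pow_val, Units.val_mk0, sq]
        exact hb
      rw [h3, ord_pow]
      push_cast
      rw [show (2 : ZMod 2) = 0 from rfl, zero_mul]

end H48.SF
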