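import Pool.Agent.H48.SF.ClL
import Pool.Agent.H48.SF.GvI
import Pool.Agent.H48.SF.Ogv
import Pool.Agent.H48.KV.LocA

/-!
# [H48 SF CLR] the class and the ramification, 120-170 lines. File Pool/Agent/H48/SF/ClR.lean

`v2 a = cl φ`, `kx a σ = lam (φ σ) 0` on `F.fixingSubgroup` (`hcl.kc`), `oL c S (cl φ) P = ord P a` mod 2 for `P` not over `S` (`oL_v2`, `oF`). `l ∉ S`, so `l` is not above 2 (`h2`). Local facts over the field `F` (copy from the proofs of `loc_even`, `loc_odd` in Pool/Agent/H48/KV/LocA.lean; `loc_odd'` in H48/T3/KLa.lean):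
(L1) if `P` is not above 2, `ord P a` is even and `𝔓` is a prime of `𝓞 QBar` over `P` then the Kummer character of `a` over `F` is trivial on the inertia group of `𝔓`; (L2) if `ord P a` is odd there is `ρ` in the inertia group of `𝔓` (in `Gal(QBar/F)`) with `kk 2 (-1) a ρ ≠ 0`.
`cl_tv` (→): `l ∈ qs`: `σ` in the inertia group of `Q.P l`, `pi (φ σ) = 1`, `φ σ ≠ 1`: `lam (φ σ) i ≠ 0` for some `i` (`k.inj`). `g = (t i)⁻¹`: `g σ g⁻¹ ∈ F.fixingSubgroup` is in the inertia group of `g • Q.P l` and `kx a (g σ g⁻¹) = lam (φ σ) i ≠ 0` (`cl_cj`). `P` = the prime of `F` below `g • Q.P l`: over `l`, and `ord P a` is odd by (L1).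
(←): `P` over `l`, `ord P a` odd. `𝔓` over `P`; `𝔓 = g • Q.P l` (transitivity). By (L2) there is `ρ ∈ F.fixingSubgroup` in the inertia group of `𝔓` with `kx a ρ ≠ 0`; `σ = g⁻¹ ρ g` is in the inertia group `J` of `Q.P l`, `i₀ = (χ g)⁻¹ 0`, `χ σ i₀ = i₀`, `lam (φ σ) i₀ = kx a ρ ≠ 0` (`cl_cj`). If no `τ ∈ J` had `pi (φ τ) = 1`, `φ τ ≠ 1` then `ks_split` gives `lam (φ σ) i₀ = 0`: contradiction.
`cl_nr`: the set `T` of the primes below the support of `g = oL c S (cl φ)` is finite (`g ∈ Ig`, `of_mem`) and equal to `qs` (`cl_tv`; `g P ≠ 0` implies that `P` is not over `S`), and `nrI c g = nr T`. If all `l ∈ q` are in `qs` then `q ⊆ T` and `nr q ≤ nr T` (`nr_mono`).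
-/

set_option autoImplicit false
set_option linter.dupNamespace false

open scoped NumberField Classical Pointwise
open IsDedekindDomain H38.ML H63.MA

noncomputable section

namespace H48.SF

open H48.KV H67.SX H38.SE
open H48.T3 hiding Ch Fib

private theorem loc_trans {K : Type} [Field K] [NumberField K] {Ω : Type} [Field Ω] [Algebra K Ω]
    [IsAlgClosure K Ω] (P P' : Ideal (𝓞 Ω)) (hP : P.IsPrime) (hP' : P'.IsPrime)
    (h : P.under (𝓞 K) = P'.under (𝓞 K)) : ∃ g : Gal(Ω/K), P' = g • P := by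
  have : IsGalois K Ω := IsAlgClosure.isGalois K Ω
  let _ : TopologicalSpace (𝓞 Ω) := ⊥
  have : DiscreteTopology (𝓞 Ω) := ⟨rfl⟩
  have : ContinuousSMul Gal(Ω/K) (𝓞 Ω) := by
    rw [continuousSMul_iff_stabilizer_isOpen]
    intro x
    have h1 := stabilizer_isOpen_of_isIntegral (K := K) (L := Ω) (x : Ω)
    have h2 : (MulAction.stabilizer Gal(Ω/K) x : Set Gal(Ω/K)) =
        (MulAction.stabilizer Gal(Ω/K) (x : Ω) : Set Gal(Ω/K)) := by
      ext g
      simp only [SetLike.mem_coe, MulAction.mem_stabilizer_iff]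
      constructor
      · intro hg
        exact congrArg (fun z : 𝓞 Ω => (z : Ω)) hg
      · intro hg
        exact NumberField.RingOfIntegers.ext hg
    rw [h2]
    exact h1
  have : Algebra.IsInvariant (𝓞 K) (𝓞 Ω) Gal(Ω/K) := ⟨fun b hb => by
    have h1 : (b : Ω) ∈ (⊥ : IntermediateField K Ω) := by
      rw [← InfiniteGalois.fixedField_bot (k := K) (K := Ω), IntermediateField.mem_fixedField_iff]
      intro g _
      exact congrArg (fun z : 𝓞 Ω => (z : Ω)) (hb g)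
    obtain ⟨a, ha⟩ := IntermediateField.mem_bot.1 h1
    have h2 : IsIntegral ℤ a := by
      have h3 : IsIntegral ℤ (algebraMap K Ω a) := by
        rw [ha]
        exact b.2
      exact (isIntegral_algebraMap_iff (algebraMap K Ω).injective).1 h3
    refine ⟨⟨a, h2⟩, NumberField.RingOfIntegers.ext ?_⟩
    exact ha⟩
  exact Algebra.IsInvariant.exists_smul_of_under_eq_of_profinite (A := 𝓞 K) (G := Gal(Ω/K)) P P' h

private theorem loc_inr {K : Type} [Field K] [NumberField K] {Ω : Type} [Field Ω] [Algebra K Ω]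
    (P : Ideal (𝓞 Ω)) (g τ : Gal(Ω/K)) (h : τ ∈ (g • P).inertia Gal(Ω/K)) :
    g⁻¹ * τ * g ∈ P.inertia Gal(Ω/K) := by
  intro x
  have h1 := h (g • x)
  have h2 : (g⁻¹ * τ * g) • x - x = g⁻¹ • (τ • (g • x) - g • x) := by
    rw [smul_sub, inv_smul_smul, mul_smul, mul_smul]
  change (g⁻¹ * τ * g) • x - x ∈ P
  rw [h2]
  have h3 : τ • (g • x) - g • x ∈ g • P := h1
  rwa [Ideal.mem_pointwise_smul_iff_inv_smul_mem] at h3

private theorem loc_inr' {K : Type} [Field K] [NumberField K] {Ω : Type} [Field Ω] [Algebra K Ω]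
    (P : Ideal (𝓞 Ω)) (g τ : Gal(Ω/K)) (h : τ ∈ P.inertia Gal(Ω/K)) :
    g * τ * g⁻¹ ∈ (g • P).inertia Gal(Ω/K) := by
  intro x
  have h1 := h (g⁻¹ • x)
  change (g * τ * g⁻¹) • x - x ∈ g • P
  rw [Ideal.mem_pointwise_smul_iff_inv_smul_mem]
  have h2 : g⁻¹ • ((g * τ * g⁻¹) • x - x) = τ • (g⁻¹ • x) - g⁻¹ • x := by
    rw [smul_sub, mul_smul, mul_smul, inv_smul_smul]
  rw [h2]
  exact h1

variable {K : IntermediateField ℚ QBar} [NumberField K] {G : Type} [Group G] {k : KS G}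
  {χ : Gal(QBar/K) →* Equiv.Perm (Fin 3)} {c : Cu K} {t : Fin 3 → Gal(QBar/K)}

private theorem clr_above (c : Cu K) (P : Pl c.F) (l : Pl K) (hPl : Over P l) (h2 : ¬ Above 2 l) :
    ¬ Above 2 P := by
  intro h4
  apply h2
  have h5 : ((2 : ℕ) : 𝓞 c.F) ∈ P.asIdeal := h4
  change ((2 : ℕ) : 𝓞 K) ∈ l.asIdeal
  rw [← hPl, Ideal.mem_comap, map_natCast]
  exact h5

theorem cl_tv (H : Std χ c t) {cl : (Gal(QBar/K) →* G) → V2 c.F} (hcl : ClD k χ c cl)
    (S : Finset (Pl K)) (h2 : ∀ v : Pl K, Above 2 v → v ∈ S) (Q : DP K QBar)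
    (φ : Gal(QBar/K) →* G) (hφ : φ ∈ LW k χ) (l : Pl K) (hl : l ∉ S) :
    l ∈ qs k.pi Q S φ ↔ ∃ P : Pl c.F, Over P l ∧ oL c S (cl φ) P ≠ 0 := by
  obtain ⟨a, ha⟩ := v2_surj (cl φ)
  have hKa := (hcl.kc φ hφ a).1 ha
  have hab : ¬ Above 2 l := fun h => hl (h2 l h)
  have hcl' : IsAlgClosure c.F QBar := alg_cl c.F
  have hprim : IsPrimitiveRoot (-1 : c.F) 2 := neg_one_prim c.F
  have hord : ∀ P, Over P l → oL c S (cl φ) P = (ord P a : ZMod 2) := by
    intro P hP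
    rw [← ha, oL_v2, oF, if_neg]
    rintro ⟨v, hv, hPv⟩
    rw [below_unique hPv hP] at hv
    exact hl hv
  have hpi : ∀ σ, k.pi (φ σ) = χ σ := fun σ => DFunLike.congr_fun hφ.2 σ
  constructor
  · rintro ⟨-, σ, hσ, hne, h1⟩
    have hχ : χ σ = 1 := by rw [← hpi, h1]
    obtain ⟨i, hi⟩ : ∃ i, k.lam (φ σ) i ≠ 0 := by
      by_contra hcon
      push Not at hcon
      apply hne
      apply k.inj
      · rw [h1, map_one]
      · funext i
        rw [hcon i, ks_one]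
    obtain ⟨g, hg⟩ : ∃ g, g = (t i)⁻¹ := ⟨_, rfl⟩
    have hg0 : (χ g)⁻¹ 0 = i := by
      rw [hg, map_inv, inv_inv, H.ti]
    obtain ⟨h3, h4⟩ := cl_cj H φ hφ.2 g σ (by rw [hχ]; rfl)
    rw [hg0] at h4
    obtain ⟨s, hs⟩ := kx_ex c _ h3
    have h10 : kk 2 (-1 : c.F) a s ≠ 0 := by
      rw [← kx_kk, hs, hKa _ h3, h4]
      exact hi
    have hQp := Q.prime l
    have hB : (g • Q.P l).IsPrime := by
      infer_instance
    have hBK : (g • Q.P l).under (𝓞 K) = l.asIdeal := by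
      rw [Ideal.under_smul]
      exact Q.under l
    have hBF : ((g • Q.P l).under (𝓞 c.F)).comap (algebraMap (𝓞 K) (𝓞 c.F)) = l.asIdeal := by
      rw [← hBK]
      ext x
      exact Iff.rfl
    let P : Pl c.F :=
      { asIdeal := (g • Q.P l).under (𝓞 c.F)
        isPrime := Ideal.IsPrime.under _ _
        ne_bot := by
          intro h0
          apply l.ne_bot
          rw [← hBF, h0]
          exact Ideal.comap_bot_of_injective _ (FaithfulSMul.algebraMap_injective (𝓞 K) (𝓞 c.F)) }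
    have hPl : Over P l := hBF
    obtain ⟨π, hπ⟩ := exists_unif P
    have habP : ¬ Above 2 P := clr_above c P l hPl hab
    obtain ⟨L', hL'⟩ := H63.BU.uord_at QBar Nat.prime_two hprim habP hπ (g • Q.P l) hB rfl
    have h11 : s ∈ L'.P.inertia Gal(QBar/c.F) := by
      rw [hL']
      have h12 := loc_inr' (Q.P l) g σ hσ
      rw [← hs] at h12
      intro x
      exact h12 x
    have h13 := ld_kk Nat.prime_two hprim habP hπ L' s h11 a
    refine ⟨P, hPl, ?_⟩
    rw [hord P hPl]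
    intro h14
    rw [h14, zero_mul] at h13
    exact h10 h13
  · rintro ⟨P, hP, hne⟩
    rw [hord P hP] at hne
    refine ⟨hl, ?_⟩
    obtain ⟨B, hB, hBP⟩ := gloc_over c.F QBar P.asIdeal P.isPrime
    have hBl : B.under (𝓞 K) = l.asIdeal := by
      rw [← hP, ← hBP]
      ext x
      exact Iff.rfl
    have hQ := Q.under l
    obtain ⟨g, hg⟩ := loc_trans (K := K) (Q.P l) B (Q.prime l) hB (hQ.trans hBl.symm)
    obtain ⟨π, hπ⟩ := exists_unif P
    have habP : ¬ Above 2 P := clr_above c P l hP hab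
    obtain ⟨L', hL'⟩ := H63.BU.uord_at QBar Nat.prime_two hprim habP hπ B hB hBP
    have h6 := ld_kk_t Nat.prime_two hprim habP hπ L' a
    have h7 : (L'.t.restrictScalars K) ∈ (g • Q.P l).inertia Gal(QBar/K) := by
      rw [← hg]
      intro x
      have h8 := L'.ht
      rw [hL'] at h8
      exact h8 x
    have h8 := loc_inr (Q.P l) g _ h7
    obtain ⟨σ, hσ⟩ : ∃ σ : Gal(QBar/K), σ = L'.t.restrictScalars K := ⟨_, rfl⟩
    rw [← hσ] at h8
    have hfix : σ ∈ c.F.fixingSubgroup := by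
      rw [hσ]
      exact kx_fix c L'.t
    have h0 := (H.fix σ).1 hfix
    have h3 : χ (g⁻¹ * σ * g) ((χ g)⁻¹ 0) = (χ g)⁻¹ 0 := by
      rw [map_mul, map_mul, map_inv, Equiv.Perm.mul_apply, Equiv.Perm.mul_apply]
      have h4 : χ g ((χ g)⁻¹ 0) = 0 := (χ g).apply_symm_apply 0
      rw [h4, h0]
    have h5 := (cl_cj H φ hφ.2 g _ h3).2
    have h9 : g * (g⁻¹ * σ * g) * g⁻¹ = σ := by group
    have h11 : kx c a σ = (ord P a : ZMod 2) := by
      rw [hσ, kx_kk, h6]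
    rw [h9, ← hKa σ hfix, h11] at h5
    by_contra hcon
    push Not at hcon
    have h10 := ks_split k φ ((Q.P l).inertia Gal(QBar/K)) (fun τ hτ h1 => by
      by_contra hn
      exact hcon τ hτ hn h1) h8 ((χ g)⁻¹ 0) (by rw [hpi]; exact h3)
    rw [h10] at h5
    exact hne h5

theorem cl_nr (H : Std χ c t) {cl : (Gal(QBar/K) →* G) → V2 c.F} (hcl : ClD k χ c cl)
    (S : Finset (Pl K)) (h2 : ∀ v : Pl K, Above 2 v → v ∈ S) (Q : DP K QBar)
    (φ : Gal(QBar/K) →* G) (hφ : φ ∈ LW k χ) (Y : ℝ) :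
    (∀ q : Finset (Pl K), (∀ l ∈ q, l ∈ qs k.pi Q S φ) → nr q ≤ Y) ↔
      nrI c (oL c S (cl φ)) ≤ Y := by
  have hI := of_mem c S _ (hcl.va φ hφ)
  obtain ⟨T, hTd⟩ : ∃ T : Finset (Pl K), T = hI.1.toFinset.image (bl c) := ⟨_, rfl⟩
  have hTm : ∀ l, l ∈ T ↔ ∃ P : Pl c.F, Over P l ∧ oL c S (cl φ) P ≠ 0 := by
    intro l
    rw [hTd, Finset.mem_image]
    constructor
    · rintro ⟨P, hP, rfl⟩
      rw [Set.Finite.mem_toFinset] at hP
      exact ⟨P, bl_over c P, hP⟩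
    · rintro ⟨P, hP, hne⟩
      refine ⟨P, ?_, (bl_eq c P l).1 hP⟩
      rw [Set.Finite.mem_toFinset]
      exact hne
  have hT : ∀ l, l ∈ T ↔ l ∈ qs k.pi Q S φ := by
    intro l
    rw [hTm]
    constructor
    · rintro ⟨P, hP, hne⟩
      have hl : l ∉ S := fun h => hne (hI.2.1 P ⟨l, h, hP⟩)
      exact (cl_tv H hcl S h2 Q φ hφ l hl).2 ⟨P, hP, hne⟩
    · intro h
      exact (cl_tv H hcl S h2 Q φ hφ l h.1).1 h
  have hnr : nrI c (oL c S (cl φ)) = nr T := by
    unfold nrI nr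
    have hset : {l : Pl K | ∃ P : Pl c.F, Over P l ∧ oL c S (cl φ) P ≠ 0} = ↑T := by
      ext l
      rw [Finset.mem_coe, hTm]
      exact Iff.rfl
    rw [hset, finprod_mem_coe_finset]
  rw [hnr]
  constructor
  · intro h
    exact h T fun l hl => (hT l).1 hl
  · intro h q hq
    exact (nr_mono fun l hl => (hT l).2 (hq l hl)).trans h

end H48.SF
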