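import Pool.Agent.H48.SF.SDf
import Pool.Agent.H63.MA.KumA
import Pool.Agent.H63.MA.RayC

/-!
# [H48 SF EFA] ramification index, residue degree and the norm, 100-150 lines. File Pool/Agent/H48/SF/Efa.lean

`F = c.F`, `[F : K] = 3` (`c.deg`), `er c P = P.asIdeal.ramificationIdx (𝓞 K)`, `fr c P = P.asIdeal.inertiaDeg (𝓞 K)`, `bl c P` the prime below (`bl_over`, `bl_eq`), `ov c l` the finite set of the primes over `l` (`mem_ov`).
* `er_pos`, `fr_pos`, `fr_nm`, `er_ord`: the private lemmas `kumb_e_ne`, `kumb_nm`, `kumb_ord` at the beginning of Pool/Agent/H63/MA/KumB.lean (copy; `ramificationIdx'` versus `ramificationIdx`: see the proof of `gdisc` in Pool/Agent/H63/MA/GDisc.lean, lines 100-160, or Mathlib `Ideal.ramificationIdx`-lemmas).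
* `ef_sum`: `Ideal.sum_ramification_inertia_eq_finrank` as in H63/MA/GDisc.lean (`h2`, `h3` there). `ov_ne`: `exists_over`. `ov_le`: `ef_sum`, `er, fr ≥ 1`. `np_ov`: `Set.ncard_coe_finset`.
* `nm_ord`: first for integral `x`: `Ideal.relNorm (𝓞 K) (span {x}) = span {intNorm x}` (`Ideal.relNorm_singleton`), `Algebra.algebraMap_intNorm`; `relNorm` is multiplicative and `relNorm P = l ^ fr P` (`Ideal.relNorm_eq_pow_of_isMaximal`) for `P` over `l`; the order at `l` of an ideal is the multiplicity of `l` in its factorization, `span {x} = ∏ P ^ (ord P x)`. (The same is done for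
  ideals in Pool/Agent/H1/LS4/Nch.lean, Cor.lean: see `relNorm` there.) General `x = y / z`. (Another way: the product formula for `t i` is not needed.)
* `ov_diff`: `T ↦` the primes over `T`: finite, its number is the sum.
-/

set_option autoImplicit false
set_option linter.dupNamespace false

open scoped NumberField Classical Pointwise
open IsDedekindDomain H38.ML H63.MA

noncomputable section

namespace H48.SF

open H48.KV H67.SX H38.SE
open H48.T3 hiding Ch Fib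

variable {K : IntermediateField ℚ QBar} [NumberField K]

private theorem efa_lo (c : Cu K) (P : Pl c.F) : P.asIdeal.LiesOver (bl c P).asIdeal := ⟨(bl_over c P).symm⟩

theorem er_pos (c : Cu K) (P : Pl c.F) : 1 ≤ er c P := Ideal.ramificationIdx_pos P.asIdeal (𝓞 K)

theorem fr_pos (c : Cu K) (P : Pl c.F) : 1 ≤ fr c P := Ideal.inertiaDeg_pos P.asIdeal (𝓞 K)

theorem fr_nm (c : Cu K) (P : Pl c.F) : nm P = nm (bl c P) ^ fr c P := by
  have := efa_lo c P
  exact (Ideal.absNorm_pow_inertiaDeg (bl c P).asIdeal P.asIdeal).symm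

theorem er_ord (c : Cu K) (P : Pl c.F) (x : Kˣ) :
    ord P (inc K c.F x) = er c P * ord (bl c P) x := by
  have := efa_lo c P
  have h1 := HeightOneSpectrum.valuation_liesOver c.F (bl c P) P (x : K)
  have h2 : (bl c P).asIdeal.ramificationIdx' P.asIdeal = er c P :=
    Ideal.ramificationIdx'_eq_ramificationIdx' (bl c P).asIdeal P.asIdeal
      (Ideal.map_ne_bot_of_ne_bot (bl c P).ne_bot)
  unfold ord inc
  rw [Units.coe_map, MonoidHom.coe_coe, ← h1, WithZero.log_pow, h2]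
  simp

theorem ef_sum (c : Cu K) (l : Pl K) : ∑ P ∈ ov c l, er c P * fr c P = 3 := by
  have hpr : l.asIdeal.IsPrime := l.isPrime
  have hft : Fintype (l.asIdeal.primesOver (𝓞 c.F)) :=
    (IsDedekindDomain.primesOver_finite l.asIdeal (𝓞 c.F)).fintype
  have hinj : Function.Injective (fun P : Pl c.F => P.asIdeal) := fun _ _ h => HeightOneSpectrum.ext h
  have himg : (l.asIdeal.primesOver (𝓞 c.F)).toFinset = (ov c l).image (fun P : Pl c.F => P.asIdeal) := by
    ext I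
    rw [Set.mem_toFinset, Finset.mem_image]
    constructor
    · intro hI
      have h1 := hI.1
      have h2 := hI.2
      exact ⟨⟨I, hI.1, Ideal.ne_bot_of_liesOver_of_ne_bot l.ne_bot I⟩, (mem_ov c l _).2 h2.over.symm, rfl⟩
    · rintro ⟨P, hP, rfl⟩
      exact ⟨P.isPrime, ⟨((mem_ov c l P).1 hP).symm⟩⟩
  have h1 := Ideal.sum_ramification_inertia_eq_finrank l.asIdeal (𝓞 c.F)
  rw [Finset.sum_set_coe (l.asIdeal.primesOver (𝓞 c.F))
    (f := fun q : Ideal (𝓞 c.F) => q.ramificationIdx (𝓞 K) * q.inertiaDeg (𝓞 K)), himg,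
    Finset.sum_image hinj.injOn, ← IsFractionRing.finrank_eq (𝓞 K) K (𝓞 c.F) c.F, c.deg] at h1
  exact h1

theorem ov_ne (c : Cu K) (l : Pl K) : (ov c l).Nonempty := by
  obtain ⟨w, hw⟩ := exists_over (L := c.F) l
  exact ⟨w, (mem_ov c l w).2 hw⟩

theorem ov_le (c : Cu K) (l : Pl K) : (ov c l).card ≤ 3 := by
  rw [← ef_sum c l, Finset.card_eq_sum_ones]
  exact Finset.sum_le_sum fun P _ => Nat.mul_pos (er_pos c P) (fr_pos c P)

theorem np_ov (c : Cu K) (l : Pl K) : c.np l = (ov c l).card := by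
  unfold Cu.np
  rw [← Set.ncard_coe_finset]
  congr 1
  ext P
  exact (mem_ov c l P).symm

private theorem efa_rcm_one {M : Type} [Field M] [NumberField M] (v : Pl M) : rcm v (1 : Ideal (𝓞 M)) = 0 := by
  have h1 : (1 : Ideal (𝓞 M)) ≠ ⊥ := by rw [Ideal.one_eq_top]; exact top_ne_bot
  have h := rcm_mul v h1 h1
  rw [mul_one] at h
  omega

private theorem efa_rcm_pow {M : Type} [Field M] [NumberField M] (v w : Pl M) (n : ℕ) :
    rcm v (w.asIdeal ^ n) = n * rcm v w.asIdeal := by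
  induction n with
  | zero => rw [pow_zero, efa_rcm_one, zero_mul]
  | succ n ih =>
    rw [pow_succ, rcm_mul v (pow_ne_zero n w.ne_bot) w.ne_bot, ih]
    ring

private theorem efa_ideal (c : Cu K) (l : Pl K) (I : Ideal (𝓞 c.F)) (hI : I ≠ ⊥) :
    rcm l (Ideal.relNorm (𝓞 K) I) = ∑ P ∈ ov c l, fr c P * rcm P I := by
  revert hI
  refine UniqueFactorizationMonoid.induction_on_prime (P := fun I : Ideal (𝓞 c.F) => I ≠ ⊥ →
    rcm l (Ideal.relNorm (𝓞 K) I) = ∑ P ∈ ov c l, fr c P * rcm P I) I (fun h => absurd rfl h) ?_ ?_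
  · intro u hu _
    rw [Ideal.isUnit_iff] at hu
    rw [hu, ← Ideal.one_eq_top, map_one, efa_rcm_one, Finset.sum_eq_zero]
    intro P _
    rw [efa_rcm_one, mul_zero]
  · intro J p hJ hp ih _
    have hpb : p ≠ ⊥ := hp.ne_zero
    obtain ⟨P₀, rfl⟩ : ∃ P₀ : Pl c.F, P₀.asIdeal = p := ⟨⟨p, Ideal.isPrime_of_prime hp, hpb⟩, rfl⟩
    have hlo := efa_lo c P₀
    have hm : (bl c P₀).asIdeal.IsMaximal := (bl c P₀).isMaximal
    have hPm : P₀.asIdeal.IsMaximal := P₀.isMaximal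
    have h3 : Ideal.relNorm (𝓞 K) P₀.asIdeal = (bl c P₀).asIdeal ^ fr c P₀ :=
      Ideal.relNorm_eq_pow_of_isMaximal P₀.asIdeal (bl c P₀).asIdeal
    have h4 : Ideal.relNorm (𝓞 K) J ≠ ⊥ := fun h => hJ (Ideal.relNorm_eq_bot_iff.1 h)
    rw [map_mul, h3, rcm_mul l (pow_ne_zero _ (bl c P₀).ne_bot) h4, efa_rcm_pow, ih hJ]
    have h5 : ∀ P : Pl c.F, fr c P * rcm P (P₀.asIdeal * J) = fr c P * rcm P P₀.asIdeal + fr c P * rcm P J := by
      intro P
      rw [rcm_mul P P₀.ne_bot hJ]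
      ring
    rw [Finset.sum_congr rfl fun P _ => h5 P, Finset.sum_add_distrib]
    congr 1
    by_cases h6 : P₀ ∈ ov c l
    · have h7 : bl c P₀ = l := (bl_eq c P₀ l).1 ((mem_ov c l P₀).1 h6)
      rw [Finset.sum_eq_single_of_mem P₀ h6 fun P _ hP => by rw [rcm_ne hP, mul_zero], rcm_self, h7, rcm_self]
    · have h7 : l ≠ bl c P₀ := fun h => h6 ((mem_ov c l P₀).2 ((bl_eq c P₀ l).2 h.symm))
      rw [rcm_ne h7, mul_zero, Finset.sum_eq_zero]
      intro P hP
      have h8 : P ≠ P₀ := fun h => h6 (h ▸ hP)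
      rw [rcm_ne h8, mul_zero]

private theorem efa_int (c : Cu K) (l : Pl K) (x : c.Fˣ) (a : 𝓞 c.F) (ha : a ≠ 0)
    (hx : (x : c.F) = algebraMap (𝓞 c.F) c.F a) :
    ord l (Nm K c.F x) = ∑ P ∈ ov c l, (fr c P : ℤ) * ord P x := by
  have h1 : ((Nm K c.F x : Kˣ) : K) = algebraMap (𝓞 K) K (Algebra.intNorm (𝓞 K) (𝓞 c.F) a) := by
    rw [Algebra.algebraMap_intNorm (A := 𝓞 K) (K := K) (L := c.F) (B := 𝓞 c.F), ← hx]
    rfl
  have h2 : Algebra.intNorm (𝓞 K) (𝓞 c.F) a ≠ 0 := by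
    intro h
    rw [h, map_zero] at h1
    exact (Nm K c.F x).ne_zero h1
  have h3 : Ideal.span {a} ≠ ⊥ := by
    rw [Ne, Ideal.span_singleton_eq_bot]
    exact ha
  rw [rcm_ord l h2 h1, ← Ideal.relNorm_singleton, efa_ideal c l _ h3]
  push_cast
  refine Finset.sum_congr rfl fun P _ => ?_
  rw [rcm_ord P ha hx]

theorem nm_ord (c : Cu K) (l : Pl K) (x : c.Fˣ) :
    ord l (Nm K c.F x) = ∑ P ∈ ov c l, (fr c P : ℤ) * ord P x := by
  obtain ⟨a, b, hb, hab⟩ := IsFractionRing.div_surjective (A := 𝓞 c.F) (x : c.F)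
  have hb0 : b ≠ 0 := nonZeroDivisors.ne_zero hb
  have ha0 : a ≠ 0 := by
    rintro rfl
    rw [map_zero, zero_div] at hab
    exact x.ne_zero hab.symm
  have hinj := FaithfulSMul.algebraMap_injective (𝓞 c.F) c.F
  have ha1 : algebraMap (𝓞 c.F) c.F a ≠ 0 := fun h => ha0 (hinj (h.trans (map_zero _).symm))
  have hb1 : algebraMap (𝓞 c.F) c.F b ≠ 0 := fun h => hb0 (hinj (h.trans (map_zero _).symm))
  obtain ⟨u, hu⟩ : ∃ u : c.Fˣ, u = Units.mk0 _ ha1 := ⟨_, rfl⟩
  obtain ⟨w, hw⟩ : ∃ w : c.Fˣ, w = Units.mk0 _ hb1 := ⟨_, rfl⟩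
  have hu' := efa_int c l u a ha0 (by rw [hu]; rfl)
  have hw' := efa_int c l w b hb0 (by rw [hw]; rfl)
  have hx : x = u * w⁻¹ := by
    apply Units.ext
    rw [Units.val_mul, Units.val_inv_eq_inv_val, hu, hw, ← div_eq_mul_inv]
    exact hab.symm
  rw [hx, map_mul, map_inv, ord_mul, ord_inv, hu', hw', ← sub_eq_add_neg, ← Finset.sum_sub_distrib]
  refine Finset.sum_congr rfl fun P _ => ?_
  rw [ord_mul, ord_inv]
  ring

theorem tov_card (c : Cu K) (T : Finset (Pl K)) :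
    ∃ TF : Finset (Pl c.F), (∀ P, P ∈ TF ↔ OvS c T P) ∧ TF.card = ∑ l ∈ T, (ov c l).card := by
  refine ⟨T.biUnion (ov c), fun P => ?_, ?_⟩
  · rw [Finset.mem_biUnion]
    constructor
    · rintro ⟨l, hl, hP⟩
      exact ⟨l, hl, (mem_ov c l P).1 hP⟩
    · rintro ⟨l, hl, hP⟩
      exact ⟨l, hl, (mem_ov c l P).2 hP⟩
  · apply Finset.card_biUnion
    intro l _ l' _ hne
    show Disjoint (ov c l) (ov c l')
    rw [Finset.disjoint_left]
    intro P hP hP'
    exact hne (below_unique ((mem_ov c l P).1 hP) ((mem_ov c l' P).1 hP'))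

end H48.SF
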