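import Pool.Agent.H48.SF.EvC
import Pool.Agent.H48.SF.GvI
import Pool.Agent.H63.MA.AFin
import Pool.Agent.H48.T3.LAb

/-!
# [H48 SF GIS] sums over the families of parities, 110-160 lines. File Pool/Agent/H48/SF/GiS.lean

A family `g ∈ Ig c S` is the same as a finite set `q` of primes `l ∉ S` (those below the support) with a set `g_l ∈ c.Ev l` for every `l ∈ q` (`g_l` = the `P` over `l` with `g P = 1`; `∑_{P | l} fr P * g P = ∑_{P ∈ g_l} fr P = 0`, `ev_iff`). `nrI c g = nr q` (`nrI`: product of `nm l` over the `l` below the support; `nr q = ∏_{l ∈ q} nm l`).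
`sg (ψ g) = ∏_{P ∈ supp g} sg (ψ (gv P))` by `gv_exp` (`ψ g = ∑_{P ∈ supp} ψ (gv P)`; `sg_add`, LAb.lean of T3) `= ∏_{l ∈ q} ∏_{P ∈ g_l} sg (ψ (gv P))`. So `∑_{g} sg (ψ g) = ∑_q ∑_{(g_l)} ∏_l ∏_{P ∈ g_l} .. = ∑_q ∏_l ∑_{g ∈ Ev l} ..` (`Finset.prod_univ_sum` / `Finset.prod_sum` with `Finset.pi`; `finsum_mem_eq_finite_toFinset_sum` with `ev_fin`). `Gs` = the image
of the finite set of pairs `(q, (g_l))`, `q ∈ AS K S Y`. `AS K S Y` is the set of the `q ∈ AF K Y` with all `l ∉ S` (H67/SX/Defs.lean); `mem_AF`: `q ∈ AF K Y ↔ nr q ≤ Y` (Pool/Agent/H57/LI or H48/T3/ApA.lean imports it: see there).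
`gi_card`: `gi_sum` with `ψ = 0` (`sg 0 = 1`): every inner sum is the number of elements of `Ev l`, `ev_card`.
-/

set_option autoImplicit false
set_option linter.dupNamespace false

open scoped NumberField Classical Pointwise
open IsDedekindDomain H38.ML H63.MA

noncomputable section

namespace H48.SF

open H48.KV H67.SX H38.SE
open H48.T3 hiding Ch Fib

variable {K : IntermediateField ℚ QBar} [NumberField K]

private theorem gis_ovs (c : Cu K) (S : Finset (Pl K)) (P : Pl c.F) : OvS c S P ↔ bl c P ∈ S :=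
  ⟨fun ⟨_, hl, ho⟩ => (bl_eq c P _).1 ho ▸ hl, fun h => ⟨bl c P, h, bl_over c P⟩⟩

private theorem gis_ov (c : Cu K) (l : Pl K) (P : Pl c.F) : P ∈ ov c l ↔ bl c P = l := by
  rw [mem_ov, bl_eq]

/-- the family with support `U` -/
private def gU (c : Cu K) (U : Finset (Pl c.F)) : Pl c.F → ZMod 2 := fun P => if P ∈ U then 1 else 0

private theorem gU_supp (c : Cu K) (U : Finset (Pl c.F)) (P : Pl c.F) : gU c U P ≠ 0 ↔ P ∈ U := by
  unfold gU
  split_ifs with h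
  · exact ⟨fun _ => h, fun _ => one_ne_zero⟩
  · exact ⟨fun h' => absurd rfl h', fun h' => absurd h' h⟩

/-- the union of the sets over the primes of `q` -/
private def uS (c : Cu K) (x : (q : Finset (Pl K)) × (∀ l ∈ q, Finset (Pl c.F))) : Finset (Pl c.F) :=
  x.1.attach.biUnion fun l => x.2 l.1 l.2

private def iS (c : Cu K) (S : Finset (Pl K)) (Y : ℝ) :
    Finset ((q : Finset (Pl K)) × (∀ l ∈ q, Finset (Pl c.F))) :=
  (AS K S Y).sigma fun q => q.pi fun l => (ev_fin c l).toFinset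

private theorem mem_iS (c : Cu K) (S : Finset (Pl K)) (Y : ℝ)
    (x : (q : Finset (Pl K)) × (∀ l ∈ q, Finset (Pl c.F))) :
    x ∈ iS c S Y ↔ (nr x.1 ≤ Y ∧ ∀ l ∈ x.1, l ∉ S) ∧ ∀ l (hl : l ∈ x.1), x.2 l hl ∈ c.Ev l := by
  unfold iS AS
  rw [Finset.mem_sigma, Finset.mem_filter, mem_AF, Finset.mem_pi]
  simp only [Set.Finite.mem_toFinset]

private theorem mem_uS (c : Cu K) {x : (q : Finset (Pl K)) × (∀ l ∈ q, Finset (Pl c.F))}
    (hx : ∀ l (hl : l ∈ x.1), x.2 l hl ∈ c.Ev l) (P : Pl c.F) :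
    P ∈ uS c x ↔ ∃ h : bl c P ∈ x.1, P ∈ x.2 (bl c P) h := by
  unfold uS
  rw [Finset.mem_biUnion]
  constructor
  · rintro ⟨⟨l, hl⟩, -, hP⟩
    have h1 := (ev_iff c l _).1 (hx l hl)
    have h2 : bl c P = l := (gis_ov c l P).1 (h1.2.1 hP)
    subst h2
    exact ⟨hl, hP⟩
  · rintro ⟨h, hP⟩
    exact ⟨⟨bl c P, h⟩, Finset.mem_attach _ _, hP⟩

private theorem uS_inj (c : Cu K) {x y : (q : Finset (Pl K)) × (∀ l ∈ q, Finset (Pl c.F))}
    (hx : ∀ l (hl : l ∈ x.1), x.2 l hl ∈ c.Ev l) (hy : ∀ l (hl : l ∈ y.1), y.2 l hl ∈ c.Ev l)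
    (h : uS c x = uS c y) : x = y := by
  have h1 : ∀ {x y : (q : Finset (Pl K)) × (∀ l ∈ q, Finset (Pl c.F))},
      (∀ l (hl : l ∈ x.1), x.2 l hl ∈ c.Ev l) → (∀ l (hl : l ∈ y.1), y.2 l hl ∈ c.Ev l) →
      uS c x = uS c y → x.1 ⊆ y.1 := by
    intro x y hx hy h l hl
    obtain ⟨h2, h3, -⟩ := (ev_iff c l _).1 (hx l hl)
    obtain ⟨P, hP⟩ := h2
    have h4 : bl c P = l := (gis_ov c l P).1 (h3 hP)
    subst h4
    have h5 : P ∈ uS c x := (mem_uS c hx P).2 ⟨hl, hP⟩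
    rw [h] at h5
    exact ((mem_uS c hy P).1 h5).1
  obtain ⟨q, f⟩ := x
  obtain ⟨q', f'⟩ := y
  have h2 : q = q' := Finset.Subset.antisymm (h1 hx hy h) (h1 hy hx h.symm)
  subst h2
  congr 1
  funext l hl
  ext P
  constructor
  · intro hP
    have h4 : bl c P = l := (gis_ov c l P).1 (((ev_iff c l _).1 (hx l hl)).2.1 hP)
    subst h4
    have h5 : P ∈ uS c ⟨q, f⟩ := (mem_uS c hx P).2 ⟨hl, hP⟩
    rw [h] at h5
    exact ((mem_uS c hy P).1 h5).2
  · intro hP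
    have h4 : bl c P = l := (gis_ov c l P).1 (((ev_iff c l _).1 (hy l hl)).2.1 hP)
    subst h4
    have h5 : P ∈ uS c ⟨q, f'⟩ := (mem_uS c hy P).2 ⟨hl, hP⟩
    rw [← h] at h5
    exact ((mem_uS c hx P).1 h5).2

private theorem gU_inj (c : Cu K) {U U' : Finset (Pl c.F)} (h : gU c U = gU c U') : U = U' := by
  ext P
  rw [← gU_supp c U, ← gU_supp c U', h]

private theorem gU_mem (c : Cu K) (S : Finset (Pl K)) (Y : ℝ)
    {x : (q : Finset (Pl K)) × (∀ l ∈ q, Finset (Pl c.F))} (h : x ∈ iS c S Y) :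
    gU c (uS c x) ∈ Ig c S ∧ nrI c (gU c (uS c x)) ≤ Y := by
  rw [mem_iS] at h
  obtain ⟨⟨h1, h2⟩, h3⟩ := h
  refine ⟨⟨?_, fun P hP => ?_, fun l => ?_⟩, ?_⟩
  · refine (Finset.finite_toSet (uS c x)).subset fun P hP => ?_
    exact (gU_supp c _ P).1 hP
  · by_contra h4
    obtain ⟨h5, -⟩ := (mem_uS c h3 P).1 ((gU_supp c _ P).1 h4)
    exact h2 _ h5 ((gis_ovs c S P).1 hP)
  · by_cases hl : l ∈ x.1
    · obtain ⟨-, h4, h5⟩ := (ev_iff c l _).1 (h3 l hl)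
      rw [← h5]
      symm
      have h6 : ∀ P ∈ x.2 l hl, (fr c P : ZMod 2) = (fr c P : ZMod 2) * gU c (uS c x) P := by
        intro P hP
        have h7 : bl c P = l := (gis_ov c l P).1 (h4 hP)
        subst h7
        have h8 : P ∈ uS c x := (mem_uS c h3 P).2 ⟨hl, hP⟩
        unfold gU
        rw [if_pos h8, mul_one]
      rw [Finset.sum_congr rfl h6]
      refine Finset.sum_subset h4 fun P hP hP' => ?_
      have h7 : bl c P = l := (gis_ov c l P).1 hP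
      subst h7
      have h8 : P ∉ uS c x := fun h => hP' ((mem_uS c h3 P).1 h).2
      unfold gU
      rw [if_neg h8, mul_zero]
    · refine Finset.sum_eq_zero fun P hP => ?_
      have h7 : bl c P = l := (gis_ov c l P).1 hP
      have h8 : P ∉ uS c x := fun h => hl (h7 ▸ ((mem_uS c h3 P).1 h).1)
      unfold gU
      rw [if_neg h8, mul_zero]
  · have h4 : {l : Pl K | ∃ P : Pl c.F, Over P l ∧ gU c (uS c x) P ≠ 0} = (x.1 : Set (Pl K)) := by
      ext l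
      rw [Set.mem_ofPred_eq, Finset.mem_coe]
      constructor
      · rintro ⟨P, hP, h5⟩
        rw [bl_eq] at hP
        rw [← hP]
        exact ((mem_uS c h3 P).1 ((gU_supp c _ P).1 h5)).1
      · intro hl
        obtain ⟨⟨P, hP⟩, h4, -⟩ := (ev_iff c l _).1 (h3 l hl)
        have h7 : bl c P = l := (gis_ov c l P).1 (h4 hP)
        refine ⟨P, (bl_eq c P l).2 h7, (gU_supp c _ P).2 ?_⟩
        subst h7
        exact (mem_uS c h3 P).2 ⟨hl, hP⟩
    unfold nrI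
    rw [h4, finprod_mem_coe_finset]
    exact h1

private theorem gU_ex (c : Cu K) (S : Finset (Pl K)) (Y : ℝ) {g : Pl c.F → ZMod 2} (hg : g ∈ Ig c S)
    (hn : nrI c g ≤ Y) : ∃ x ∈ iS c S Y, gU c (uS c x) = g := by
  obtain ⟨h1, h2, h3⟩ := hg
  obtain ⟨U, hU⟩ : ∃ U : Finset (Pl c.F), ∀ P, P ∈ U ↔ g P ≠ 0 := by
    refine ⟨h1.toFinset, fun P => ?_⟩
    rw [Set.Finite.mem_toFinset, Function.mem_support]
  have hg1 : ∀ P, g P = if P ∈ U then 1 else 0 := by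
    intro P
    split_ifs with h
    · rcases (show ∀ r : ZMod 2, r = 0 ∨ r = 1 by decide) (g P) with h4 | h4
      · exact absurd h4 ((hU P).1 h)
      · exact h4
    · by_contra h4
      exact h ((hU P).2 h4)
  obtain ⟨x, hx⟩ : ∃ x : (q : Finset (Pl K)) × (∀ l ∈ q, Finset (Pl c.F)),
      x = ⟨U.image (bl c), fun l _ => U.filter fun P => bl c P = l⟩ := ⟨_, rfl⟩
  have hx3 : ∀ l (hl : l ∈ x.1), x.2 l hl ∈ c.Ev l := by
    subst hx
    intro l hl
    rw [ev_iff]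
    refine ⟨?_, fun P hP => ?_, ?_⟩
    · obtain ⟨P, hP, hPl⟩ := Finset.mem_image.1 hl
      exact ⟨P, Finset.mem_filter.2 ⟨hP, hPl⟩⟩
    · exact (gis_ov c l P).2 (Finset.mem_filter.1 hP).2
    · rw [← h3 l]
      have h6 : ∀ P ∈ U.filter (fun P => bl c P = l), (fr c P : ZMod 2) = (fr c P : ZMod 2) * g P := by
        intro P hP
        rw [hg1 P, if_pos (Finset.mem_filter.1 hP).1, mul_one]
      refine (Finset.sum_congr rfl h6).trans ?_
      refine Finset.sum_subset (fun P hP => (gis_ov c l P).2 (Finset.mem_filter.1 hP).2) fun P hP hP' => ?_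
      have h7 : P ∉ U := fun h => hP' (Finset.mem_filter.2 ⟨h, (gis_ov c l P).1 hP⟩)
      rw [hg1 P, if_neg h7, mul_zero]
  have hux : uS c x = U := by
    ext P
    rw [mem_uS c hx3]
    subst hx
    constructor
    · rintro ⟨h0, h⟩
      exact (Finset.mem_filter.1 h).1
    · intro h
      exact ⟨Finset.mem_image_of_mem _ h, Finset.mem_filter.2 ⟨h, rfl⟩⟩
  refine ⟨x, ?_, ?_⟩
  · rw [mem_iS]
    refine ⟨⟨?_, fun l hl hS => ?_⟩, hx3⟩
    · have h4 : {l : Pl K | ∃ P : Pl c.F, Over P l ∧ g P ≠ 0} = (x.1 : Set (Pl K)) := by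
        subst hx
        ext l
        rw [Set.mem_ofPred_eq, Finset.mem_coe, Finset.mem_image]
        constructor
        · rintro ⟨P, hP, h5⟩
          exact ⟨P, (hU P).2 h5, (bl_eq c P l).1 hP⟩
        · rintro ⟨P, hP, h5⟩
          exact ⟨P, (bl_eq c P l).2 h5, (hU P).1 hP⟩
      unfold nrI at hn
      rw [h4, finprod_mem_coe_finset] at hn
      exact hn
    · subst hx
      obtain ⟨P, hP, hPl⟩ := Finset.mem_image.1 hl
      exact (hU P).1 hP (h2 P ((gis_ovs c S P).2 (by rw [hPl]; exact hS)))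
  · funext P
    rw [hux]
    exact (hg1 P).symm

private theorem sg_sum {ι' : Type*} (s : Finset ι') (f : ι' → ZMod 2) : sg (∑ i ∈ s, f i) = ∏ i ∈ s, sg (f i) := by
  induction s using Finset.induction_on with
  | empty => simp [sg]
  | insert a s ha ih => rw [Finset.sum_insert ha, Finset.prod_insert ha, sg_add, ih]

private theorem sg_gU (c : Cu K) (S : Finset (Pl K)) (Y : ℝ)
    {x : (q : Finset (Pl K)) × (∀ l ∈ q, Finset (Pl c.F))} (h : x ∈ iS c S Y)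
    (ψ : (Pl c.F → ZMod 2) →ₗ[ZMod 2] ZMod 2) :
    sg (ψ (gU c (uS c x))) = ∏ l ∈ x.1.attach, ∏ P ∈ x.2 l.1 l.2, sg (ψ (gv c S P)) := by
  have h1 := (gU_mem c S Y h).1
  have h3 := ((mem_iS c S Y x).1 h).2
  have h2 := gv_exp c S _ h1 (uS c x) fun P hP => by
    unfold gU
    rw [if_neg hP]
  have h4 : ψ (gU c (uS c x)) = ∑ P ∈ uS c x, ψ (gv c S P) := by
    conv_lhs => rw [h2]
    rw [map_sum]
    refine Finset.sum_congr rfl fun P hP => ?_
    unfold gU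
    rw [if_pos hP, one_smul]
  rw [h4, sg_sum]
  unfold uS
  rw [Finset.prod_biUnion]
  intro l _ l' _ hll
  rw [Function.onFun, Finset.disjoint_left]
  intro P hP hP'
  apply hll
  apply Subtype.ext
  have e1 : bl c P = l.1 := (gis_ov c l.1 P).1 (((ev_iff c l.1 _).1 (h3 l.1 l.2)).2.1 hP)
  have e2 : bl c P = l'.1 := (gis_ov c l'.1 P).1 (((ev_iff c l'.1 _).1 (h3 l'.1 l'.2)).2.1 hP')
  rw [← e1, e2]

theorem gi_sum (c : Cu K) (S : Finset (Pl K)) (Y : ℝ) : ∃ Gs : Finset (Pl c.F → ZMod 2),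
    (∀ g, g ∈ Gs ↔ g ∈ Ig c S ∧ nrI c g ≤ Y) ∧ (Gs.card : ℝ) = c.mq S Y ∧
    ∀ ψ : (Pl c.F → ZMod 2) →ₗ[ZMod 2] ZMod 2,
      ∑ g ∈ Gs, sg (ψ g) =
        ∑ q ∈ AS K S Y, ∏ l ∈ q, ∑ᶠ g ∈ c.Ev l, ∏ P ∈ g, sg (ψ (gv c S P)) := by
  obtain ⟨Gs, hGs⟩ : ∃ Gs : Finset (Pl c.F → ZMod 2), Gs = (iS c S Y).image fun x => gU c (uS c x) := ⟨_, rfl⟩
  have hinj : Set.InjOn (fun x => gU c (uS c x)) (iS c S Y : Set ((q : Finset (Pl K)) × (∀ l ∈ q, Finset (Pl c.F)))) := by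
    intro x hx y hy h
    exact uS_inj c ((mem_iS c S Y x).1 hx).2 ((mem_iS c S Y y).1 hy).2 (gU_inj c h)
  have hsum : ∀ ψ : (Pl c.F → ZMod 2) →ₗ[ZMod 2] ZMod 2,
      ∑ g ∈ Gs, sg (ψ g) =
        ∑ q ∈ AS K S Y, ∏ l ∈ q, ∑ᶠ g ∈ c.Ev l, ∏ P ∈ g, sg (ψ (gv c S P)) := by
    intro ψ
    rw [hGs, Finset.sum_image hinj]
    rw [Finset.sum_congr rfl fun x hx => sg_gU c S Y hx ψ]
    unfold iS
    rw [Finset.sum_sigma]
    refine Finset.sum_congr rfl fun q _ => ?_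
    rw [Finset.prod_congr rfl fun l _ => finsum_mem_eq_finite_toFinset_sum _ (ev_fin c l), Finset.prod_sum]
  refine ⟨Gs, fun g => ?_, ?_, hsum⟩
  · rw [hGs, Finset.mem_image]
    constructor
    · rintro ⟨x, hx, rfl⟩
      exact gU_mem c S Y hx
    · rintro ⟨h1, h2⟩
      exact gU_ex c S Y h1 h2
  · have h1 := hsum 0
    have h2 : ∀ x : Pl c.F → ZMod 2, sg ((0 : (Pl c.F → ZMod 2) →ₗ[ZMod 2] ZMod 2) x) = 1 := by
      intro x
      rw [LinearMap.zero_apply]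
      unfold sg
      rw [if_pos rfl]
    simp only [h2, Finset.prod_const_one, Finset.sum_const, nsmul_eq_mul, mul_one] at h1
    rw [h1]
    unfold Cu.mq
    refine Finset.sum_congr rfl fun q _ => Finset.prod_congr rfl fun l _ => ?_
    rw [← ev_card c l, finsum_mem_eq_finite_toFinset_sum _ (ev_fin c l), Finset.sum_const, nsmul_eq_mul, mul_one,
      Set.ncard_eq_toFinset_card _ (ev_fin c l)]

theorem mq_le (c : Cu K) (S : Finset (Pl K)) (Y : ℝ) :
    c.mq S Y ≤ ∑ q ∈ AS K S Y, (3 : ℝ) ^ q.card := by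
  unfold Cu.mq
  refine Finset.sum_le_sum fun q _ => ?_
  rw [← Finset.prod_const]
  refine Finset.prod_le_prod (fun l _ => ?_) fun l _ => ?_
  · unfold Cu.lam
    have : (1 : ℝ) ≤ 2 ^ (c.np l - 1) := one_le_pow₀ (by norm_num)
    linarith
  · unfold Cu.lam
    have h1 : c.np l ≤ 3 := by
      rw [np_ov]
      exact ov_le c l
    have h2 : (2 : ℝ) ^ (c.np l - 1) ≤ 2 ^ 2 := pow_le_pow_right₀ (by norm_num) (by omega)
    linarith

end H48.SF
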