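import Pool.Agent.H48.SF.LtA
import Pool.Agent.H48.SF.Ogv
import Pool.Agent.H48.SF.GvI

/-!
# [H48 SF QCP] functionals on the parities give ray class characters, 60-100 lines. File Pool/Agent/H48/SF/QcP.lean

`ψ` vanishes on `oL (VA ⊓ VL)`, `θ P = ψ (gv c S P)`. Pattern: Pool/Agent/H48/T3/QcP.lean.
* `tri`: `gv_tri`, `map_sum`, `map_smul`.
* `IsRay.zero`: a prime `P` of `c.F` dividing `(mS S) 𝓞` contains `8` or some `v ∈ S`; a prime which contains `8` lies above 2, and the prime of `K` below it is above 2, so in `S` (`h2`). So `P` is over `S` and `gv c S P = 0` (`gv_zero`).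
* `IsRay.ray`: `x = a ∈ 𝓞`, `a - 1 ∈ (mS S) 𝓞`: `LTr c S x` (`ltr_ray`), so `b = x * inc (Nm x)` has `LTr` (`ltr_nrm`, `ltr_mul`) and square norm (`og_sq`): `v2 b ∈ VA ⊓ VL`, `ψ (oF c S b) = 0` (`oL_v2`). With `E` = the finite set of the `P` with `ord P x ≠ 0` (`finite_ord`) `og_sum` gives `0 = ∑_{P ∈ E} (ord P x) ψ (gv P) = ∑ᶠ P, θ P * ord P x`.
* `qc_inj`: `gv_exp`.
-/

set_option autoImplicit false
set_option linter.dupNamespace false

open scoped NumberField Classical Pointwise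
open IsDedekindDomain H38.ML H63.MA

noncomputable section

namespace H48.SF

open H48.KV H67.SX H38.SE
open H48.T3 hiding Ch Fib

variable {K : IntermediateField ℚ QBar} [NumberField K]

private theorem qc_over (c : Cu K) (S : Finset (Pl K)) (h2 : ∀ v : Pl K, Above 2 v → v ∈ S) (P : Pl c.F)
    (hP : P.asIdeal ∣ H57.LI.md (mS S) c.F) : OvS c S P := by
  obtain ⟨l, hl⟩ := exists_below (K := K) P
  refine ⟨l, ?_, hl⟩
  have h1 : mS S ≤ l.asIdeal := by
    have h3 := Ideal.le_of_dvd hP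
    unfold H57.LI.md at h3
    rw [Ideal.map_le_iff_le_comap] at h3
    exact h3.trans (le_of_eq hl)
  unfold mS at h1
  rcases (Ideal.IsPrime.mul_le l.isPrime).1 h1 with h3 | h3
  · apply h2
    have h4 : (8 : 𝓞 K) ∈ l.asIdeal := h3 (Ideal.mem_span_singleton_self 8)
    have h5 : ((2 : 𝓞 K)) ^ 3 ∈ l.asIdeal := by
      have h6 : (2 : 𝓞 K) ^ 3 = 8 := by norm_num
      rw [h6]
      exact h4
    have h7 := l.isPrime.mem_of_pow_mem 3 h5
    unfold Above
    exact_mod_cast h7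
  · obtain ⟨v, hv, h4⟩ := (Ideal.IsPrime.prod_le l.isPrime).1 h3
    have h5 : v = l := HeightOneSpectrum.ext (v.isMaximal.eq_of_le l.isPrime.ne_top h4)
    rw [← h5]
    exact hv

theorem qc_psi (hi : MOne 2 K) (c : Cu K) (S : Finset (Pl K))
    (h2 : ∀ v : Pl K, Above 2 v → v ∈ S) (ψ : (Pl c.F → ZMod 2) →ₗ[ZMod 2] ZMod 2)
    (hψ : ∀ x ∈ VA c ⊓ VL c S, ψ (oL c S x) = 0) : QC c S fun P => ψ (gv c S P) := by
  refine ⟨⟨fun P hP => ?_, fun x a hxa ha => ?_⟩, fun l => ?_⟩
  · show ψ (gv c S P) = 0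
    rw [gv_zero c S P (qc_over c S h2 P hP), map_zero]
  · have hx : LTr c S x := ltr_ray hi c S x a hxa ha
    have h3 := hψ (v2 (x * inc K c.F (Nm K c.F x)))
      ⟨(mem_VA c _).2 (og_sq c x), (mem_VL c S _).2 (ltr_mul c S hx (ltr_nrm c S x hx))⟩
    rw [oL_v2, og_sum c S x (finite_ord x).toFinset (fun P hP => by
      by_contra h
      exact hP ((finite_ord x).mem_toFinset.2 h)), map_sum] at h3
    rw [finsum_eq_sum_of_support_subset (s := (finite_ord x).toFinset)]
    · rw [← h3]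
      refine Finset.sum_congr rfl fun P _ => ?_
      rw [map_smul, smul_eq_mul, mul_comm]
    · intro P hP
      rw [Finset.mem_coe, (finite_ord x).mem_toFinset]
      intro h
      apply hP
      show ψ (gv c S P) * ((ord P x : ℤ) : ZMod 2) = 0
      have h0 : ord P x = 0 := h
      rw [h0, Int.cast_zero, mul_zero]
  · show ∑ P ∈ ov c l, (er c P : ZMod 2) * ψ (gv c S P) = 0
    have h1 := congrArg ψ (gv_tri c S l)
    rw [map_sum, map_zero] at h1
    rw [← h1]
    refine Finset.sum_congr rfl fun P _ => ?_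
    rw [map_smul, smul_eq_mul]

theorem qc_inj (c : Cu K) (S : Finset (Pl K)) (ψ ψ' : (Pl c.F → ZMod 2) →ₗ[ZMod 2] ZMod 2)
    (h : ∀ P, ψ (gv c S P) = ψ' (gv c S P)) : ∀ g ∈ Ig c S, ψ g = ψ' g := by
  intro g hg
  have h1 := gv_exp c S g hg hg.1.toFinset (fun P hP => by
    by_contra h0
    exact hP ((Set.Finite.mem_toFinset hg.1).2 h0))
  rw [h1, map_sum, map_sum]
  refine Finset.sum_congr rfl fun P _ => ?_
  rw [map_smul, map_smul, h P]

end H48.SF
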