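import Pool.Agent.H48.SF.Efa

/-!
# [H48 SF TIN] the cardinality of `IT`, 90-140 lines. File Pool/Agent/H48/SF/TIn.lean

`g ∈ IT c S T` (`mem_IT`): finite support, `g P = 0` for `P` over `S` and for `P` not over `T`, `∑_{P | l} fr P * g P = 0` for all `l`. For `l ∈ T`, `l ∉ S` choose `P_l` over `l` with `fr P_l` odd (`ef_sum`: the sum `∑ er * fr = 3` is odd). `g` is determined by its values at the `P` over `l`, `P ≠ P_l`, `l ∈ T \ S` (`g P_l = ∑_{P ≠ P_l} fr P * g P`), which can be chosen
arbitrarily: a bijection from `IT c S T` onto the functions from `X = {P | bl P ∈ T, bl P ∉ S, P ≠ P_{bl P}}` to `ZMod 2`; `#X = ∑_{l ∈ T \ S} (#ov l - 1)`. (`Nat.card_fun`, `Finset.card_biUnion` or `tov_card`.)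
-/

set_option autoImplicit false
set_option linter.dupNamespace false

open scoped NumberField Classical Pointwise
open IsDedekindDomain H38.ML H63.MA

noncomputable section

namespace H48.SF

open H48.KV H67.SX H38.SE
open H48.T3 hiding Ch Fib

variable {K : IntermediateField ℚ QBar} [NumberField K]

section aux

variable {X Y : Type}

private def tinA (π : X → Y) (fib : Y → Finset X) (w : X → ZMod 2) (U : Finset Y) : Set (X → ZMod 2) :=
  {g | (∀ x, π x ∉ U → g x = 0) ∧ ∀ y, ∑ x ∈ fib y, w x * g x = 0}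

private def tinZ (fib : Y → Finset X) (p : Y → X) (U : Finset Y) : Finset X :=
  U.biUnion fun y => (fib y).erase (p y)

private theorem tin_bij (π : X → Y) (fib : Y → Finset X) (hfib : ∀ x y, x ∈ fib y ↔ π x = y) (w : X → ZMod 2)
    (p : Y → X) (hp : ∀ y, π (p y) = y) (hw : ∀ y, w (p y) = 1) (U : Finset Y) :
    Function.Bijective (fun (g : tinA π fib w U) (z : tinZ fib p U) => (g.1 z.1 : ZMod 2)) := by
  have hZ : ∀ x, x ∈ tinZ fib p U ↔ π x ∈ U ∧ x ≠ p (π x) := by
    intro x
    unfold tinZ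
    rw [Finset.mem_biUnion]
    constructor
    · rintro ⟨y, hy, hx⟩
      rw [Finset.mem_erase, hfib] at hx
      obtain ⟨h1, rfl⟩ := hx
      exact ⟨hy, h1⟩
    · rintro ⟨h1, h2⟩
      exact ⟨π x, h1, Finset.mem_erase.2 ⟨h2, (hfib x _).2 rfl⟩⟩
  constructor
  · rintro ⟨g, hg⟩ ⟨g', hg'⟩ hgg
    apply Subtype.ext
    funext x
    change g x = g' x
    have h0 : ∀ x, x ≠ p (π x) → g x = g' x := by
      intro x hx
      by_cases hxU : π x ∈ U
      · exact congrFun hgg ⟨x, (hZ x).2 ⟨hxU, hx⟩⟩
      · rw [hg.1 x hxU, hg'.1 x hxU]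
    by_cases hx : x = p (π x)
    · have h1 := hg.2 (π x)
      have h2 := hg'.2 (π x)
      have hmem : x ∈ fib (π x) := (hfib x _).2 rfl
      have hwx : w x = 1 := by
        rw [hx]
        exact hw _
      rw [← Finset.add_sum_erase _ _ hmem, hwx, one_mul] at h1 h2
      have h3 : ∑ z ∈ (fib (π x)).erase x, w z * g z = ∑ z ∈ (fib (π x)).erase x, w z * g' z := by
        refine Finset.sum_congr rfl fun z hz => ?_
        rw [Finset.mem_erase, hfib] at hz
        rw [h0 z]
        rw [hz.2, ← hx]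
        exact hz.1
      rw [h3] at h1
      exact add_right_cancel (h1.trans h2.symm)
    · exact h0 x hx
  · intro h
    obtain ⟨h', hh'⟩ : ∃ h' : X → ZMod 2, h' = fun x => if hx : x ∈ tinZ fib p U then h ⟨x, hx⟩ else 0 := ⟨_, rfl⟩
    have e1 : ∀ x (hx : x ∈ tinZ fib p U), h' x = h ⟨x, hx⟩ := fun x hx => by
      rw [hh']
      exact dif_pos hx
    have e2 : ∀ x, x ∉ tinZ fib p U → h' x = 0 := fun x hx => by
      rw [hh']
      exact dif_neg hx
    obtain ⟨g, hg⟩ : ∃ g : X → ZMod 2, ∀ x, g x = h' x +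
        if π x ∈ U ∧ x = p (π x) then ∑ z ∈ fib (π x), w z * h' z else 0 := ⟨_, fun _ => rfl⟩
    refine ⟨⟨g, ?_, ?_⟩, ?_⟩
    · intro x hx
      rw [hg, e2 x (fun h => hx ((hZ x).1 h).1), if_neg (fun h => hx h.1), add_zero]
    · intro y
      by_cases hy : y ∈ U
      · have hmem : p y ∈ fib y := (hfib _ _).2 (hp y)
        have h1 : ∀ x ∈ fib y, w x * g x = w x * h' x + if x = p y then ∑ z ∈ fib y, w z * h' z else 0 := by
          intro x hx
          have hxy : π x = y := (hfib x y).1 hx
          rw [hg, hxy]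
          by_cases h2 : x = p y
          · rw [if_pos ⟨hy, h2⟩, if_pos h2, mul_add]
            have h3 : w x = 1 := by
              rw [h2]
              exact hw y
            rw [h3, one_mul, one_mul]
          · rw [if_neg (fun h => h2 h.2), if_neg h2, add_zero, add_zero]
        rw [Finset.sum_congr rfl h1, Finset.sum_add_distrib, Finset.sum_ite_eq' (fib y) (p y), if_pos hmem]
        exact CharTwo.add_self_eq_zero _
      · refine Finset.sum_eq_zero fun x hx => ?_
        have hxy : π x = y := (hfib x y).1 hx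
        have h1 : π x ∉ U := by
          rw [hxy]
          exact hy
        rw [hg, e2 x (fun h => h1 ((hZ x).1 h).1), if_neg (fun h => h1 h.1), add_zero, mul_zero]
    · funext z
      change g z.1 = h z
      rw [hg, e1 z.1 z.2, if_neg (fun h => ((hZ z.1).1 z.2).2 h.2), add_zero]

end aux

theorem tin (c : Cu K) (S T : Finset (Pl K)) : Finite (IT c S T) ∧
    Nat.card (IT c S T) = 2 ^ ∑ l ∈ T.filter (fun l => l ∉ S), ((ov c l).card - 1) := by
  have hodd : ∀ l : Pl K, ∃ P ∈ ov c l, (fr c P : ZMod 2) = 1 := by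
    intro l
    by_contra hcon
    push Not at hcon
    have h1 := congrArg (fun n : ℕ => (n : ZMod 2)) (ef_sum c l)
    simp only [Nat.cast_sum, Nat.cast_mul] at h1
    rw [Finset.sum_eq_zero] at h1
    · exact absurd h1 (by decide)
    · intro P hP
      have h2 : ∀ a : ZMod 2, a ≠ 1 → a = 0 := by decide
      rw [h2 _ (hcon P hP), mul_zero]
  choose p hp1 hp2 using hodd
  have hbij := tin_bij (bl c) (ov c) (fun P l => (mem_ov c l P).trans (bl_eq c P l)) (fun P => (fr c P : ZMod 2))
    p (fun l => (bl_eq c _ l).1 ((mem_ov c l _).1 (hp1 l))) hp2 (T.filter fun l => l ∉ S)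
  have hov : ∀ (R : Finset (Pl K)) (P : Pl c.F), OvS c R P ↔ bl c P ∈ R := by
    intro R P
    constructor
    · rintro ⟨l, hl, h⟩
      rw [(bl_eq c P l).1 h]
      exact hl
    · intro h
      exact ⟨bl c P, h, bl_over c P⟩
  have hset : ((IT c S T : Submodule (ZMod 2) (Pl c.F → ZMod 2)) : Set (Pl c.F → ZMod 2)) =
      tinA (bl c) (ov c) (fun P => (fr c P : ZMod 2)) (T.filter fun l => l ∉ S) := by
    ext g
    rw [SetLike.mem_coe, mem_IT]
    constructor
    · rintro ⟨⟨h1, h2, h3⟩, h4⟩
      refine ⟨fun x hx => ?_, h3⟩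
      by_cases hT : bl c x ∈ T
      · by_cases hS : bl c x ∈ S
        · exact h2 x ((hov S x).2 hS)
        · exact absurd (Finset.mem_filter.2 ⟨hT, hS⟩) hx
      · exact h4 x (fun h => hT ((hov T x).1 h))
    · rintro ⟨h1, h2⟩
      refine ⟨⟨?_, fun P hP => h1 P ?_, h2⟩, fun P hP => h1 P ?_⟩
      · refine (((T.filter fun l => l ∉ S).biUnion (ov c) : Finset (Pl c.F)).finite_toSet).subset ?_
        intro x hx
        have hxU : bl c x ∈ T.filter fun l => l ∉ S := by
          by_contra h
          exact hx (h1 x h)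
        rw [Finset.mem_coe, Finset.mem_biUnion]
        exact ⟨bl c x, hxU, (mem_ov c _ x).2 (bl_over c x)⟩
      · intro h
        exact (Finset.mem_filter.1 h).2 ((hov S P).1 hP)
      · intro h
        exact hP ((hov T P).2 (Finset.mem_filter.1 h).1)
  have hfin : Finite (tinA (bl c) (ov c) (fun P => (fr c P : ZMod 2)) (T.filter fun l => l ∉ S)) :=
    Finite.of_injective _ hbij.1
  have hZ : (tinZ (ov c) p (T.filter fun l => l ∉ S)).card = ∑ l ∈ T.filter (fun l => l ∉ S), ((ov c l).card - 1) := by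
    unfold tinZ
    rw [Finset.card_biUnion]
    · exact Finset.sum_congr rfl fun l _ => Finset.card_erase_of_mem (hp1 l)
    · intro l _ l' _ hne
      rw [Function.onFun, Finset.disjoint_left]
      intro P hP hP'
      exact hne (below_unique ((mem_ov c l P).1 (Finset.mem_of_mem_erase hP))
        ((mem_ov c l' P).1 (Finset.mem_of_mem_erase hP')))
  have hcard : Nat.card (tinA (bl c) (ov c) (fun P => (fr c P : ZMod 2)) (T.filter fun l => l ∉ S)) =
      2 ^ ∑ l ∈ T.filter (fun l => l ∉ S), ((ov c l).card - 1) := by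
    rw [Nat.card_eq_of_bijective _ hbij, Nat.card_fun, Nat.card_zmod, Nat.card_eq_fintype_card, Fintype.card_coe, hZ]
  have he : (IT c S T : Type) = (tinA (bl c) (ov c) (fun P => (fr c P : ZMod 2)) (T.filter fun l => l ∉ S) : Type) :=
    congrArg Set.Elem hset
  rw [he]
  exact ⟨hfin, hcard⟩

end H48.SF
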