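import Pool.Agent.H48.SF.TSp
import Pool.Agent.H48.SF.TIn

/-!
# [H48 SF TKP] the ratio `#AT / #IT`, 40-70 lines. File Pool/Agent/H48/SF/TKp.lean

`tsp`, `tu_card` for `K` and for `c.F` (`MOne 2 c.F` by `mone_map`), `tov_card`, `tin`. Let `n = [K : ℚ]`, `[c.F : ℚ] = 3 n` (`c.deg`, `Module.finrank_mul_finrank`), `m = ∑_{l ∈ T} #ov l`. `#XU T = 2 ^ k`, `2 k = 2 #T + n`; `#XU TF = 2 ^ k'`, `2 k' = 2 m + 3 n`, `#TF = m`. So `k' = k + (m - #T) + n`, `#AT = 2 ^ (m - #T + n)`, `m - #T = ∑_{l ∈ T} (#ov l - 1)`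
(`ov_ne`), which is the sum over `S` plus the sum over `T \ S`.
-/

set_option autoImplicit false
set_option linter.dupNamespace false

open scoped NumberField Classical Pointwise
open IsDedekindDomain H38.ML H63.MA

noncomputable section

namespace H48.SF

open H48.KV H67.SX H38.SE
open H48.T3 hiding Ch Fib

variable {K : IntermediateField ℚ QBar} [NumberField K]

/-- the local factor -/
def kap (c : Cu K) (S : Finset (Pl K)) : ℕ :=
  2 ^ (∑ v ∈ S, ((ov c v).card - 1)) * 2 ^ Module.finrank ℚ K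

theorem tkp (hi : MOne 2 K) (c : Cu K) (S T : Finset (Pl K)) (hST : S ⊆ T) (hK : ClOne T)
    (TF : Finset (Pl c.F)) (hTF : ∀ P, P ∈ TF ↔ OvS c T P) (hF : ClOne TF) :
    Nat.card (AT c S T) = kap c S * Nat.card (IT c S T) := by
  obtain ⟨-, h1⟩ := tsp hi c S T hST hK TF hTF hF
  obtain ⟨k, hk, -, hk2⟩ := tu_card K hi T
  obtain ⟨k', hk', -, hk2'⟩ := tu_card c.F (mone_map hi c.F) TF
  obtain ⟨TF', hTF', hc'⟩ := tov_card c T
  have hTT : TF' = TF := by
    ext P
    rw [hTF', hTF]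
  rw [hTT] at hc'
  have hdeg : Module.finrank ℚ c.F = Module.finrank ℚ K * 3 := by
    rw [← c.deg, Module.finrank_mul_finrank]
  have hsum : ∑ l ∈ T, (ov c l).card = ∑ l ∈ T, ((ov c l).card - 1) + T.card := by
    rw [Finset.card_eq_sum_ones, ← Finset.sum_add_distrib]
    refine Finset.sum_congr rfl fun l _ => ?_
    have h2 : 1 ≤ (ov c l).card := Finset.card_pos.2 (ov_ne c l)
    omega
  have hsplit : ∑ l ∈ T, ((ov c l).card - 1) = ∑ l ∈ S, ((ov c l).card - 1) +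
      ∑ l ∈ T.filter (fun l => l ∉ S), ((ov c l).card - 1) := by
    rw [← Finset.sum_filter_add_sum_filter_not T (fun l => l ∈ S)]
    congr 1
    refine Finset.sum_congr ?_ fun _ _ => rfl
    ext l
    rw [Finset.mem_filter]
    exact ⟨fun h => h.2, fun h => ⟨hST h, h⟩⟩
  rw [hk2, hk2'] at h1
  rw [(tin c S T).2, kap, ← pow_add, ← pow_add]
  have hkk : k' = (∑ v ∈ S, ((ov c v).card - 1) + Module.finrank ℚ K +
      ∑ l ∈ T.filter (fun l => l ∉ S), ((ov c l).card - 1)) + k := by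
    omega
  rw [hkk, pow_add] at h1
  exact Nat.eq_of_mul_eq_mul_right (by positivity) h1

theorem kap_pos (c : Cu K) (S : Finset (Pl K)) : 0 < kap c S ∧
    kap c S ≤ 4 ^ S.card * 2 ^ Module.finrank ℚ K := by
  unfold kap
  refine ⟨by positivity, Nat.mul_le_mul_right _ ?_⟩
  have h1 : ∑ v ∈ S, ((ov c v).card - 1) ≤ ∑ _v ∈ S, 2 := by
    refine Finset.sum_le_sum fun v _ => ?_
    have h2 := ov_le c v
    omega
  rw [Finset.sum_const, smul_eq_mul] at h1
  calc 2 ^ (∑ v ∈ S, ((ov c v).card - 1)) ≤ 2 ^ (S.card * 2) := Nat.pow_le_pow_right (by norm_num) h1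
    _ = 4 ^ S.card := by
      rw [mul_comm, pow_mul]
      norm_num

end H48.SF
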