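import Pool.Agent.H48.SF.TyB
import Pool.Agent.H38.SE.Chc

/-!
# [H48 SF TYC] finitely many local types, 80-120 lines. File Pool/Agent/H48/SF/TyC.lean

Pattern: `ds_fin`, `nty_bd` in Pool/Agent/H48/T3/TyC.lean. `hL : LFin K S Q` gives a finite set `T` of cubic fields such that every `c` is `LEq` to some `c₀ ∈ T`; `χ₀`, `t₀` for `c₀` from `std_cu`.
* `ds_fin`: for every `c₀ ∈ T`: `cl_ex`; the surjective lifts of `χ₀` fall into finitely many classes modulo `Lq` (`Nat.card (Quot ..) > 0` by `nty_all`, so the `Quot` is finite: `Nat.finite_of_card_ne_zero`), and `ds` is constant on every class (`hds`: `LocInv`). Let `Df` be the finite set of the values. For any surjective `φ` of finite type put `χ = k.pi ∘ φ ∈ Ch K` (`H38.ML.ft_comp`;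
  `k.pi` is surjective by `k.ex`), `c` from `chc` (H38/SE/Chc.lean), `t` from `std_ex`, `c₀ ∈ T` with `LEq S Q c₀ c`, `leq_perm` (symmetric), `apx`: a surjective lift `φ'` of `χ₀`, conjugate to `φ` by elements of `G` on the `dec (Q.P v)`, so `ds φ = ds φ' ∈ Df`.
* `nty_bd`: the maximum over `T` of `nty χ₀ True`; `nty_inv` (`True` is `Inv`).
* `nty_sum`: `∑_d nty (ds = d) ≥ nty True > 0`, so some `d ∈ Df` has `nty (ds = d) > 0`: take any surjective lift `φ` of `χ` (there is one since `nty True > 0`), `d = ds φ`: the `Quot` for `ds = d` is nonempty and finite (it injects into the one for `True`; `lq_quot`).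
-/

set_option autoImplicit false
set_option linter.dupNamespace false

open scoped NumberField Classical Pointwise
open IsDedekindDomain H38.ML H63.MA

noncomputable section

namespace H48.SF

open H48.KV H67.SX H38.SE
open H48.T3 hiding Ch Fib

variable {K : IntermediateField ℚ QBar} [NumberField K] {G : Type} [Group G]

private theorem tyc_fin (hi : MOne 2 K) (k : KS G) (Q : DP K QBar)
    (S : Finset (Pl K)) (ds : (Gal(QBar/K) →* G) → ℕ) (hds : LocInv Q S ds)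
    {χ : Gal(QBar/K) →* Equiv.Perm (Fin 3)} {c : Cu K} {t : Fin 3 → Gal(QBar/K)} (H : Std χ c t) :
    ∃ D : Finset ℕ, ∀ φ ∈ SL k χ, ds φ ∈ D := by
  obtain ⟨cl, hcl⟩ := cl_ex (k := k) H
  have h1 := (nty_all hi H hcl S Q).2
  unfold nty at h1
  have h2 := Nat.finite_of_card_ne_zero h1.ne'
  obtain ⟨F, hF⟩ : ∃ F : (Quot fun φ φ' : {φ : Gal(QBar/K) →* G // φ ∈ SL k χ ∧ True} =>
      Lq k S Q φ.1 φ'.1) → ℕ, ∀ φ : {φ : Gal(QBar/K) →* G // φ ∈ SL k χ ∧ True}, F (Quot.mk _ φ) = ds φ.1 := by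
    refine ⟨Quot.lift (fun φ => ds φ.1) ?_, fun φ => rfl⟩
    intro φ φ' h
    refine hds φ.1 φ'.1 φ.2.1.2.1 φ.2.1.1 φ'.2.1.2.1 φ'.2.1.1 fun v hv => ?_
    obtain ⟨δ, -, h3⟩ := h v hv
    exact ⟨δ, h3⟩
  have h3 : (Set.range F).Finite := Set.finite_range F
  refine ⟨h3.toFinset, fun φ hφ => ?_⟩
  rw [Set.Finite.mem_toFinset]
  exact ⟨Quot.mk _ ⟨φ, hφ, trivial⟩, hF _⟩

theorem ds_fin (hi : MOne 2 K) (k : KS G) (Q : DP K QBar) (S : Finset (Pl K))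
    (hL : LFin K S Q) (ds : (Gal(QBar/K) →* G) → ℕ) (hds : LocInv Q S ds) :
    ∃ Df : Finset ℕ, ∀ φ : Gal(QBar/K) →* G, FT φ → Function.Surjective φ → ds φ ∈ Df := by
  obtain ⟨T, hT⟩ := hL
  choose X t0 hX hF hS using std_cu (K := K)
  choose D hD using fun c : Cu K => tyc_fin hi k Q S ds hds (hS c)
  refine ⟨T.biUnion D, fun φ hft hsu => ?_⟩
  have hpi : Function.Surjective k.pi := by
    intro σ
    obtain ⟨g, hg, -⟩ := k.ex σ 0 (by simp)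
    exact ⟨g, hg⟩
  have hχ : k.pi.comp φ ∈ Ch K := ⟨H38.ML.ft_comp _ _ hft, by
    rw [MonoidHom.coe_comp]
    exact hpi.comp hsu⟩
  obtain ⟨c, hc⟩ := chc _ hχ
  obtain ⟨t, H⟩ := std_ex _ hχ c hc
  obtain ⟨c₀, hc₀, hE⟩ := hT c
  obtain ⟨e, he⟩ := leq_perm H (hS c₀) Q S (leq_symm S Q c₀ c hE)
  obtain ⟨s, hs, -⟩ := ks_sec k
  obtain ⟨φ', hφ', h5⟩ := apx (k := k) (hS c₀) hs Q S e he φ ⟨hft, rfl⟩
  have h6 : ds φ' = ds φ := hds φ' φ hφ'.2.1 hφ'.1 hsu hft fun v hv => by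
    obtain ⟨δ, -, h7⟩ := h5 v hv
    exact ⟨_, h7⟩
  rw [← h6]
  exact Finset.mem_biUnion.2 ⟨c₀, hc₀, hD c₀ φ' hφ'⟩

theorem nty_bd (hi : MOne 2 K) (k : KS G) (Q : DP K QBar) (S : Finset (Pl K))
    (hL : LFin K S Q) : ∃ C : ℕ, ∀ (χ : Gal(QBar/K) →* Equiv.Perm (Fin 3)) (c : Cu K)
      (t : Fin 3 → Gal(QBar/K)), Std χ c t → nty k S Q χ (fun _ => True) ≤ C := by
  obtain ⟨T, hT⟩ := hL
  choose X t0 hX hF hS using std_cu (K := K)
  refine ⟨T.sup fun c => nty k S Q (X c) fun _ => True, fun χ c t H => ?_⟩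
  obtain ⟨c₀, hc₀, hE⟩ := hT c
  rw [← nty_inv k (hS c₀) H Q S hE (fun _ => True) fun _ _ _ _ _ _ _ => Iff.rfl]
  exact Finset.le_sup (f := fun c => nty k S Q (X c) fun _ => True) hc₀

theorem inv_ds {Q : DP K QBar} {S : Finset (Pl K)} {ds : (Gal(QBar/K) →* G) → ℕ}
    (hds : LocInv Q S ds) (d : ℕ) : Inv S Q (fun φ => ds φ = d) := by
  intro φ φ' h1 h2 h3 h4 h
  change ds φ = d ↔ ds φ' = d
  rw [hds φ φ' h2 h1 h4 h3 h]

theorem nty_sum (hi : MOne 2 K) (k : KS G) (Q : DP K QBar) (S : Finset (Pl K))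
    (ds : (Gal(QBar/K) →* G) → ℕ) (hds : LocInv Q S ds)
    (χ : Gal(QBar/K) →* Equiv.Perm (Fin 3)) (c : Cu K) (t : Fin 3 → Gal(QBar/K))
    (H : Std χ c t) : ∃ d : ℕ, 0 < nty k S Q χ (fun φ => ds φ = d) := by
  obtain ⟨cl, hcl⟩ := cl_ex (k := k) H
  have h1 := (nty_all hi H hcl S Q).2
  unfold nty at h1
  obtain ⟨q⟩ := (Nat.card_pos_iff.1 h1).1
  obtain ⟨φ, -⟩ := Quot.exists_rep q
  refine ⟨ds φ.1, ?_⟩
  obtain ⟨Hd, h2, -, -, h3⟩ := nty_rep hi H hcl S Q (fun φ' => ds φ' = ds φ.1) (inv_ds hds _)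
  obtain ⟨x, hx, -⟩ := (h3 φ.1 φ.2.1).1 rfl
  rw [← h2]
  exact Finset.card_pos.2 ⟨x, hx⟩

end H48.SF
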