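import Pool.Agent.H48.SF.TyB
import Pool.Agent.H48.SF.TyC
import Pool.Agent.H48.SF.ClR
import Pool.Agent.H48.SF.QcP
import Pool.Agent.H48.SF.TKp
import Pool.Agent.H48.SF.K0c
import Pool.Agent.H48.SF.GiS

/-!
# [H48 SF FBA] the number of lifts of one `χ`, 130-190 lines. File Pool/Agent/H48/SF/FBa.lean

Pattern: Pool/Agent/H48/T3/FBa.lean and UbN.lean (copy and adapt). `F = c.F`, `A = VA c`, `A' = VA c ⊓ VL c S`, `o = oL c S`, `I = Ig c S`, `κ = kap c S`, `l = nty True = #QA` (`nty_all`), `m = nty (ds = d)`. `T` from `tex`, `TF` from `tov_card`; `tkp`: `#AT = κ #IT` (`#IT > 0`). `Ψ` from `la_main`. `cl` from `cl_ex`. `Hd` from `nty_rep` for `p φ := ds φ = d` (`inv_ds`).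
`θ_ψ P = ψ (gv c S P)`, `Θ` = image of `Ψ \ {0}` under `ψ ↦ θ_ψ`: `QC` by `qc_psi`; injective on `Ψ` by `qc_inj` and the third property of `Ψ`; `θ_ψ ≠ 0` for `ψ ≠ 0` by the same argument (`0 ∈ Ψ`). `#Θ + 1 = #Ψ`, `#Ψ κ #IT = #Ψ #AT = #K0 #IT l`, so `#Ψ κ = #K0 l ≤ 8^{#S} selc l` (`k0_card`).
Given `Y`: `Gs` from `gi_sum c S Y`; `X = {x ∈ A : ∃ h ∈ Hd, x - h ∈ A', o x ∈ Gs}` is finite and `#X #IT l = #AT ∑_ψ (∑_{h ∈ Hd} sg (ψ (o h))) (∑_{g ∈ Gs} sg (ψ g))` (`la_main`), so `#X l = κ ∑_ψ ..`. The term `ψ = 0` is `m #Gs = m * mq` (`gi_sum`). For `ψ ≠ 0`: `|∑_{h}| ≤ m`, `∑_{g} sg (ψ g)` by `gi_sum`. So `|#X l - κ m mq| ≤ κ m ∑_{θ ∈ Θ} |..|`.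
`cl_cnt`: `{φ ∈ LW : cl φ ∈ X}` has `4 #X` elements. The set `Fib` is the subset of the surjective ones: `φ ∈ Fib` iff `φ ∈ SL`, `ds φ = d` (iff `∃ h ∈ Hd, cl φ - h ∈ A'`), and the condition on the norms, which is `nrI c (o (cl φ)) ≤ Y` (`cl_nr`) iff `o (cl φ) ∈ Gs` (`of_mem`). The other elements of `{φ ∈ LW : cl φ ∈ X}` have `cl φ = 0` (`hcl.su`): at most `4`. So `|#Fib - 4 #X| ≤ 4`.
`ub_new`: `Fib ⊆ {φ ∈ LW : cl φ ∈ X'}`, `X' = {x ∈ VA : oL c S x ∈ Gs}`; `#X' ≤ #Gs * #(VA ⊓ ker oL)` (`k1_card`), `#Gs = mq ≤ ∑ 3^#q` (`mq_le`).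
-/

set_option autoImplicit false
set_option linter.dupNamespace false

open scoped NumberField Classical Pointwise
open IsDedekindDomain H38.ML H63.MA

noncomputable section

namespace H48.SF

open H48.KV H67.SX H38.SE
open H48.T3 hiding Ch Fib

variable {K : IntermediateField ℚ QBar} [NumberField K] {G : Type} [Group G] {k : KS G}
  {χ : Gal(QBar/K) →* Equiv.Perm (Fin 3)} {c : Cu K} {t : Fin 3 → Gal(QBar/K)}

private theorem fb_sgabs (a : ZMod 2) : |sg a| = 1 := by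
  rcases z2_cases a with rfl | rfl
  · rw [sg_zero, abs_one]
  · rw [sg_one, abs_neg, abs_one]

private theorem fb_arith {Fi X l κ m A E : ℝ} (hl : 0 ≤ l) (h1 : |Fi - 4 * X| ≤ 4)
    (h2 : |X * l - κ * m * A| ≤ κ * m * E) :
    |Fi * l - 4 * κ * m * A| ≤ 4 * l + 4 * κ * m * E := by
  have e : Fi * l - 4 * κ * m * A = (Fi - 4 * X) * l + 4 * (X * l - κ * m * A) := by ring
  rw [e]
  refine (abs_add_le _ _).trans ?_
  rw [abs_mul, abs_mul, abs_of_nonneg hl, abs_of_nonneg (by norm_num : (0 : ℝ) ≤ 4)]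
  have h3 := mul_le_mul_of_nonneg_right h1 hl
  have h4 := mul_le_mul_of_nonneg_left h2 (by norm_num : (0 : ℝ) ≤ 4)
  calc _ ≤ 4 * l + 4 * (κ * m * E) := add_le_add h3 h4
    _ = _ := by ring

/-- the sum over the functionals -/
private theorem fb_sum {V W : Type} [AddCommGroup V] [Module (ZMod 2) V] [AddCommGroup W]
    [Module (ZMod 2) W] (o : V →ₗ[ZMod 2] W) (Ψ : Finset (W →ₗ[ZMod 2] ZMod 2))
    (h0 : (0 : W →ₗ[ZMod 2] ZMod 2) ∈ Ψ) (Hd : Finset V) (G : Finset W)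
    {ι : Type} (Θ : Finset ι) (e : (W →ₗ[ZMod 2] ZMod 2) → ι) (he : Θ = (Ψ.erase 0).image e)
    (hinj : ∀ ψ ∈ Ψ, ∀ ψ' ∈ Ψ, e ψ = e ψ' → ψ = ψ') (R : ι → ℝ)
    (hR : ∀ ψ ∈ Ψ, ∑ g ∈ G, sg (ψ g) = R (e ψ)) :
    |(∑ ψ ∈ Ψ, (∑ x ∈ Hd, sg (ψ (o x))) * ∑ g ∈ G, sg (ψ g)) - Hd.card * R (e 0)| ≤
      Hd.card * ∑ θ ∈ Θ, |R θ| := by
  have h1 : (∑ ψ ∈ Ψ, (∑ x ∈ Hd, sg (ψ (o x))) * ∑ g ∈ G, sg (ψ g)) =
      (∑ x ∈ Hd, sg ((0 : W →ₗ[ZMod 2] ZMod 2) (o x))) * ∑ g ∈ G, sg ((0 : W →ₗ[ZMod 2] ZMod 2) g) +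
      ∑ ψ ∈ Ψ.erase 0, (∑ x ∈ Hd, sg (ψ (o x))) * ∑ g ∈ G, sg (ψ g) :=
    (Finset.add_sum_erase Ψ _ h0).symm
  have h2 : (∑ x ∈ Hd, sg ((0 : W →ₗ[ZMod 2] ZMod 2) (o x))) = Hd.card := by
    simp only [LinearMap.zero_apply, sg_zero, Finset.sum_const, nsmul_eq_mul, mul_one]
  rw [h1, h2, hR 0 h0, add_sub_cancel_left]
  refine (Finset.abs_sum_le_sum_abs _ _).trans ?_
  have h3 : ∑ θ ∈ Θ, |R θ| = ∑ ψ ∈ Ψ.erase 0, |R (e ψ)| := by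
    rw [he, Finset.sum_image]
    intro ψ hψ ψ' hψ' h
    exact hinj ψ (Finset.mem_of_mem_erase hψ) ψ' (Finset.mem_of_mem_erase hψ') h
  rw [h3, Finset.mul_sum]
  refine Finset.sum_le_sum fun ψ hψ => ?_
  rw [abs_mul, hR ψ (Finset.mem_of_mem_erase hψ)]
  refine mul_le_mul_of_nonneg_right ?_ (abs_nonneg _)
  refine (Finset.abs_sum_le_sum_abs _ _).trans ?_
  rw [Finset.sum_congr rfl fun x _ => fb_sgabs _, Finset.sum_const, nsmul_eq_mul, mul_one]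

/-- the comparison of the fibre with the set of the classes -/
private theorem fb_set (H : Std χ c t)
    {cl : (Gal(QBar/K) →* G) → V2 c.F} (hcl : ClD k χ c cl)
    (S : Finset (Pl K)) (h2 : ∀ v : Pl K, Above 2 v → v ∈ S) (Q : DP K QBar)
    (ds : (Gal(QBar/K) →* G) → ℕ) (d : ℕ) (Hd : Finset (V2 c.F))
    (hHd : ∀ φ ∈ SL k χ, ds φ = d ↔ ∃ x ∈ Hd, cl φ - x ∈ VA c ⊓ VL c S) (Y : ℝ)
    (Gs : Finset (Pl c.F → ZMod 2)) (hGs : ∀ g, g ∈ Gs ↔ g ∈ Ig c S ∧ nrI c g ≤ Y)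
    (X : Set (V2 c.F))
    (hX : X = {a | a ∈ VA c ∧ (∃ x ∈ Hd, a - x ∈ VA c ⊓ VL c S) ∧ oL c S a ∈ Gs})
    (hXf : X.Finite) :
    (Fib k.pi Q S ds χ d Y).Finite ∧
      |((Fib k.pi Q S ds χ d Y).ncard : ℝ) - 4 * (X.ncard : ℝ)| ≤ 4 := by
  obtain ⟨hf, hc⟩ := cl_cnt H hcl X (by rw [hX]; exact fun a ha => ha.1) hXf
  obtain ⟨hf0, hc0⟩ := cl_cnt H hcl {0} (by
    rw [Set.singleton_subset_iff]
    exact (VA c).zero_mem) (Set.finite_singleton 0)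
  have hnr : ∀ φ ∈ LW k χ, ((∀ q : Finset (Pl K), (∀ l ∈ q, l ∈ qs k.pi Q S φ) → nr q ≤ Y) ↔
      oL c S (cl φ) ∈ Gs) := by
    intro φ hφ
    rw [cl_nr H hcl S h2 Q φ hφ Y, hGs]
    exact ⟨fun h => ⟨of_mem c S _ (hcl.va φ hφ), h⟩, fun h => h.2⟩
  have hsub : Fib k.pi Q S ds χ d Y ⊆ {φ | φ ∈ LW k χ ∧ cl φ ∈ X} := by
    rintro φ ⟨h3, h4, h5, h6, h7⟩
    have h8 : φ ∈ LW k χ := ⟨h3, h5⟩
    refine ⟨h8, ?_⟩
    rw [hX]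
    exact ⟨hcl.va φ h8, (hHd φ ⟨h3, h4, h5⟩).1 h6, (hnr φ h8).1 h7⟩
  have hsub2 : {φ | φ ∈ LW k χ ∧ cl φ ∈ X} ⊆
      Fib k.pi Q S ds χ d Y ∪ {φ | φ ∈ LW k χ ∧ cl φ ∈ ({0} : Set (V2 c.F))} := by
    rintro φ ⟨h8, h9⟩
    by_cases h0 : cl φ = 0
    · exact Or.inr ⟨h8, h0⟩
    · left
      rw [hX] at h9
      have hs := (hcl.su φ h8).2 h0
      exact ⟨h8.1, hs, h8.2, (hHd φ ⟨h8.1, hs, h8.2⟩).2 h9.2.1, (hnr φ h8).2 h9.2.2⟩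
  have hFf : (Fib k.pi Q S ds χ d Y).Finite := hf.subset hsub
  refine ⟨hFf, ?_⟩
  have h3 := Set.ncard_le_ncard hsub hf
  have h4 := (Set.ncard_le_ncard hsub2 (hFf.union hf0)).trans (Set.ncard_union_le _ _)
  rw [hc] at h3 h4
  rw [hc0, Set.ncard_singleton, mul_one] at h4
  have h5 : ((Fib k.pi Q S ds χ d Y).ncard : ℝ) ≤ 4 * X.ncard := by exact_mod_cast h3
  have h6 : (4 * X.ncard : ℝ) ≤ (Fib k.pi Q S ds χ d Y).ncard + 4 := by exact_mod_cast h4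
  rw [abs_le]
  constructor <;> linarith

private theorem ubn_fib {R M N : Type*} [Ring R] [AddCommGroup M] [AddCommGroup N] [Module R M]
    [Module R N] (f : M →ₗ[R] N) (W : Submodule R M) (hf : Finite ↥(W ⊓ LinearMap.ker f)) (g : N) :
    {x | x ∈ W ∧ f x = g}.Finite ∧ {x | x ∈ W ∧ f x = g}.ncard ≤ Nat.card ↥(W ⊓ LinearMap.ker f) := by
  have hU : ((W ⊓ LinearMap.ker f : Submodule R M) : Set M).Finite := hf
  rcases Set.eq_empty_or_nonempty {x | x ∈ W ∧ f x = g} with h | ⟨x0, hx0, hg0⟩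
  · rw [h]
    exact ⟨Set.finite_empty, by simp⟩
  · have hsub : {x | x ∈ W ∧ f x = g} ⊆
        (fun u => x0 + u) '' ((W ⊓ LinearMap.ker f : Submodule R M) : Set M) := by
      rintro x ⟨hx, hgx⟩
      refine ⟨x - x0, ⟨W.sub_mem hx hx0, ?_⟩, add_sub_cancel _ _⟩
      show x - x0 ∈ LinearMap.ker f
      rw [LinearMap.mem_ker, map_sub, hgx, hg0, sub_self]
    refine ⟨(hU.image _).subset hsub, ?_⟩
    refine (Set.ncard_le_ncard hsub (hU.image _)).trans ?_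
    refine (Set.ncard_image_le hU).trans ?_
    exact le_of_eq rfl

theorem fib_one (hi : MOne 2 K) (H : Std χ c t) (S : Finset (Pl K))
    (h2 : ∀ v : Pl K, Above 2 v → v ∈ S) (Q : DP K QBar)
    (ds : (Gal(QBar/K) →* G) → ℕ) (hds : LocInv Q S ds) (d : ℕ) :
    ∃ Θ : Finset (Pl c.F → ZMod 2), (∀ θ ∈ Θ, QC c S θ ∧ θ ≠ 0) ∧
      ((Θ.card + 1) * kap c S ≤ 8 ^ S.card * selc K c.F * nty k S Q χ (fun _ => True)) ∧
      ∀ Y : ℝ, 1 ≤ Y → (Fib k.pi Q S ds χ d Y).Finite ∧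
        |((Fib k.pi Q S ds χ d Y).ncard : ℝ) * nty k S Q χ (fun _ => True) -
            4 * kap c S * nty k S Q χ (fun φ => ds φ = d) * c.mq S Y| ≤
          4 * nty k S Q χ (fun _ => True) +
            4 * kap c S * nty k S Q χ (fun φ => ds φ = d) *
              ∑ θ ∈ Θ, |∑ q ∈ AS K S Y, ∏ l ∈ q, ∑ᶠ g ∈ c.Ev l, ∏ P ∈ g, sg (θ P)| := by
  obtain ⟨cl, hcl⟩ := cl_ex (k := k) H
  obtain ⟨T, hST, hT1, hTF1, hL⟩ := tex hi c S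
  obtain ⟨TF, hTF, -⟩ := tov_card c T
  have hk := tkp hi c S T hST hT1 TF hTF (hTF1 TF hTF)
  obtain ⟨Ψ, h0, hvan, hinj, hcard, hcnt⟩ := la_main hL
  obtain ⟨hl, hlp⟩ := nty_all hi H hcl S Q
  obtain ⟨Hd, hHc, hHA, hHi, hHd⟩ := nty_rep hi H hcl S Q (fun φ => ds φ = d) (inv_ds hds d)
  have hIT : 0 < Nat.card (IT c S T) := by
    have := hL.finI
    exact Nat.card_pos
  rw [← hl] at hcard
  have hK0 := k0_card hi c S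
  have hei : ∀ ψ ∈ Ψ, ∀ ψ' ∈ Ψ, (fun P => ψ (gv c S P)) = (fun P => ψ' (gv c S P)) → ψ = ψ' := by
    intro ψ hψ ψ' hψ' h3
    exact hinj ψ hψ ψ' hψ' (qc_inj c S ψ ψ' fun P => congrFun h3 P)
  refine ⟨(Ψ.erase 0).image fun ψ => fun P => ψ (gv c S P), ?_, ?_, ?_⟩
  · intro θ hθ
    obtain ⟨ψ, hψ, rfl⟩ := Finset.mem_image.1 hθ
    have hψ1 := Finset.mem_of_mem_erase hψ
    refine ⟨qc_psi hi c S h2 ψ (hvan ψ hψ1), fun h3 => ?_⟩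
    exact (Finset.ne_of_mem_erase hψ) (hei ψ hψ1 0 h0 h3)
  · have h3 : ((Ψ.erase 0).image fun ψ => fun P => ψ (gv c S P)).card + 1 = Ψ.card := by
      rw [Finset.card_image_of_injOn, Finset.card_erase_add_one h0]
      intro ψ hψ ψ' hψ' h
      exact hei ψ (Finset.mem_of_mem_erase hψ) ψ' (Finset.mem_of_mem_erase hψ') h
    rw [h3]
    have h4 : Ψ.card * kap c S =
        Nat.card ↥((VA c ⊓ VL c S) ⊓ LinearMap.ker (oL c S)) * nty k S Q χ (fun _ => True) := by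
      apply Nat.eq_of_mul_eq_mul_right hIT
      rw [mul_assoc, ← hk, hcard]
      ring
    rw [h4]
    exact Nat.mul_le_mul_right _ hK0
  · intro Y hY
    obtain ⟨Gs, hGs, hGc, hsum⟩ := gi_sum c S Y
    obtain ⟨hXf, hXc⟩ := hcnt Hd Gs hHA hHi fun g hg => ((hGs g).1 hg).1
    obtain ⟨hF1, hF2⟩ := fb_set H hcl S h2 Q ds d Hd hHd Y Gs hGs _ rfl hXf
    refine ⟨hF1, ?_⟩
    refine fb_arith (X := ({a : V2 c.F | a ∈ VA c ∧ (∃ x ∈ Hd, a - x ∈ VA c ⊓ VL c S) ∧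
      oL c S a ∈ Gs}.ncard : ℝ)) (Nat.cast_nonneg _) hF2 ?_
    have h5 := fb_sum (oL c S) Ψ h0 Hd Gs _ (fun ψ => fun P => ψ (gv c S P)) rfl hei
      (fun θ => ∑ q ∈ AS K S Y, ∏ l ∈ q, ∑ᶠ g ∈ c.Ev l, ∏ P ∈ g, sg (θ P))
      (fun ψ _ => hsum ψ)
    have h6 : (∑ q ∈ AS K S Y, ∏ l ∈ q, ∑ᶠ g ∈ c.Ev l, ∏ P ∈ g,
        sg ((0 : (Pl c.F → ZMod 2) →ₗ[ZMod 2] ZMod 2) (gv c S P))) = c.mq S Y := by
      rw [← hsum 0, ← hGc]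
      simp only [LinearMap.zero_apply, sg_zero, Finset.sum_const, nsmul_eq_mul, mul_one]
    have h7 : ({a : V2 c.F | a ∈ VA c ∧ (∃ x ∈ Hd, a - x ∈ VA c ⊓ VL c S) ∧
        oL c S a ∈ Gs}.ncard : ℝ) * nty k S Q χ (fun _ => True) =
        (kap c S : ℝ) *
        ∑ ψ ∈ Ψ, (∑ x ∈ Hd, sg (ψ (oL c S x))) * ∑ g ∈ Gs, sg (ψ g) := by
      have hITr : (Nat.card (IT c S T) : ℝ) ≠ 0 := by exact_mod_cast hIT.ne'
      apply mul_right_cancel₀ hITr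
      rw [← hl, hk, Nat.cast_mul, Nat.cast_mul] at hXc
      linear_combination hXc
    rw [h7, ← hHc]
    have h8 : (0 : ℝ) ≤ (kap c S : ℝ) := Nat.cast_nonneg _
    have h9 := mul_le_mul_of_nonneg_left h5 h8
    rw [← abs_of_nonneg h8, ← abs_mul, abs_of_nonneg h8] at h9
    have h10 : (kap c S : ℝ) *
        ((∑ ψ ∈ Ψ, (∑ x ∈ Hd, sg (ψ (oL c S x))) * ∑ g ∈ Gs, sg (ψ g)) - Hd.card *
        ∑ q ∈ AS K S Y, ∏ l ∈ q, ∑ᶠ g ∈ c.Ev l, ∏ P ∈ g,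
        sg ((0 : (Pl c.F → ZMod 2) →ₗ[ZMod 2] ZMod 2) (gv c S P))) =
        (kap c S : ℝ) *
        (∑ ψ ∈ Ψ, (∑ x ∈ Hd, sg (ψ (oL c S x))) * ∑ g ∈ Gs, sg (ψ g)) -
        (kap c S : ℝ) * Hd.card * c.mq S Y := by
      rw [h6]
      ring
    rw [h10] at h9
    refine h9.trans (le_of_eq ?_)
    ring

theorem ub_new (hi : MOne 2 K) (H : Std χ c t) (S : Finset (Pl K))
    (h2 : ∀ v : Pl K, Above 2 v → v ∈ S) (Q : DP K QBar)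
    (ds : (Gal(QBar/K) →* G) → ℕ) (d : ℕ) (Y : ℝ) :
    (Fib k.pi Q S ds χ d Y).Finite ∧ ((Fib k.pi Q S ds χ d Y).ncard : ℝ) ≤
      4 * (8 ^ S.card * selc K c.F) * ∑ q ∈ AS K S Y, (3 : ℝ) ^ q.card := by
  obtain ⟨cl, hcl⟩ := cl_ex (k := k) H
  obtain ⟨Gs, hG1, hGc, -⟩ := gi_sum c S Y
  obtain ⟨hfin, hcard⟩ := k1_card hi c S
  set U := VA c ⊓ LinearMap.ker (oL c S) with hU
  set X : Set (V2 c.F) := {x | x ∈ VA c ∧ oL c S x ∈ Gs} with hX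
  have hXU : X ⊆ ⋃ g ∈ Gs, {x | x ∈ VA c ∧ oL c S x = g} := by
    rintro x ⟨hx, hx2⟩
    simp only [Set.mem_iUnion]
    exact ⟨_, hx2, hx, rfl⟩
  have hXf' : (⋃ g ∈ Gs, {x | x ∈ VA c ∧ oL c S x = g}).Finite :=
    Set.Finite.biUnion Gs.finite_toSet fun g _ => (ubn_fib (oL c S) (VA c) hfin g).1
  have hXf : X.Finite := hXf'.subset hXU
  have hXc : X.ncard ≤ Gs.card * (8 ^ S.card * selc K c.F) := by
    refine (Set.ncard_le_ncard hXU hXf').trans ?_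
    refine (Finset.set_ncard_biUnion_le Gs _).trans ?_
    refine (Finset.sum_le_card_nsmul Gs _ (8 ^ S.card * selc K c.F) fun g _ => ?_).trans ?_
    · exact (ubn_fib (oL c S) (VA c) hfin g).2.trans hcard
    · rw [smul_eq_mul]
  obtain ⟨hLf, hLc⟩ := cl_cnt H hcl X (fun x hx => hx.1) hXf
  have hsub : Fib k.pi Q S ds χ d Y ⊆ {φ | φ ∈ LW k χ ∧ cl φ ∈ X} := by
    rintro φ ⟨h1, h3, h4, h5, h6⟩
    have hL : φ ∈ LW k χ := ⟨h1, h4⟩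
    refine ⟨hL, hcl.va φ hL, ?_⟩
    rw [hG1]
    exact ⟨of_mem c S _ (hcl.va φ hL), (cl_nr H hcl S h2 Q φ hL Y).1 h6⟩
  refine ⟨hLf.subset hsub, ?_⟩
  have h1 : (Fib k.pi Q S ds χ d Y).ncard ≤ 4 * (Gs.card * (8 ^ S.card * selc K c.F)) := by
    refine (Set.ncard_le_ncard hsub hLf).trans ?_
    rw [hLc]
    exact Nat.mul_le_mul_left 4 hXc
  have h3 : (Gs.card : ℝ) ≤ ∑ q ∈ AS K S Y, (3 : ℝ) ^ q.card := by
    rw [hGc]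
    exact mq_le c S Y
  have h4 : ((Fib k.pi Q S ds χ d Y).ncard : ℝ) ≤ 4 * ((Gs.card : ℝ) * (8 ^ S.card * selc K c.F)) := by
    exact_mod_cast h1
  calc ((Fib k.pi Q S ds χ d Y).ncard : ℝ) ≤ 4 * ((Gs.card : ℝ) * (8 ^ S.card * selc K c.F)) := h4
    _ = 4 * (8 ^ S.card * selc K c.F) * Gs.card := by ring
    _ ≤ _ := mul_le_mul_of_nonneg_left h3 (by positivity)

end H48.SF
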