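import Pool.Agent.H48.SF.SDf

/-!
# SX (FF): the structure `KS` for `S_4` (complete)

`G = Perm (Fin 4)`, `pi4` from H38/SE/Defs.lean (action on the three double transpositions `dt 0 = (01)(23)`, `dt 1 = (02)(13)`,
`dt 2 = (03)(12)`). `g = v u` with `v ∈ V`, `u 0 = 0`, `v = dt j` iff `g 0 = j + 1`; `lam g` is the indicator of the complement of `j`.
-/

set_option autoImplicit false
set_option linter.dupNamespace false

open scoped NumberField Classical Pointwise
open IsDedekindDomain H38.ML H63.MA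

namespace H48.SF

open H48.KV H67.SX H38.SE
open H48.T3 hiding Ch Fib

/-- the signs -/
def lam4 (g : Equiv.Perm (Fin 4)) (i : Fin 3) : ZMod 2 :=
  if g 0 = 0 then 0 else if g 0 = i.succ then 0 else 1

theorem lam4_mul : ∀ (g h : Equiv.Perm (Fin 4)) (i : Fin 3),
    lam4 (g * h) i = lam4 g i + lam4 h ((pi4 g)⁻¹ i) := by
  decide +kernel

theorem lam4_sum : ∀ g : Equiv.Perm (Fin 4), ∑ i, lam4 g i = 0 := by
  decide +kernel

theorem lam4_inj : ∀ g h : Equiv.Perm (Fin 4), pi4 g = pi4 h → lam4 g = lam4 h → g = h := by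
  decide +kernel

theorem lam4_ex : ∀ (σ : Equiv.Perm (Fin 3)) (f : Fin 3 → ZMod 2), ∑ i, f i = 0 →
    ∃ g : Equiv.Perm (Fin 4), pi4 g = σ ∧ lam4 g = f := by
  decide +kernel

theorem ks4 : ∃ k : KS (Equiv.Perm (Fin 4)), k.pi = pi4 :=
  ⟨⟨pi4, lam4, lam4_mul, lam4_sum, lam4_inj, lam4_ex⟩, rfl⟩

end H48.SF
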