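import Pool.Agent.H48.SF.SDf
import Pool.Agent.H38.SE.Defs
import Pool.Agent.H38.ML.Small
import Pool.Agent.H63.MA.GLoc

/-!
# [H48 SF LEP] equal local types, 50-80 lines. File Pool/Agent/H48/SF/Lep.lean

`LEq S Q c c'` (H67/SX/Defs.lean): for `v ∈ S` a bijection `e'` of the sets of embeddings with `e' (σ ∘ ι) = σ ∘ e' ι`, `σ ∈ dec (Q.P v)`. `Fin 3 ≃ (c.F →ₐ[K] QBar)`, `i ↦ (t i) ∘ val`: injective (`t i`, `t i'` agree on `F` iff `(t i)⁻¹ t i'` fixes `F` iff `χ (..) 0 = 0` iff `i = i'`, `H.fix`, `H.ti`), both have three elements (`AlgHom.card`/`c.deg`).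
`σ ∘ (t i) ∘ val = (t (χ σ i)) ∘ val`: `(t (χ σ i))⁻¹ σ (t i)` maps the point 0 to 0. So `e'` is transported to a permutation `e v` of `Fin 3` with `e v (χ σ i) = χ' σ (e v i)`.
`leq_np`: the primes of `c.F` over `v` correspond to the orbits of `dec (Q.P v)` on the embeddings: `ι ↦ comap ι (Q.P v)` (a prime of `𝓞 F` over `v`) is surjective (every prime of `F` over `v` is below some prime `g • Q.P v` of `𝓞 QBar`: `ι = g⁻¹ ∘ val`), and `ι, ι'` give the same prime iff `ι' = σ ∘ ι` with `σ ∈ dec (Q.P v)`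
(`ι = g ∘ val`, `ι' = g' ∘ val` (every embedding extends), the primes `g⁻¹ • Q.P v`, `g'⁻¹ • Q.P v` of `𝓞 QBar` lie over the same prime of `F`, so `g'⁻¹ • Q.P v = h g⁻¹ • Q.P v` with `h ∈ Gal(QBar/F)`: `axa_trans` in H48/T3/AxA.lean over the base field `F`; `σ = g' h g⁻¹`). So `e'` induces a bijection of the orbits. (`Nat.card` of `Quot`, or `Set.ncard_congr`.)
-/

set_option autoImplicit false
set_option linter.dupNamespace false

open scoped NumberField Classical Pointwise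
open IsDedekindDomain H38.ML H63.MA

noncomputable section

namespace H48.SF

open H48.KV H67.SX H38.SE
open H48.T3 hiding Ch Fib

variable {K : IntermediateField ℚ QBar} [NumberField K]
  {χ χ' : Gal(QBar/K) →* Equiv.Perm (Fin 3)} {c c' : Cu K} {t t' : Fin 3 → Gal(QBar/K)}

/-- the embeddings are numbered by the points -/
private theorem lep_emb (H : Std χ c t) : ∃ E : Fin 3 ≃ (c.F →ₐ[K] QBar), ∀ (σ : Gal(QBar/K)) (i : Fin 3),
    (σ : QBar →ₐ[K] QBar).comp (E i) = E (χ σ i) := by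
  have key : ∀ (σ τ : Gal(QBar/K)), (σ : QBar →ₐ[K] QBar).comp c.F.val = (τ : QBar →ₐ[K] QBar).comp c.F.val ↔
      χ σ 0 = χ τ 0 := by
    intro σ τ
    rw [small_comp_val_eq_iff, H.fix, map_mul, map_inv, Equiv.Perm.mul_apply, Equiv.Perm.inv_eq_iff_eq]
  have hinj : Function.Injective fun i : Fin 3 => ((t i : Gal(QBar/K)) : QBar →ₐ[K] QBar).comp c.F.val := by
    intro i j hij
    have h := (key _ _).1 hij
    rwa [H.ti, H.ti] at h
  have hsur : Function.Surjective fun i : Fin 3 => ((t i : Gal(QBar/K)) : QBar →ₐ[K] QBar).comp c.F.val := by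
    intro φ
    obtain ⟨σ, hσ⟩ := small_exists_ext c.F φ
    refine ⟨χ σ 0, ?_⟩
    rw [hσ]
    exact (key _ _).2 (H.ti _)
  refine ⟨Equiv.ofBijective _ ⟨hinj, hsur⟩, fun σ i => ?_⟩
  have h1 : (σ : QBar →ₐ[K] QBar).comp (((t i : Gal(QBar/K)) : QBar →ₐ[K] QBar).comp c.F.val) =
      ((σ * t i : Gal(QBar/K)) : QBar →ₐ[K] QBar).comp c.F.val := rfl
  change (σ : QBar →ₐ[K] QBar).comp (((t i : Gal(QBar/K)) : QBar →ₐ[K] QBar).comp c.F.val) =
    ((t (χ σ i) : Gal(QBar/K)) : QBar →ₐ[K] QBar).comp c.F.val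
  rw [h1, key, map_mul, Equiv.Perm.mul_apply, H.ti, H.ti]

theorem leq_perm (H : Std χ c t) (H' : Std χ' c' t') (Q : DP K QBar) (S : Finset (Pl K))
    (h : LEq S Q c c') : ∃ e : Pl K → Equiv.Perm (Fin 3),
      ∀ v ∈ S, ∀ σ ∈ dec (K := K) (Q.P v), χ' σ = e v * χ σ * (e v)⁻¹ := by
  obtain ⟨E, hE⟩ := lep_emb H
  obtain ⟨E', hE'⟩ := lep_emb H'
  have h1 : ∀ v, ∃ e : Equiv.Perm (Fin 3), v ∈ S → ∀ σ ∈ dec (K := K) (Q.P v), χ' σ = e * χ σ * e⁻¹ := by
    intro v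
    by_cases hv : v ∈ S
    · obtain ⟨e, he⟩ := h v hv
      refine ⟨(E.trans e).trans E'.symm, fun _ σ hσ => ?_⟩
      rw [eq_mul_inv_iff_mul_eq]
      ext1 i
      apply E'.injective
      rw [Equiv.Perm.mul_apply, Equiv.Perm.mul_apply, ← hE']
      simp only [Equiv.trans_apply, Equiv.apply_symm_apply]
      rw [← hE, he σ hσ]
    · exact ⟨1, fun h => absurd h hv⟩
  choose e he using h1
  exact ⟨e, he⟩

theorem leq_refl (S : Finset (Pl K)) (Q : DP K QBar) (c : Cu K) : LEq S Q c c :=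
  fun _ _ => ⟨Equiv.refl _, fun _ _ _ => rfl⟩

theorem leq_symm (S : Finset (Pl K)) (Q : DP K QBar) (c c' : Cu K) (h : LEq S Q c c') :
    LEq S Q c' c := by
  intro v hv
  obtain ⟨e, he⟩ := h v hv
  refine ⟨e.symm, fun σ hσ ι => ?_⟩
  rw [Equiv.symm_apply_eq, he σ hσ, Equiv.apply_symm_apply]

private theorem lep_trans {K : Type} [Field K] [NumberField K] {Ω : Type} [Field Ω] [Algebra K Ω]
    [IsAlgClosure K Ω] (P P' : Ideal (𝓞 Ω)) (hP : P.IsPrime) (hP' : P'.IsPrime)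
    (h : P.under (𝓞 K) = P'.under (𝓞 K)) : ∃ g : Gal(Ω/K), P' = g • P := by
  have : IsGalois K Ω := IsAlgClosure.isGalois K Ω
  let _ : TopologicalSpace (𝓞 Ω) := ⊥
  have : DiscreteTopology (𝓞 Ω) := ⟨rfl⟩
  have : ContinuousSMul Gal(Ω/K) (𝓞 Ω) := by
    rw [continuousSMul_iff_stabilizer_isOpen]
    intro x
    have h1 := stabilizer_isOpen_of_isIntegral (K := K) (L := Ω) (x : Ω)
    have h2 : (MulAction.stabilizer Gal(Ω/K) x : Set Gal(Ω/K)) =
        (MulAction.stabilizer Gal(Ω/K) (x : Ω) : Set Gal(Ω/K)) := by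
      ext g
      simp only [SetLike.mem_coe, MulAction.mem_stabilizer_iff]
      constructor
      · intro hg
        exact congrArg (fun z : 𝓞 Ω => (z : Ω)) hg
      · intro hg
        exact NumberField.RingOfIntegers.ext hg
    rw [h2]
    exact h1
  have : Algebra.IsInvariant (𝓞 K) (𝓞 Ω) Gal(Ω/K) := ⟨fun b hb => by
    have h1 : (b : Ω) ∈ (⊥ : IntermediateField K Ω) := by
      rw [← InfiniteGalois.fixedField_bot (k := K) (K := Ω), IntermediateField.mem_fixedField_iff]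
      intro g _
      exact congrArg (fun z : 𝓞 Ω => (z : Ω)) (hb g)
    obtain ⟨a, ha⟩ := IntermediateField.mem_bot.1 h1
    have h2 : IsIntegral ℤ a := by
      have h3 : IsIntegral ℤ (algebraMap K Ω a) := by
        rw [ha]
        exact b.2
      exact (isIntegral_algebraMap_iff (algebraMap K Ω).injective).1 h3
    refine ⟨⟨a, h2⟩, NumberField.RingOfIntegers.ext ?_⟩
    exact ha⟩
  exact Algebra.IsInvariant.exists_smul_of_under_eq_of_profinite (A := 𝓞 K) (G := Gal(Ω/K)) P P' h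

/-- membership in the prime of an embedding -/
private theorem lep_under (F : IntermediateField K QBar) (P : Ideal (𝓞 QBar)) (g h : Gal(QBar/K))
    (hh : h ∈ F.fixingSubgroup) : ((h * g) • P).under (𝓞 F) = (g • P).under (𝓞 F) := by
  ext x
  change algebraMap (𝓞 F) (𝓞 QBar) x ∈ (h * g) • P ↔ algebraMap (𝓞 F) (𝓞 QBar) x ∈ g • P
  rw [mul_smul, Ideal.mem_pointwise_smul_iff_inv_smul_mem]
  have h1 : h⁻¹ • algebraMap (𝓞 F) (𝓞 QBar) x = algebraMap (𝓞 F) (𝓞 QBar) x := by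
    apply NumberField.RingOfIntegers.ext
    have h2 := (IntermediateField.mem_fixingSubgroup_iff F h⁻¹).1 (inv_mem hh)
    exact h2 ((x : F) : QBar) (x : F).2
  rw [h1]

/-- the primes over `v` are the orbits of the decomposition group on the embeddings -/
private theorem lep_np (Q : DP K QBar) (c : Cu K) (v : Pl K) : c.np v = Nat.card
    (Quot fun ι ι' : c.F →ₐ[K] QBar => ∃ σ ∈ dec (K := K) (Q.P v), (σ : QBar →ₐ[K] QBar).comp ι = ι') := by
  have hcl : IsAlgClosure c.F QBar := alg_cl c.F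
  choose s hs using small_exists_ext c.F
  -- the ideal of an embedding
  obtain ⟨Φ, hΦ⟩ : ∃ Φ : (c.F →ₐ[K] QBar) → Ideal (𝓞 c.F), ∀ (ι : c.F →ₐ[K] QBar) (g : Gal(QBar/K)),
      ι = ((g⁻¹ : Gal(QBar/K)) : QBar →ₐ[K] QBar).comp c.F.val → Φ ι = (g • Q.P v).under (𝓞 c.F) := by
    refine ⟨fun ι => ((s ι)⁻¹ • Q.P v).under (𝓞 c.F), fun ι g hg => ?_⟩
    have h1 : (s ι)⁻¹ * g⁻¹ ∈ c.F.fixingSubgroup := by
      rw [← small_comp_val_eq_iff, ← hs]
      exact hg.symm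
    have h2 := lep_under c.F (Q.P v) g _ h1
    rw [inv_mul_cancel_right] at h2
    exact h2
  have hex : ∀ ι : c.F →ₐ[K] QBar, ∃ g : Gal(QBar/K), ι = ((g⁻¹ : Gal(QBar/K)) : QBar →ₐ[K] QBar).comp c.F.val := by
    intro ι
    refine ⟨(s ι)⁻¹, ?_⟩
    rw [inv_inv]
    exact hs ι
  have hK : ∀ g : Gal(QBar/K), (g • Q.P v).under (𝓞 K) = v.asIdeal := by
    intro g
    rw [← Q.under v]
    ext x
    change algebraMap (𝓞 K) (𝓞 QBar) x ∈ g • Q.P v ↔ algebraMap (𝓞 K) (𝓞 QBar) x ∈ Q.P v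
    rw [Ideal.mem_pointwise_smul_iff_inv_smul_mem]
    have h1 : g⁻¹ • algebraMap (𝓞 K) (𝓞 QBar) x = algebraMap (𝓞 K) (𝓞 QBar) x := by
      apply NumberField.RingOfIntegers.ext
      exact (g⁻¹ : Gal(QBar/K)).commutes (x : K)
    rw [h1]
  have hKF : ∀ P : Ideal (𝓞 QBar), (P.under (𝓞 c.F)).comap (algebraMap (𝓞 K) (𝓞 c.F)) = P.under (𝓞 K) := by
    intro P
    ext x
    exact Iff.rfl
  have hprime : ∀ g : Gal(QBar/K), (g • Q.P v).IsPrime := by
    intro g
    have := Q.prime v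
    infer_instance
  have hiff : ∀ ι ι' : c.F →ₐ[K] QBar, Φ ι = Φ ι' ↔
      ∃ σ ∈ dec (K := K) (Q.P v), (σ : QBar →ₐ[K] QBar).comp ι = ι' := by
    intro ι ι'
    obtain ⟨g, hg⟩ := hex ι
    constructor
    · intro h
      obtain ⟨g', hg'⟩ := hex ι'
      rw [hΦ ι g hg, hΦ ι' g' hg'] at h
      obtain ⟨τ, hτ⟩ := lep_trans (K := c.F) (Ω := QBar) _ _ (hprime g) (hprime g') h
      have hτ' : g' • Q.P v = (τ.restrictScalars K : Gal(QBar/K)) • (g • Q.P v) := hτ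
      refine ⟨g'⁻¹ * (τ.restrictScalars K : Gal(QBar/K)) * g, ?_, ?_⟩
      · have h1 : (g'⁻¹ * (τ.restrictScalars K : Gal(QBar/K)) * g) • Q.P v = Q.P v := by
          rw [mul_smul, mul_smul, ← hτ', inv_smul_smul]
        intro x
        conv_lhs => rw [← h1]
        exact Ideal.smul_mem_pointwise_smul_iff
      · rw [hg, hg']
        ext x
        change (g'⁻¹ : Gal(QBar/K)) ((τ : QBar → QBar) (g ((g⁻¹ : Gal(QBar/K)) (x : QBar)))) = (g'⁻¹ : Gal(QBar/K)) (x : QBar)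
        have h2 : g ((g⁻¹ : Gal(QBar/K)) (x : QBar)) = x := by
          rw [← AlgEquiv.mul_apply, mul_inv_cancel, AlgEquiv.one_apply]
        rw [h2]
        congr 1
        exact τ.commutes x
    · rintro ⟨σ, hσ, rfl⟩
      have h1 : (σ : QBar →ₐ[K] QBar).comp ι = (((g * σ⁻¹)⁻¹ : Gal(QBar/K)) : QBar →ₐ[K] QBar).comp c.F.val := by
        rw [mul_inv_rev, inv_inv]
        conv_lhs => rw [hg]
        rfl
      rw [hΦ ι g hg, hΦ _ _ h1]
      have h2 : σ⁻¹ • Q.P v = Q.P v := by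
        ext x
        rw [Ideal.mem_pointwise_smul_iff_inv_smul_mem, inv_inv]
        exact hσ x
      rw [mul_smul, h2]
  have hov : ∀ ι, ∃ P : Pl c.F, P.asIdeal = Φ ι ∧ Over P v := by
    intro ι
    obtain ⟨g, hg⟩ := hex ι
    have h1 : (Φ ι).comap (algebraMap (𝓞 K) (𝓞 c.F)) = v.asIdeal := by
      rw [hΦ ι g hg, hKF, hK]
    refine ⟨⟨Φ ι, ?_, ?_⟩, rfl, h1⟩
    · rw [hΦ ι g hg]
      have := hprime g
      infer_instance
    · intro h2
      rw [h2] at h1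
      apply v.ne_bot
      rw [← h1]
      exact Ideal.comap_bot_of_injective _ (NumberField.RingOfIntegers.algebraMap.injective K c.F)
  choose f hf1 hf2 using hov
  let F : Quot (fun ι ι' : c.F →ₐ[K] QBar => ∃ σ ∈ dec (K := K) (Q.P v), (σ : QBar →ₐ[K] QBar).comp ι = ι') →
      {P : Pl c.F | Over P v} := Quot.lift (fun ι => ⟨f ι, hf2 ι⟩) (by
    intro ι ι' h
    apply Subtype.ext
    apply HeightOneSpectrum.ext
    change (f ι).asIdeal = (f ι').asIdeal
    rw [hf1, hf1, hiff]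
    exact h)
  have hF : Function.Bijective F := by
    constructor
    · intro a b
      obtain ⟨ι, rfl⟩ := Quot.exists_rep a
      obtain ⟨ι', rfl⟩ := Quot.exists_rep b
      intro h
      apply Quot.sound
      rw [← hiff, ← hf1, ← hf1]
      exact congrArg HeightOneSpectrum.asIdeal (congrArg Subtype.val h)
    · rintro ⟨P, hP⟩
      obtain ⟨B, hB, hBP⟩ := gloc_over c.F QBar P.asIdeal P.isPrime
      have hBv : B.under (𝓞 K) = v.asIdeal := by
        rw [← hKF, hBP]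
        exact hP
      obtain ⟨g, hg⟩ := lep_trans (K := K) (Q.P v) B (Q.prime v) hB ((Q.under v).trans hBv.symm)
      refine ⟨Quot.mk _ (((g⁻¹ : Gal(QBar/K)) : QBar →ₐ[K] QBar).comp c.F.val), ?_⟩
      apply Subtype.ext
      apply HeightOneSpectrum.ext
      change (f _).asIdeal = P.asIdeal
      rw [hf1, hΦ _ g rfl, ← hg, hBP]
  unfold Cu.np
  rw [← Nat.card_coe_set_eq]
  exact (Nat.card_congr (Equiv.ofBijective F hF)).symm

theorem leq_np (S : Finset (Pl K)) (Q : DP K QBar) (c c' : Cu K) (h : LEq S Q c c') (v : Pl K)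
    (hv : v ∈ S) : c.np v = c'.np v := by
  obtain ⟨e, he⟩ := h v hv
  rw [lep_np Q c v, lep_np Q c' v]
  refine Nat.card_congr (Quot.congr e fun ι ι' => ?_)
  constructor
  · rintro ⟨σ, hσ, h1⟩
    exact ⟨σ, hσ, by rw [← he σ hσ, h1]⟩
  · rintro ⟨σ, hσ, h1⟩
    refine ⟨σ, hσ, e.injective ?_⟩
    rw [he σ hσ, h1]

end H48.SF
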