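import Pool.Agent.H48.SF.FBa
import Pool.Agent.H48.SF.AqO
import Pool.Agent.H48.SF.Ks4
import Pool.Agent.H48.SF.Lep
import Pool.Agent.H48.SF.Sta

/-!
# [H48 SF FFM] the fibre formula (main theorem of the chapter), 80-120 lines. File Pool/Agent/H48/SF/Ffm.lean

`Df` from `ds_fin`. `C₁` from `nty_bd`. For every `c : Cu K` let `χ_c`, `t_c` from `std_cu`. `W d c = 4 * kap c S * nty χ_c (ds = d) / nty χ_c True`; `0 ≤ W ≤ 4 * 4 ^ #S * 2 ^ [K : ℚ]` (`nty_le`, `kap_pos`). If `LEq S Q c c'`: `kap c S = kap c' S` (`leq_np`, `np_ov`), `nty_inv` for `ds = d` (`inv_ds`) and `True`. `W d c > 0` for some `d`: `nty_sum`, `kap_pos`, `nty_all`.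
For `χ ∈ Ch K`, `c.F = F0 χ`: `t` from `std_ex`, `nty χ = nty χ_c` (`nty_inv`, `leq_refl`), `Θ` from `fib_one`, `Z` = image of `Θ` under `z` of `aq_of` (injective), `#Z = #Θ ≤ 8 ^ #S * C₁ * selc K c.F`, `selg c.F = selc K c.F` (unfold, `dif_pos`). Divide the inequality of `fib_one` by `nty True > 0` (`nty_all`) and use `nty (ds = d) ≤ nty True`. `ub_new` for the last bound.
`C` = maximum of the constants.
-/

set_option autoImplicit false
set_option linter.dupNamespace false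

open scoped NumberField Classical Pointwise
open IsDedekindDomain H38.ML H63.MA

noncomputable section

namespace H48.SF

open H48.KV H67.SX H38.SE
open H48.T3 hiding Ch Fib

variable {K : IntermediateField ℚ QBar} [NumberField K] {G : Type} [Group G]

private theorem ffk_selg (c : Cu K) : selg c.F = selc K c.F := by
  unfold selg
  rw [dif_pos (inferInstance : NumberField c.F)]

theorem ffk (hi : MOne 2 K) (k : KS G) (S : Finset (Pl K)) (h2 : ∀ v : Pl K, Above 2 v → v ∈ S)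
    (Q : DP K QBar) (hL : LFin K S Q) : FFS K S Q k.pi := by
  intro ds hds
  refine ⟨ds_fin hi k Q S hL ds hds, ?_⟩
  obtain ⟨C₁, hC₁⟩ := nty_bd hi k Q S hL
  choose χc tc hχc hFc Hc using std_cu (K := K)
  have hinv : ∀ d : ℕ, Inv S Q (fun φ : Gal(QBar/K) →* G => ds φ = d) := fun d => inv_ds hds d
  have htrue : Inv S Q (fun _ : Gal(QBar/K) →* G => True) := fun _ _ _ _ _ _ _ => Iff.rfl
  have hle : ∀ (c : Cu K) (d : ℕ), nty k S Q (χc c) (fun φ => ds φ = d) ≤
      nty k S Q (χc c) (fun _ => True) := by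
    intro c d
    obtain ⟨cl, hcl⟩ := cl_ex (k := k) (Hc c)
    exact nty_le hi (Hc c) hcl S Q _ (hinv d)
  have hpos : ∀ c : Cu K, 0 < nty k S Q (χc c) (fun _ => True) := by
    intro c
    obtain ⟨cl, hcl⟩ := cl_ex (k := k) (Hc c)
    exact (nty_all hi (Hc c) hcl S Q).2
  have hkap : ∀ c : Cu K, (0 : ℝ) < kap c S ∧ (kap c S : ℝ) ≤ 4 ^ S.card * 2 ^ Module.finrank ℚ K := by
    intro c
    obtain ⟨h, h'⟩ := kap_pos c S
    exact ⟨by exact_mod_cast h, by exact_mod_cast h'⟩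
  obtain ⟨C, hC⟩ : ∃ C : ℝ, C = 4 * (4 ^ S.card * 2 ^ Module.finrank ℚ K) + 8 ^ S.card * C₁ +
      4 * 8 ^ S.card := ⟨_, rfl⟩
  have hp1 : (0 : ℝ) ≤ 4 * (4 ^ S.card * 2 ^ Module.finrank ℚ K) := by positivity
  have hp2 : (0 : ℝ) ≤ 8 ^ S.card * C₁ := by positivity
  have hp3 : (4 : ℝ) ≤ 4 * 8 ^ S.card := by
    have : (1 : ℝ) ≤ 8 ^ S.card := one_le_pow₀ (by norm_num)
    linarith
  have hC4 : 4 ≤ C := by rw [hC]; linarith
  have hCW : 4 * (4 ^ S.card * 2 ^ Module.finrank ℚ K) ≤ C := by rw [hC]; linarith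
  have hCZ : 8 ^ S.card * (C₁ : ℝ) ≤ C := by rw [hC]; linarith
  have hCU : (4 : ℝ) * 8 ^ S.card ≤ C := by rw [hC]; linarith
  obtain ⟨W, hW⟩ : ∃ W : ℕ → Cu K → ℝ, W = fun d c =>
      4 * (kap c S : ℝ) * (nty k S Q (χc c) (fun φ => ds φ = d) : ℝ) /
        (nty k S Q (χc c) (fun _ => True) : ℝ) := ⟨_, rfl⟩
  have hWn : ∀ d c, 0 ≤ W d c ∧ W d c ≤ C := by
    intro d c
    rw [hW]
    have h1 : (0 : ℝ) < nty k S Q (χc c) (fun _ => True) := by exact_mod_cast hpos c
    have h3 : (nty k S Q (χc c) (fun φ => ds φ = d) : ℝ) ≤ nty k S Q (χc c) (fun _ => True) := by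
      exact_mod_cast hle c d
    have h4 : (0 : ℝ) ≤ nty k S Q (χc c) (fun φ => ds φ = d) := Nat.cast_nonneg _
    refine ⟨by positivity, ?_⟩
    rw [div_le_iff₀ h1]
    have h5 : 4 * (kap c S : ℝ) ≤ C := (mul_le_mul_of_nonneg_left (hkap c).2 (by norm_num)).trans hCW
    exact mul_le_mul h5 h3 h4 (by linarith)
  refine ⟨C, W, by linarith, hWn, ?_, ?_, ?_⟩
  · intro d c c' hT
    have h1 : kap c S = kap c' S := by
      unfold kap
      congr 2
      refine Finset.sum_congr rfl fun v hv => ?_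
      rw [← np_ov, ← np_ov, leq_np S Q c c' hT v hv]
    rw [hW]
    simp only
    rw [h1, nty_inv k (Hc c) (Hc c') Q S hT _ (hinv d), nty_inv k (Hc c) (Hc c') Q S hT _ htrue]
  · intro c
    obtain ⟨d, hd⟩ := nty_sum hi k Q S ds hds (χc c) c (tc c) (Hc c)
    refine ⟨d, ?_⟩
    rw [hW]
    have h1 : (0 : ℝ) < nty k S Q (χc c) (fun _ => True) := by exact_mod_cast hpos c
    have h3 : (0 : ℝ) < nty k S Q (χc c) (fun φ => ds φ = d) := by exact_mod_cast hd
    have h4 := (hkap c).1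
    positivity
  · intro d χ hχ c hc
    obtain ⟨t, H⟩ := std_ex χ hχ c hc
    have hn1 : nty k S Q χ (fun _ => True) = nty k S Q (χc c) (fun _ => True) :=
      nty_inv k H (Hc c) Q S (leq_refl S Q c) _ htrue
    have hn2 : nty k S Q χ (fun φ => ds φ = d) = nty k S Q (χc c) (fun φ => ds φ = d) :=
      nty_inv k H (Hc c) Q S (leq_refl S Q c) _ (hinv d)
    obtain ⟨Θ, hΘ, hΘc, hmain⟩ := fib_one hi H S h2 Q ds hds d
    obtain ⟨z, hz, hzF, hzs⟩ := aq_of c S h2
    have hWe : W d c = 4 * (kap c S : ℝ) * (nty k S Q χ (fun φ => ds φ = d) : ℝ) /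
        (nty k S Q χ (fun _ => True) : ℝ) := by
      rw [hW, hn1, hn2]
    have h1 : (0 : ℝ) < nty k S Q χ (fun _ => True) := by
      rw [hn1]
      exact_mod_cast hpos c
    have hinj : Function.Injective fun θ : Θ => z ⟨θ.1, hΘ θ.1 θ.2⟩ := by
      intro θ θ' h
      have h3 := congrArg Subtype.val (hz h)
      exact Subtype.ext h3
    refine ⟨Θ.attach.image fun θ => z ⟨θ.1, hΘ θ.1 θ.2⟩, ?_, ?_, ?_⟩
    · intro x hx
      obtain ⟨θ, -, rfl⟩ := Finset.mem_image.1 hx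
      rw [hzF]
    · rw [Finset.card_image_of_injective _ hinj, Finset.card_attach, ffk_selg]
      have h3 : Θ.card ≤ 8 ^ S.card * selc K c.F * C₁ := by
        have h4 : 1 ≤ kap c S := (kap_pos c S).1
        calc Θ.card ≤ (Θ.card + 1) * kap c S := by nlinarith
          _ ≤ 8 ^ S.card * selc K c.F * nty k S Q χ (fun _ => True) := hΘc
          _ ≤ 8 ^ S.card * selc K c.F * C₁ := Nat.mul_le_mul_left _ (hC₁ χ c t H)
      have h4 : (Θ.card : ℝ) ≤ 8 ^ S.card * C₁ * selc K c.F := by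
        have h5 : (Θ.card : ℝ) ≤ ((8 ^ S.card * selc K c.F * C₁ : ℕ) : ℝ) := by exact_mod_cast h3
        refine h5.trans (le_of_eq ?_)
        push_cast
        ring
      exact h4.trans (mul_le_mul_of_nonneg_right hCZ (Nat.cast_nonneg _))
    · intro Y hY
      obtain ⟨hfin, hin⟩ := hmain Y hY
      refine ⟨hfin, ?_, ?_⟩
      · rw [Finset.sum_image fun θ _ θ' _ h => hinj h]
        have h4 : ∑ θ ∈ Θ.attach, |(z ⟨θ.1, hΘ θ.1 θ.2⟩).sq Y| =
            ∑ θ ∈ Θ, |∑ q ∈ AS K S Y, ∏ l ∈ q, ∑ᶠ g ∈ c.Ev l, ∏ P ∈ g, sg (θ P)| := by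
          rw [← Finset.sum_attach Θ]
          refine Finset.sum_congr rfl fun θ _ => ?_
          rw [hzs ⟨θ.1, hΘ θ.1 θ.2⟩ Y]
        rw [h4]
        obtain ⟨Sg, hSg⟩ : ∃ Sg, Sg = ∑ θ ∈ Θ, |∑ q ∈ AS K S Y, ∏ l ∈ q, ∑ᶠ g ∈ c.Ev l,
          ∏ P ∈ g, sg (θ P)| := ⟨_, rfl⟩
        have hSg0 : 0 ≤ Sg := by
          rw [hSg]
          exact Finset.sum_nonneg fun _ _ => abs_nonneg _
        rw [← hSg] at hin
        rw [← hSg]
        obtain ⟨hWn0, hWC⟩ := hWn d c
        have h5 : ((Fib k.pi Q S ds χ d Y).ncard : ℝ) - W d c * c.mq S Y =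
            (((Fib k.pi Q S ds χ d Y).ncard : ℝ) * nty k S Q χ (fun _ => True) -
              4 * kap c S * nty k S Q χ (fun φ => ds φ = d) * c.mq S Y) /
                nty k S Q χ (fun _ => True) := by
          rw [hWe]
          field_simp
        have h6 : (4 * (nty k S Q χ (fun _ => True) : ℝ) +
              4 * kap c S * nty k S Q χ (fun φ => ds φ = d) * Sg) /
                nty k S Q χ (fun _ => True) = 4 + W d c * Sg := by
          rw [hWe]
          field_simp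
        rw [h5, abs_div, abs_of_pos h1]
        refine ((div_le_div_iff_of_pos_right h1).2 hin).trans ?_
        rw [h6]
        exact add_le_add hC4 (mul_le_mul_of_nonneg_right hWC hSg0)
      · refine ((ub_new (k := k) hi H S h2 Q ds d Y).2).trans ?_
        rw [ffk_selg]
        have h7 : (0 : ℝ) ≤ ∑ q ∈ AS K S Y, (3 : ℝ) ^ q.card :=
          Finset.sum_nonneg fun _ _ => by positivity
        refine mul_le_mul_of_nonneg_right ?_ h7
        rw [← mul_assoc]
        exact mul_le_mul_of_nonneg_right hCU (Nat.cast_nonneg _)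

theorem ffs (hi : MOne 2 K) (S : Finset (Pl K)) (h2 : ∀ v : Pl K, Above 2 v → v ∈ S)
    (Q : DP K QBar) (hL : LFin K S Q) : FFS K S Q pi4 := by
  obtain ⟨k, hk⟩ := ks4
  rw [← hk]
  exact ffk hi k S h2 Q hL

end H48.SF
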