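import Pool.Agent.H48.SF.SDf
import Pool.Agent.H63.MA.GKum
import Pool.Agent.H63.MA.GKus

/-!
# [H48 SF KX] Kummer characters of `F`, as functions on `Gal(QBar/K)`, 100-150 lines. File Pool/Agent/H48/SF/Kx.lean

`kx c a σ` is the value of the Kummer character of `a : Fˣ` at `σ : Gal(QBar/K)` if `σ` fixes `F = c.F`, and 0 otherwise. `IntermediateField.fixingSubgroupEquiv c.F : c.F.fixingSubgroup ≃* Gal(QBar/c.F)`. `QBar` is an algebraic closure of `F`: `alg_cl c.F` (VDef.lean of T3), `-1` is a primitive square root of unity: `neg_one_prim c.F`.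
* `kx_ex`: the inverse of the equivalence. `kx_kk`: both sides are values at the same automorphism. `kx_mul`: `kk_mul`. `kx_arg`: `kk_mul_arg` (if `σ` does not fix `F` all are 0). `kx_sq`: `kx_arg`, `x + x = 0`.
* `kx_zero`: `kk_eq_zero_iff`. `kx_v2`: `kx_zero` for `a * b` (`v2_eq`).
* `kx_all`: `κ` restricted to `F.fixingSubgroup` is a homomorphism to `Multiplicative (ZMod 2)` of finite type over `F` (the field `E ⊔ F` as an extension of `F`, `IntermediateField.extendScalars`; copy from the end of `axa_hom` in Pool/Agent/H48/T3/AxA.lean), `kc_all` (H63/MA/GKus.lean).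
* `kx_root`: if `B ^ 2 = a` in `QBar` and `σ` fixes `F` then `σ B = (-1)^(kx c a σ) B` (`kk_root`).
-/

set_option autoImplicit false
set_option linter.dupNamespace false

open scoped NumberField Classical Pointwise
open IsDedekindDomain H38.ML H63.MA

noncomputable section

namespace H48.SF

open H48.KV H67.SX H38.SE
open H48.T3 hiding Ch Fib

variable {K : IntermediateField ℚ QBar} [NumberField K]

/-- the Kummer character of `a`, extended by zero -/
def kx (c : Cu K) (a : c.Fˣ) (σ : Gal(QBar/K)) : ZMod 2 :=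
  if h : σ ∈ c.F.fixingSubgroup then
    kk 2 (-1 : c.F) a (IntermediateField.fixingSubgroupEquiv c.F ⟨σ, h⟩) else 0

private theorem kx_pos (c : Cu K) (a : c.Fˣ) {σ : Gal(QBar/K)} (h : σ ∈ c.F.fixingSubgroup) :
    kx c a σ = kk 2 (-1 : c.F) a (IntermediateField.fixingSubgroupEquiv c.F ⟨σ, h⟩) := dif_pos h

private theorem kx_neg (c : Cu K) (a : c.Fˣ) {σ : Gal(QBar/K)} (h : σ ∉ c.F.fixingSubgroup) :
    kx c a σ = 0 := dif_neg h

theorem kx_ex (c : Cu K) (σ : Gal(QBar/K)) (h : σ ∈ c.F.fixingSubgroup) :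
    ∃ σ' : Gal(QBar/c.F), (σ'.restrictScalars K : Gal(QBar/K)) = σ := by
  refine ⟨IntermediateField.fixingSubgroupEquiv c.F ⟨σ, h⟩, ?_⟩
  ext x
  rfl

theorem kx_fix (c : Cu K) (σ : Gal(QBar/c.F)) :
    (σ.restrictScalars K : Gal(QBar/K)) ∈ c.F.fixingSubgroup := by
  rw [IntermediateField.mem_fixingSubgroup_iff]
  intro x hx
  exact σ.commutes ⟨x, hx⟩

theorem kx_kk (c : Cu K) (a : c.Fˣ) (σ : Gal(QBar/c.F)) :
    kx c a (σ.restrictScalars K) = kk 2 (-1 : c.F) a σ := by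
  rw [kx_pos c a (kx_fix c σ)]
  congr 1

theorem kx_mul (c : Cu K) (a : c.Fˣ) {σ τ : Gal(QBar/K)} (hσ : σ ∈ c.F.fixingSubgroup)
    (hτ : τ ∈ c.F.fixingSubgroup) : kx c a (σ * τ) = kx c a σ + kx c a τ := by
  have := alg_cl c.F
  obtain ⟨σ', rfl⟩ := kx_ex c σ hσ
  obtain ⟨τ', rfl⟩ := kx_ex c τ hτ
  have e : (σ'.restrictScalars K : Gal(QBar/K)) * (τ'.restrictScalars K : Gal(QBar/K)) =
      ((σ' * τ').restrictScalars K : Gal(QBar/K)) := rfl
  rw [e, kx_kk, kx_kk, kx_kk, kk_mul]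

theorem kx_arg (c : Cu K) (a b : c.Fˣ) (σ : Gal(QBar/K)) :
    kx c (a * b) σ = kx c a σ + kx c b σ := by
  by_cases h : σ ∈ c.F.fixingSubgroup
  · have := alg_cl c.F
    obtain ⟨σ', rfl⟩ := kx_ex c σ h
    rw [kx_kk, kx_kk, kx_kk, kk_mul_arg Nat.prime_two (neg_one_prim c.F)]
  · rw [kx_neg c _ h, kx_neg c _ h, kx_neg c _ h, add_zero]

theorem kx_sq (c : Cu K) (a : c.Fˣ) (σ : Gal(QBar/K)) : kx c (a ^ 2) σ = 0 := by
  rw [sq, kx_arg]
  exact CharTwo.add_self_eq_zero _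

theorem kx_zero (c : Cu K) (a : c.Fˣ) :
    (∀ σ ∈ c.F.fixingSubgroup, kx c a σ = 0) ↔ ∃ b : c.Fˣ, a = b ^ 2 := by
  have := alg_cl c.F
  have h1 := kk_eq_zero_iff (Ω := QBar) Nat.prime_two (neg_one_prim c.F) a
  constructor
  · intro h
    obtain ⟨y, hy⟩ := h1.1 fun σ => by
      rw [← kx_kk]
      exact h _ (kx_fix c σ)
    exact ⟨y, hy.symm⟩
  · rintro ⟨y, hy⟩ σ hσ
    obtain ⟨σ', rfl⟩ := kx_ex c σ hσ
    rw [kx_kk]
    exact h1.2 ⟨y, hy.symm⟩ σ'

theorem kx_v2 (c : Cu K) (a b : c.Fˣ) :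
    (∀ σ ∈ c.F.fixingSubgroup, kx c a σ = kx c b σ) ↔ v2 a = v2 b := by
  rw [v2_eq]
  constructor
  · intro h
    obtain ⟨d, hd⟩ := (kx_zero c (a * b)).1 fun σ hσ => by
      rw [kx_arg, h σ hσ]
      exact CharTwo.add_self_eq_zero _
    refine ⟨d / b, ?_⟩
    rw [div_pow, ← hd]
    apply Units.ext
    push_cast
    have hb : ((b : c.Fˣ) : c.F) ≠ 0 := b.ne_zero
    field_simp
  · rintro ⟨d, rfl⟩ σ _
    rw [kx_arg, kx_sq, add_zero]

theorem kx_all (c : Cu K) (κ : Gal(QBar/K) → ZMod 2)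
    (h1 : ∀ σ ∈ c.F.fixingSubgroup, ∀ τ ∈ c.F.fixingSubgroup, κ (σ * τ) = κ σ + κ τ)
    (h2 : ∃ E : IntermediateField K QBar, FiniteDimensional K E ∧ ∀ σ ∈ E.fixingSubgroup,
      σ ∈ c.F.fixingSubgroup → κ σ = 0) :
    ∃ a : c.Fˣ, ∀ σ ∈ c.F.fixingSubgroup, kx c a σ = κ σ := by
  have hcl := alg_cl c.F
  obtain ⟨E, hE1, hE2⟩ := h2
  have h0 : κ 1 = 0 := hE2 1 (one_mem _) (one_mem _)
  obtain ⟨χ, hχ⟩ : ∃ χ : Gal(QBar/c.F) →* Multiplicative (ZMod 2),
      ∀ σ, Multiplicative.toAdd (χ σ) = κ (σ.restrictScalars K) := by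
    refine ⟨⟨⟨fun σ => Multiplicative.ofAdd (κ (σ.restrictScalars K)), ?_⟩, ?_⟩, fun σ => rfl⟩
    · have e : ((1 : Gal(QBar/c.F)).restrictScalars K : Gal(QBar/K)) = 1 := rfl
      rw [e, h0]
      rfl
    · intro σ τ
      have e : ((σ * τ).restrictScalars K : Gal(QBar/K)) =
        (σ.restrictScalars K : Gal(QBar/K)) * (τ.restrictScalars K : Gal(QBar/K)) := rfl
      change Multiplicative.ofAdd _ = Multiplicative.ofAdd _ * Multiplicative.ofAdd _
      rw [← ofAdd_add, e, h1 _ (kx_fix c σ) _ (kx_fix c τ)]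
  have hft : FT χ := by
    have hle : c.F ≤ c.F ⊔ E := le_sup_left
    have hfs : FiniteDimensional K (c.F ⊔ E : IntermediateField K QBar) :=
      IntermediateField.finiteDimensional_sup c.F E
    refine ⟨IntermediateField.extendScalars hle, ?_, ?_⟩
    · have h3 : FiniteDimensional K (IntermediateField.extendScalars hle) := hfs
      exact FiniteDimensional.right K c.F _
    · intro u hu
      rw [IntermediateField.mem_fixingSubgroup_iff] at hu
      rw [MonoidHom.mem_ker]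
      apply Multiplicative.toAdd.injective
      rw [hχ]
      refine hE2 _ ?_ (kx_fix c u)
      rw [IntermediateField.mem_fixingSubgroup_iff]
      intro x hx
      refine hu x ?_
      rw [IntermediateField.mem_extendScalars]
      exact (le_sup_right : E ≤ c.F ⊔ E) hx
  obtain ⟨a, ha⟩ := kc_all Nat.prime_two (neg_one_prim c.F) χ hft
  refine ⟨a, fun σ hσ => ?_⟩
  obtain ⟨σ', rfl⟩ := kx_ex c σ hσ
  rw [kx_kk, ← hχ, ha]
  rfl

theorem kx_root (c : Cu K) (a : c.Fˣ) (B : QBar) (hB : B ^ 2 = ((a : c.F) : QBar))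
    {σ : Gal(QBar/K)} (hσ : σ ∈ c.F.fixingSubgroup) : σ B = (-1) ^ (kx c a σ).val * B := by
  have hcl := alg_cl c.F
  obtain ⟨σ', rfl⟩ := kx_ex c σ hσ
  have h := kk_root Nat.prime_two (neg_one_prim c.F) a B hB σ'
  rw [map_neg, map_one] at h
  rw [kx_kk]
  exact h

end H48.SF
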