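import Pool.Agent.H48.SF.Kfn
import Pool.Agent.H48.SF.Orb
import Pool.Agent.H48.T3.AxA
import Pool.Agent.H48.T3.LtA

/-!
# [H48 SF LTA] elements with trivial Kummer character on the decomposition groups over `S`, 110-160 lines. File Pool/Agent/H48/SF/LtA.lean

`F = c.F`, `LTr c S a` (SDf.lean). Patterns: Pool/Agent/H48/T3/LtA.lean.
* `ltr_nrm`: let `𝔓` lie over `v ∈ S`, `D` = the decomposition group of `𝔓` in `Gal(QBar/K)` (`dec 𝔓`), `e σ i = kf c χ t a σ i`: a cocycle (`kf_coc`). If `σ ∈ D`, `χ σ i = i` then `e σ i = kx a ((t i)⁻¹ σ t i)`, and `(t i)⁻¹ σ t i` is in the decomposition group of `(t i)⁻¹ • 𝔓` (`ax_dec`), a prime over `v`, and fixes `F`: it is 0 by `LTr` (`kx_ex`, `kx_kk`). `ks_orb`: `e σ i = δ i + δ ((χ σ)⁻¹ i)` on `D`, so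
  `∑_i e σ i = 0` (`Equiv.sum_comp`). For `σ ∈ D` which fixes `F`: the Kummer character of `inc (Nm a)` at `σ` is `∑ e σ i = 0` (`kf_nmf`, `kx_kk`). (`std_cu` gives `χ`, `t` for every `c`.)
* `ltr_ps`, `ltr_ray`: copies of the proofs in Pool/Agent/H48/T3/LtA.lean (they do not use that `F` is Galois).
-/

set_option autoImplicit false
set_option linter.dupNamespace false

open scoped NumberField Classical Pointwise
open IsDedekindDomain H38.ML H63.MA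

noncomputable section

namespace H48.SF

open H48.KV H67.SX H38.SE
open H48.T3 hiding Ch Fib

variable {K : IntermediateField ℚ QBar} [NumberField K]

private theorem lta_pl (c : Cu K) {𝔓 : Ideal (𝓞 QBar)} (hp : 𝔓.IsPrime) {v : Pl K}
    (hv : 𝔓.under (𝓞 K) = v.asIdeal) : ∃ P : Pl c.F, 𝔓.under (𝓞 c.F) = P.asIdeal ∧ Over P v := by
  have hover : (𝔓.under (𝓞 c.F)).comap (algebraMap (𝓞 K) (𝓞 c.F)) = v.asIdeal := by
    rw [← hv]
    exact Ideal.ext fun a => Iff.rfl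
  have hne : 𝔓.under (𝓞 c.F) ≠ ⊥ := by
    intro h
    apply v.ne_bot
    rw [← hover, h, ← RingHom.ker_eq_comap_bot]
    exact (RingHom.injective_iff_ker_eq_bot _).mp
      (NumberField.RingOfIntegers.algebraMap.injective K c.F)
  exact ⟨⟨𝔓.under (𝓞 c.F), Ideal.IsPrime.comap _, hne⟩, rfl, hover⟩

omit [NumberField K] in
private theorem lta_dec (c : Cu K) {𝔓 : Ideal (𝓞 QBar)} (σ : Gal(QBar/c.F))
    (hσ : ∀ x : 𝓞 QBar, (σ.restrictScalars K : Gal(QBar/K)) • x ∈ 𝔓 ↔ x ∈ 𝔓) :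
    σ ∈ dec (K := c.F) 𝔓 := fun x => hσ x

private theorem lta_smul (g : Gal(QBar/K)) (𝔓 : Ideal (𝓞 QBar)) :
    (g • 𝔓).under (𝓞 K) = 𝔓.under (𝓞 K) := by
  ext a
  have h1 : g⁻¹ • algebraMap (𝓞 K) (𝓞 QBar) a = algebraMap (𝓞 K) (𝓞 QBar) a := by
    apply Subtype.ext
    exact (g⁻¹ : Gal(QBar/K)).commutes (a : K)
  change algebraMap (𝓞 K) (𝓞 QBar) a ∈ g • 𝔓 ↔ algebraMap (𝓞 K) (𝓞 QBar) a ∈ 𝔓
  rw [Ideal.mem_pointwise_smul_iff_inv_smul_mem, h1]

theorem ltr_nrm (c : Cu K) (S : Finset (Pl K)) (a : c.Fˣ) (ha : LTr c S a) :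
    LTr c S (inc K c.F (Nm K c.F a)) := by
  obtain ⟨χ, t, -, -, H⟩ := std_cu c
  rintro 𝔓 hp ⟨v, hvS, hv⟩ σ hσ
  have hD : (σ.restrictScalars K : Gal(QBar/K)) ∈ dec (K := K) 𝔓 := fun x => hσ x
  have h0 : ∀ τ ∈ dec (K := K) 𝔓, ∀ i, χ τ i = i → kf c χ t a τ i = 0 := by
    intro τ hτ i hi
    have hi' : (χ τ)⁻¹ i = i := by
      rw [Equiv.Perm.inv_eq_iff_eq]
      exact hi.symm
    have h1 := kf_mem H τ i
    unfold kf
    rw [hi'] at h1 ⊢
    obtain ⟨σ', hσ'⟩ := kx_ex c _ h1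
    rw [← hσ', kx_kk]
    refine ha ((t i)⁻¹ • 𝔓) (by have := hp; exact Ideal.IsPrime.smul _) ⟨v, hvS, ?_⟩ σ' ?_
    · rw [lta_smul]
      exact hv
    · have h2 : (σ'.restrictScalars K : Gal(QBar/K)) ∈ dec (K := K) ((t i)⁻¹ • 𝔓) := by
        rw [ax_dec, hσ']
        have h3 : (t i)⁻¹⁻¹ * ((t i)⁻¹ * τ * t i) * (t i)⁻¹ = τ := by group
        rw [h3]
        exact hτ
      exact fun x => h2 x
  obtain ⟨δ, hδ0, hδ⟩ := ks_orb χ (dec (K := K) 𝔓) (kf c χ t a)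
    (fun σ _ τ _ i => kf_coc H a σ τ i) h0
  rw [← kx_kk, kf_nmf H a _ (kx_fix c σ)]
  rw [Finset.sum_congr rfl fun i _ => hδ _ hD i, Finset.sum_add_distrib, hδ0, zero_add]
  rw [Equiv.sum_comp ((χ (σ.restrictScalars K))⁻¹) δ, hδ0]

theorem ltr_ps (hi : MOne 2 K) (c : Cu K) (S : Finset (Pl K)) (D : RD0 c.F 2 (-1 : c.F))
    (hD : ∀ P, OvS c S P → P ∈ D.S0) (x : c.Fˣ) (hx : PS 2 (-1 : c.F) D.S0 x) :
    LTr c S x := by
  rintro 𝔓 hp ⟨v, hvS, hv⟩ σ hσ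
  have := alg_cl c.F
  obtain ⟨P, hP, hPv⟩ := lta_pl c hp hv
  obtain ⟨Q0⟩ := exists_DP c.F QBar
  let Q' : DP c.F QBar :=
    { P := Function.update Q0.P P 𝔓
      prime := fun w => by
        by_cases hw : w = P
        · subst hw
          rw [Function.update_self]
          exact hp
        · rw [Function.update_of_ne hw]
          exact Q0.prime w
      under := fun w => by
        by_cases hw : w = P
        · subst hw
          rw [Function.update_self]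
          exact hP
        · rw [Function.update_of_ne hw]
          exact Q0.under w }
  have hQ' : Q'.P P = 𝔓 := by
    change Function.update Q0.P P 𝔓 P = 𝔓
    exact Function.update_self P 𝔓 Q0.P
  refine ps_triv Nat.prime_two (mone_map hi c.F) (neg_one_prim c.F) D Q' x hx P
    (hD P ⟨v, hvS, hPv⟩) σ ?_
  rw [hQ']
  exact lta_dec c σ hσ

private theorem lta_le (c : Cu K) (S : Finset (Pl K)) {v : Pl K} (hv : v ∈ S) {P : Pl c.F}
    (hP : Over P v) : H57.LI.md (mS S) c.F ≤ Ideal.span {8} * P.asIdeal := by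
  unfold H57.LI.md mS
  rw [Ideal.map_mul]
  refine Ideal.mul_mono ?_ ?_
  · rw [Ideal.map_span, Set.image_singleton, map_ofNat]
  · rw [Ideal.map_le_iff_le_comap]
    have h1 : (∏ v ∈ S, v.asIdeal) ≤ v.asIdeal :=
      Ideal.le_of_dvd (Finset.dvd_prod_of_mem (fun v : Pl K => v.asIdeal) hv)
    exact h1.trans hP.ge

theorem ltr_ray (hi : MOne 2 K) (c : Cu K) (S : Finset (Pl K)) (x : c.Fˣ) (a : 𝓞 c.F)
    (hxa : (x : c.F) = algebraMap (𝓞 c.F) c.F a) (ha : a - 1 ∈ H57.LI.md (mS S) c.F) :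
    LTr c S x := by
  rintro 𝔓 hp ⟨v, hvS, hv⟩ σ hσ
  have := alg_cl c.F
  obtain ⟨P, hP, hPv⟩ := lta_pl c hp hv
  obtain ⟨b, hb, hb8⟩ := Ideal.mem_span_singleton_mul.1 (lta_le c S hvS hPv ha)
  have h2 : (x : c.F) - 1 = 8 * algebraMap (𝓞 c.F) c.F b := by
    rw [hxa]
    have h3 := congrArg (algebraMap (𝓞 c.F) c.F) hb8
    rw [map_mul, map_sub, map_one, map_ofNat] at h3
    exact h3.symm
  have hb1 : P.valuation c.F (algebraMap (𝓞 c.F) c.F b) < 1 :=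
    (P.valuation_lt_one_iff_mem b).2 hb
  have h4 : P.valuation c.F ((x : c.F) - 1) < P.valuation c.F (((2 : ℕ) : c.F) ^ 2) := by
    have h5 : (8 : c.F) * algebraMap (𝓞 c.F) c.F b =
        ((2 : ℕ) : c.F) ^ 2 * algebraMap (𝓞 c.F) c.F (2 * b) := by
      rw [map_mul, map_ofNat]
      push_cast
      ring
    have h6 : P.valuation c.F (algebraMap (𝓞 c.F) c.F (2 * b)) < 1 :=
      (P.valuation_lt_one_iff_mem _).2 (P.asIdeal.mul_mem_left 2 hb)
    have h7 : P.valuation c.F (((2 : ℕ) : c.F) ^ 2) ≠ 0 := by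
      rw [Valuation.ne_zero_iff]
      norm_num
    rw [h2, h5, map_mul]
    exact mul_lt_of_lt_one_right (zero_lt_iff.2 h7) h6
  have h8 := cl_of_val (p := 2) P 𝔓 hp hP x h4
  have h9 : 𝔓 ≠ ⊥ := by
    intro h0
    apply P.ne_bot
    rw [← hP, h0, Ideal.under, ← RingHom.ker_eq_comap_bot]
    exact (RingHom.injective_iff_ker_eq_bot _).mp
      (NumberField.RingOfIntegers.algebraMap.injective c.F QBar)
  exact cl_kk Nat.prime_two (neg_one_prim c.F) 𝔓 hp h9 x h8 σ (lta_dec c σ hσ)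

end H48.SF
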