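import Pool.Agent.H48.T3.VDef
import Pool.Agent.H67.SX.Defs
import Pool.Agent.H63.MA.KumB
import Pool.Agent.H38.SE.Defs

/-!
# SX, chapter (FF) (MP_b39724_nt): the fibre formula for `S_4` in degree 6. Definitions (complete)

`K` contains `i`, `c : Cu K` a cubic field `F = c.F` which is not Galois over `K`, `S` a finite set of primes of `K` which contains the primes over 2.
* `KS G`: `G = V ⋊ S_3` written as a group of pairs `(lam g, pi g)`, `lam g ∈ (ZMod 2)^3` of sum zero, `lam (g h) i = lam g i + lam h ((pi g)⁻¹ i)`.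
  `V = ker pi`.
* `Std χ c t`: `χ : Gal(QBar/K) → Perm (Fin 3)` surjective of finite type, `F` the fixed field of `{σ | χ σ 0 = 0}`, `t i` maps the point 0 to `i`.
* `ov c l`: the primes over `l`. `bl c P`: the prime below `P`. `er`, `fr`: ramification index and residue degree. `OvS c S P`: `P` lies over `S`.
* `oF`, `oH`, `oL c S`: the parities of the orders outside `S`, on `Fˣ` and on `V2 F = Fˣ / squares` (T3). `VA c`: the classes of square norm.
  `LTr c S a`: the Kummer character of `a` is trivial on all decomposition groups over `S`. `VL c S`: the classes of such `a`.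
* `Ig c S`: the finite families of parities `g` outside `S` with `∑_{P | l} fr P * g P = 0`. `AT c S T`, `IT c S T`: the parts supported over `T`.
* `gv c S P = 1_P + fr P * (er on the primes over the same l)`: the parities of `x * N x` if `x` has order 1 at `P` (and even orders elsewhere).
* `nrI c g`: the product of the norms of the primes `l` of `K` below the support of `g`.
* `QC c S θ`: `θ` is an additive quadratic ray class character of modulus `mS S` of `F`, trivial on the ideals of `K`.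
-/

set_option autoImplicit false

open scoped NumberField Classical
open IsDedekindDomain H38.ML H63.MA

noncomputable section

namespace H48.SF

open H48.KV H48.T3 H67.SX

/-- `G = V ⋊ S_3`, written as a group of signed permutations of three points with product of the signs one -/
structure KS (G : Type) [Group G] where
  pi : G →* Equiv.Perm (Fin 3)
  lam : G → Fin 3 → ZMod 2
  mul : ∀ g h i, lam (g * h) i = lam g i + lam h ((pi g)⁻¹ i)
  sum : ∀ g, ∑ i, lam g i = 0
  inj : ∀ g h, pi g = pi h → lam g = lam h → g = h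
  ex : ∀ (σ : Equiv.Perm (Fin 3)) (f : Fin 3 → ZMod 2), ∑ i, f i = 0 →
    ∃ g, pi g = σ ∧ lam g = f

variable {K : IntermediateField ℚ QBar} [NumberField K]

/-- the standing data: `F` is the field of the point 0 -/
structure Std (χ : Gal(QBar/K) →* Equiv.Perm (Fin 3)) (c : Cu K)
    (t : Fin 3 → Gal(QBar/K)) : Prop where
  ft : FT χ
  sj : Function.Surjective χ
  fix : ∀ σ : Gal(QBar/K), σ ∈ c.F.fixingSubgroup ↔ χ σ 0 = 0
  t0 : t 0 = 1
  ti : ∀ i, χ (t i) 0 = i

/-- the primes over `l` -/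
def ov (c : Cu K) (l : Pl K) : Finset (Pl c.F) := (over_finite (L := c.F) l).toFinset

theorem mem_ov (c : Cu K) (l : Pl K) (P : Pl c.F) : P ∈ ov c l ↔ Over P l := by
  unfold ov
  rw [Set.Finite.mem_toFinset]
  rfl

/-- the prime below `P` -/
def bl (c : Cu K) (P : Pl c.F) : Pl K := P.under (𝓞 K)

theorem bl_over (c : Cu K) (P : Pl c.F) : Over P (bl c P) := rfl

theorem bl_eq (c : Cu K) (P : Pl c.F) (l : Pl K) : Over P l ↔ bl c P = l :=
  ⟨fun h => below_unique (bl_over c P) h, fun h => h ▸ bl_over c P⟩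

/-- the ramification index -/
def er (c : Cu K) (P : Pl c.F) : ℕ := P.asIdeal.ramificationIdx (𝓞 K)

/-- the residue degree -/
def fr (c : Cu K) (P : Pl c.F) : ℕ := P.asIdeal.inertiaDeg (𝓞 K)

/-- `P` lies over `S` -/
def OvS (c : Cu K) (S : Finset (Pl K)) (P : Pl c.F) : Prop := ∃ l ∈ S, Over P l

/-- the parities of the orders outside `S` -/
def oF (c : Cu K) (S : Finset (Pl K)) (a : c.Fˣ) : Pl c.F → ZMod 2 := fun P =>
  if OvS c S P then 0 else (ord P a : ZMod 2)

/-- the parities outside `S`, as a homomorphism -/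
def oH (c : Cu K) (S : Finset (Pl K)) : c.Fˣ →* Multiplicative (Pl c.F → ZMod 2) where
  toFun a := Multiplicative.ofAdd (oF c S a)
  map_one' := by
    apply Multiplicative.toAdd.injective
    funext P
    simp [oF, ord_one]
  map_mul' := by
    intro a b
    apply Multiplicative.toAdd.injective
    funext P
    simp only [toAdd_ofAdd, toAdd_mul, Pi.add_apply, oF]
    split_ifs
    · rw [add_zero]
    · rw [ord_mul]
      push_cast
      rfl

/-- the parities outside `S` -/
def oL (c : Cu K) (S : Finset (Pl K)) : V2 c.F →ₗ[ZMod 2] (Pl c.F → ZMod 2) :=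
  AddMonoidHom.toZModLinearMap 2
    (MonoidHom.toAdditiveLeft (QuotientGroup.lift (powMonoidHom 2 : c.Fˣ →* c.Fˣ).range (oH c S) (by
      rintro _ ⟨b, rfl⟩
      apply Multiplicative.toAdd.injective
      funext P
      simp only [oH, powMonoidHom_apply, MonoidHom.coe_mk, OneHom.coe_mk, toAdd_ofAdd, toAdd_one,
        Pi.zero_apply, oF]
      split_ifs
      · rfl
      · rw [ord_pow]
        push_cast
        rw [show (2 : ZMod 2) = 0 from rfl, zero_mul])))

theorem oL_v2 (c : Cu K) (S : Finset (Pl K)) (a : c.Fˣ) : oL c S (v2 a) = oF c S a := rfl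

/-- the classes of square norm -/
def VA (c : Cu K) : Submodule (ZMod 2) (V2 c.F) where
  carrier := {x | ∃ a : c.Fˣ, v2 a = x ∧ IsSquare (Algebra.norm K (a : c.F))}
  add_mem' := by
    rintro _ _ ⟨a, rfl, ha⟩ ⟨b, rfl, hb⟩
    refine ⟨a * b, v2_mul a b, ?_⟩
    rw [Units.val_mul, map_mul]
    exact ha.mul hb
  zero_mem' := ⟨1, rfl, by simp⟩
  smul_mem' := by
    rintro r _ ⟨a, rfl, ha⟩
    rcases (show r = 0 ∨ r = 1 by revert r; decide) with rfl | rfl
    · exact ⟨1, by rw [zero_smul]; rfl, by simp⟩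
    · exact ⟨a, by rw [one_smul], ha⟩

theorem mem_VA (c : Cu K) (a : c.Fˣ) :
    v2 a ∈ VA c ↔ IsSquare (Algebra.norm K (a : c.F)) := by
  constructor
  · rintro ⟨b, hb, hb2⟩
    obtain ⟨d, rfl⟩ := v2_eq.1 hb
    rw [Units.val_mul, Units.val_pow_eq_pow_val, map_mul, map_pow] at hb2
    obtain ⟨e, he⟩ := hb2
    have hd : Algebra.norm K (d : c.F) ≠ 0 := Algebra.norm_ne_zero_iff.2 d.ne_zero
    refine ⟨e / Algebra.norm K (d : c.F), ?_⟩
    rw [div_mul_div_comm, ← he, eq_div_iff (mul_ne_zero hd hd)]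
    ring
  · exact fun h => ⟨a, rfl, h⟩

/-- the Kummer character of `a` is trivial on all decomposition groups over `S` -/
def LTr (c : Cu K) (S : Finset (Pl K)) (a : c.Fˣ) : Prop :=
  ∀ (𝔓 : Ideal (𝓞 QBar)), 𝔓.IsPrime → (∃ v ∈ S, 𝔓.under (𝓞 K) = v.asIdeal) →
    ∀ σ : Gal(QBar/c.F), (∀ x : 𝓞 QBar, (σ.restrictScalars K : Gal(QBar/K)) • x ∈ 𝔓 ↔ x ∈ 𝔓) →
      kk 2 (-1 : c.F) a σ = 0

theorem ltr_mul (c : Cu K) (S : Finset (Pl K)) {a b : c.Fˣ} (ha : LTr c S a) (hb : LTr c S b) :
    LTr c S (a * b) := by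
  intro 𝔓 h𝔓 hS σ hσ
  have := alg_cl c.F
  rw [kk_mul_arg Nat.prime_two (neg_one_prim c.F), ha 𝔓 h𝔓 hS σ hσ, hb 𝔓 h𝔓 hS σ hσ, add_zero]

theorem ltr_sq (c : Cu K) (S : Finset (Pl K)) (a : c.Fˣ) : LTr c S (a ^ 2) := by
  intro 𝔓 h𝔓 hS σ hσ
  have := alg_cl c.F
  rw [sq, kk_mul_arg Nat.prime_two (neg_one_prim c.F)]
  exact CharTwo.add_self_eq_zero _

/-- the classes whose Kummer character is trivial on the decomposition groups over `S` -/
def VL (c : Cu K) (S : Finset (Pl K)) : Submodule (ZMod 2) (V2 c.F) where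
  carrier := {x | ∃ a : c.Fˣ, v2 a = x ∧ LTr c S a}
  add_mem' := by
    rintro _ _ ⟨a, rfl, ha⟩ ⟨b, rfl, hb⟩
    exact ⟨a * b, v2_mul a b, ltr_mul c S ha hb⟩
  zero_mem' := ⟨1, rfl, by simpa using ltr_sq c S 1⟩
  smul_mem' := by
    rintro r _ ⟨a, rfl, ha⟩
    rcases (show r = 0 ∨ r = 1 by revert r; decide) with rfl | rfl
    · exact ⟨1, by rw [zero_smul]; rfl, by simpa using ltr_sq c S 1⟩
    · exact ⟨a, by rw [one_smul], ha⟩

theorem mem_VL (c : Cu K) (S : Finset (Pl K)) (a : c.Fˣ) : v2 a ∈ VL c S ↔ LTr c S a := by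
  constructor
  · rintro ⟨b, hb, hb2⟩
    obtain ⟨d, rfl⟩ := v2_eq.1 hb.symm
    exact ltr_mul c S hb2 (ltr_sq c S d)
  · exact fun h => ⟨a, rfl, h⟩

/-- the possible parities -/
def Ig (c : Cu K) (S : Finset (Pl K)) : Submodule (ZMod 2) (Pl c.F → ZMod 2) where
  carrier := {g | (Function.support g).Finite ∧ (∀ P, OvS c S P → g P = 0) ∧
    ∀ l, ∑ P ∈ ov c l, (fr c P : ZMod 2) * g P = 0}
  add_mem' := by
    intro g g' hg hg'
    refine ⟨(hg.1.union hg'.1).subset (Function.support_add g g'), fun P hP => ?_, fun l => ?_⟩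
    · rw [Pi.add_apply, hg.2.1 P hP, hg'.2.1 P hP, add_zero]
    · simp only [Pi.add_apply, mul_add, Finset.sum_add_distrib]
      rw [hg.2.2 l, hg'.2.2 l, add_zero]
  zero_mem' := ⟨by simp, fun _ _ => rfl, fun _ => by simp⟩
  smul_mem' := by
    intro r g hg
    refine ⟨hg.1.subset (Function.support_const_smul_subset r g), fun P hP => ?_, fun l => ?_⟩
    · rw [Pi.smul_apply, hg.2.1 P hP, smul_zero]
    · simp only [Pi.smul_apply, smul_eq_mul, mul_left_comm _ r, ← Finset.mul_sum]
      rw [hg.2.2 l, mul_zero]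

/-- the elements of `VA` with odd orders only over `T` (and over `S`) -/
def AT (c : Cu K) (S T : Finset (Pl K)) : Submodule (ZMod 2) (V2 c.F) :=
  VA c ⊓ (LinearMap.ker (LinearMap.pi fun P : {P : Pl c.F // ¬ OvS c T P} =>
    (LinearMap.proj P.1).comp (oL c S)))

theorem mem_AT (c : Cu K) (S T : Finset (Pl K)) (x : V2 c.F) :
    x ∈ AT c S T ↔ x ∈ VA c ∧ ∀ P, ¬ OvS c T P → oL c S x P = 0 := by
  unfold AT
  rw [Submodule.mem_inf, LinearMap.mem_ker, funext_iff]
  exact and_congr_right fun _ => ⟨fun h P hP => h ⟨P, hP⟩, fun h P => h P.1 P.2⟩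

/-- the elements of `Ig` with support over `T` -/
def IT (c : Cu K) (S T : Finset (Pl K)) : Submodule (ZMod 2) (Pl c.F → ZMod 2) :=
  Ig c S ⊓ (LinearMap.ker (LinearMap.pi fun P : {P : Pl c.F // ¬ OvS c T P} =>
    LinearMap.proj P.1))

theorem mem_IT (c : Cu K) (S T : Finset (Pl K)) (g : Pl c.F → ZMod 2) :
    g ∈ IT c S T ↔ g ∈ Ig c S ∧ ∀ P, ¬ OvS c T P → g P = 0 := by
  unfold IT
  rw [Submodule.mem_inf, LinearMap.mem_ker, funext_iff]
  exact and_congr_right fun _ => ⟨fun h P hP => h ⟨P, hP⟩, fun h P => h P.1 P.2⟩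

/-- the parities of `x * N x` for `x` of order 1 at `P` -/
def gv (c : Cu K) (S : Finset (Pl K)) (P : Pl c.F) : Pl c.F → ZMod 2 := fun R =>
  if OvS c S P then 0 else
    (if R = P then 1 else 0) + if bl c R = bl c P then (er c R : ZMod 2) * fr c P else 0

/-- the norm of a family of parities -/
def nrI (c : Cu K) (g : Pl c.F → ZMod 2) : ℝ :=
  ∏ᶠ l ∈ {l : Pl K | ∃ P : Pl c.F, Over P l ∧ g P ≠ 0}, (nm l : ℝ)

/-- `θ` is an additive quadratic ray class character of modulus `mS S` of `c.F` which is trivial on the ideals of `K` -/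
structure QC (c : Cu K) (S : Finset (Pl K)) (θ : Pl c.F → ZMod 2) : Prop where
  ray : IsRay 2 (H57.LI.md (mS S) c.F) θ
  tri : ∀ l : Pl K, ∑ P ∈ ov c l, (er c P : ZMod 2) * θ P = 0

end H48.SF
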