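import Pool.Agent.H48.SF.Efa
import Pool.Agent.H48.T3.TCd
import Pool.Agent.H63.MA.ClFin

/-!
# [H48 SF TSP] the classes of `TF`-units split into `AT` and the classes of `T`-units of `K`, 100-150 lines. File Pool/Agent/H48/SF/TSp.lean

Pattern: Pool/Agent/H48/T3/TSp.lean (the same proof; `τ` is only used there for the norm). `S ⊆ T`, `TF` the primes of `F = c.F` over `T`, `ClOne T`, `ClOne TF`. `j = inc K F : Kˣ → Fˣ`, `N = Nm K F`, `N (j z) = z ^ 3` (`Algebra.norm_algebraMap`, `c.deg`). The map `(y, z) ↦ y + v2 (j z)` is a bijection from `AT c S T × XU T` onto `XU TF`: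
* `y ∈ AT`: `y = v2 a`, `N a` a square (`mem_VA`), `ord P a` even for `P ∉ TF` (`mem_AT`; such a `P` is not over `S`). By `clone_ord hF` (Pool/Agent/H63/MA/ClFin.lean) there is `x : Fˣ` with `ord P x = ord P a / 2` for `P ∉ TF`, so `u = a / x ^ 2` is a `TF`-unit with `v2 u = v2 a`. So `AT ⊆ XU TF`. For a `T`-unit `z`: `j z` is a `TF`-unit (`er_ord`). `XU TF` is closed under addition.
* Injective: if `y + v2 (j z) = y' + v2 (j z')` take norms: `N a * z ^ 3 = N a' * z' ^ 3 * (N c) ^ 2`; `N a`, `N a'` are squares, so `v2 z = v2 z'`, and then `y = y'`.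
* Surjective: `x = v2 u`, `u` a `TF`-unit. `N u` is a `T`-unit by `nm_ord`. `x = v2 (u * j (N u)) + v2 (j (N u))`, and `u * j (N u)` has norm `(N u)^4`, so the first term is in `AT` (orders 0 outside `TF`).
`AT` is finite because `XU TF` is (`tu_card`, TCd.lean of T3; `MOne 2 c.F` by `mone_map`).
-/

set_option autoImplicit false
set_option linter.dupNamespace false

open scoped NumberField Classical Pointwise
open IsDedekindDomain H38.ML H63.MA

noncomputable section

namespace H48.SF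

open H48.KV H67.SX H38.SE
open H48.T3 hiding Ch Fib

variable {K : IntermediateField ℚ QBar} [NumberField K]

private theorem tsp_j (c : Cu K) {T : Finset (Pl K)} {TF : Finset (Pl c.F)}
    (hTF : ∀ P, P ∈ TF ↔ OvS c T P) {z : (K : Type)ˣ} (hz : TUnit T z) : TUnit TF (inc K c.F z) := by
  intro P hP
  obtain ⟨l, hl⟩ := exists_below (K := K) P
  obtain ⟨e, -, he⟩ := ord_inc (K := K) hl
  have hlT : l ∉ T := fun h => hP ((hTF P).2 ⟨l, h, hl⟩)
  rw [he, hz l hlT, mul_zero]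

private theorem tsp_N (c : Cu K) {T : Finset (Pl K)} {TF : Finset (Pl c.F)}
    (hTF : ∀ P, P ∈ TF ↔ OvS c T P) {u : (c.F : Type)ˣ} (hu : TUnit TF u) : TUnit T (Nm K c.F u) := by
  intro l hl
  rw [nm_ord, Finset.sum_eq_zero]
  intro P hP
  rw [hu P, mul_zero]
  intro h
  obtain ⟨l', hl', hR'⟩ := (hTF P).1 h
  rw [below_unique ((mem_ov c l P).1 hP) hR'] at hl
  exact hl hl'

private theorem tsp_AT (c : Cu K) {S T : Finset (Pl K)} (hST : S ⊆ T)
    {TF : Finset (Pl c.F)} (hTF : ∀ P, P ∈ TF ↔ OvS c T P) (hF : ClOne TF) {x : V2 c.F}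
    (hx : x ∈ AT c S T) : x ∈ XU TF := by
  obtain ⟨hx1, hx2⟩ := (mem_AT c S T x).1 hx
  obtain ⟨a, rfl⟩ := v2_surj x
  have hev : ∀ P, P ∉ TF → Even (ord P a) := by
    intro P hP
    have h1 : ¬ OvS c T P := fun h => hP ((hTF P).2 h)
    have h2 : ¬ OvS c S P := fun ⟨l, hl, hl'⟩ => h1 ⟨l, hST hl, hl'⟩
    have h3 := hx2 P h1
    rw [oL_v2, oF, if_neg h2] at h3
    exact (ZMod.intCast_zmod_eq_zero_iff_dvd _ 2).1 h3 |>.elim fun m hm => ⟨m, by rw [hm]; push_cast; ring⟩
  have hfin : {v : Pl c.F | (fun P => if P ∈ TF then 0 else ord P a / 2) v ≠ 0}.Finite := by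
    refine (finite_ord a).subset fun P hP => ?_
    intro h0
    apply hP
    change (if P ∈ TF then (0 : ℤ) else ord P a / 2) = 0
    rw [h0]
    simp
  obtain ⟨b, hb⟩ := clone_ord hF (fun P => if P ∈ TF then 0 else ord P a / 2) hfin
  refine ⟨a * (b⁻¹) ^ 2, fun P hP => ?_, v2_eq.2 ⟨b⁻¹, rfl⟩⟩
  have h1 : ord P b = ord P a / 2 := by
    rw [hb P hP]
    exact if_neg hP
  rw [ord_mul, ord_pow, ord_inv, h1]
  obtain ⟨m, hm⟩ := hev P hP
  rw [hm]
  push_cast
  omega

private theorem tsp_inj {K L : Type} [Field K] [Field L] [Algebra K L] {a b : Kˣ} (h : v2 a = v2 b) :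
    v2 (inc K L a) = v2 (inc K L b) := by
  obtain ⟨d, hd⟩ := v2_eq.1 h
  exact v2_eq.2 ⟨inc K L d, by rw [hd, map_mul, map_pow]⟩

private def jv (c : Cu K) (z : V2 K) : V2 c.F := v2 (inc K c.F (Classical.choose (v2_surj z)))

private theorem jv_v2 (c : Cu K) (a : (K : Type)ˣ) : jv c (v2 a) = v2 (inc K c.F a) :=
  tsp_inj (Classical.choose_spec (v2_surj (v2 a)))

private theorem tsp_Ninc (c : Cu K) (z : (K : Type)ˣ) : Nm K c.F (inc K c.F z) = z ^ 3 := by
  apply Units.ext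
  have h1 : ((Nm K c.F (inc K c.F z) : (K : Type)ˣ) : K) = Algebra.norm K (algebraMap K c.F (z : K)) := rfl
  rw [h1, Algebra.norm_algebraMap, c.deg]
  rfl

private theorem tsp_add {L : Type} [Field L] [NumberField L] {T : Finset (Pl L)} {x y : V2 L} (hx : x ∈ XU T)
    (hy : y ∈ XU T) : x + y ∈ XU T := by
  obtain ⟨u, hu, rfl⟩ := hx
  obtain ⟨w, hw, rfl⟩ := hy
  refine ⟨u * w, fun v hv => ?_, v2_mul u w⟩
  rw [ord_mul, hu v hv, hw v hv, add_zero]

private theorem tsp_cancel (c : Cu K) {a a' : (c.F : Type)ˣ} {w w' : (K : Type)ˣ}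
    (ha : IsSquare (Algebra.norm K (a : c.F))) (ha' : IsSquare (Algebra.norm K (a' : c.F)))
    (h : v2 (a * inc K c.F w) = v2 (a' * inc K c.F w')) : v2 w = v2 w' := by
  obtain ⟨d, hd⟩ := v2_eq.1 h
  have h1 := congrArg (Nm K c.F) hd
  rw [map_mul, map_mul, map_mul, map_pow, tsp_Ninc, tsp_Ninc] at h1
  obtain ⟨s, hs⟩ := ha
  obtain ⟨s', hs'⟩ := ha'
  have hsne : s ≠ 0 := by
    rintro rfl
    rw [mul_zero] at hs
    exact Algebra.norm_ne_zero_iff.2 a.ne_zero hs
  have hsne' : s' ≠ 0 := by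
    rintro rfl
    rw [mul_zero] at hs'
    exact Algebra.norm_ne_zero_iff.2 a'.ne_zero hs'
  have e1 : Nm K c.F a = Units.mk0 s hsne * Units.mk0 s hsne := Units.ext hs
  have e2 : Nm K c.F a' = Units.mk0 s' hsne' * Units.mk0 s' hsne' := Units.ext hs'
  rw [e1, e2] at h1
  refine v2_eq.2 ⟨w' * Units.mk0 s' hsne' * Nm K c.F d * (w * Units.mk0 s hsne)⁻¹, ?_⟩
  generalize Units.mk0 s hsne = p at h1 ⊢
  generalize Units.mk0 s' hsne' = p' at h1 ⊢
  generalize Nm K c.F d = q at h1 ⊢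
  have h2 : w * (w * p) ^ 2 = w' * (w' * p' * q) ^ 2 := by
    calc w * (w * p) ^ 2 = p * p * w ^ 3 := by
          rw [mul_pow, sq w, sq p, pow_three, mul_comm (p * p), mul_assoc, mul_assoc, mul_assoc]
      _ = p' * p' * w' ^ 3 * q ^ 2 := h1
      _ = w' * (w' * p' * q) ^ 2 := by
          rw [mul_pow, mul_pow, sq w', sq p', pow_three]
          simp only [mul_assoc, mul_comm, mul_left_comm]
  rw [mul_pow, inv_pow, ← mul_assoc, ← h2, mul_assoc, mul_inv_cancel, mul_one]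

theorem tsp (hi : MOne 2 K) (c : Cu K) (S T : Finset (Pl K)) (hST : S ⊆ T) (hK : ClOne T)
    (TF : Finset (Pl c.F)) (hTF : ∀ P, P ∈ TF ↔ OvS c T P) (hF : ClOne TF) :
    Finite (AT c S T) ∧ Nat.card (AT c S T) * (XU T).ncard = (XU TF).ncard := by
  obtain ⟨-, -, hfin, -⟩ := tu_card c.F (mone_map hi c.F) TF
  constructor
  · have h1 : ((AT c S T : Submodule (ZMod 2) (V2 c.F)) : Set (V2 c.F)) ⊆ XU TF :=
      fun x hx => tsp_AT c hST hTF hF hx
    exact (hfin.subset h1).to_subtype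
  · have hj : ∀ z ∈ XU T, jv c z ∈ XU TF := by
      rintro _ ⟨w, hw, rfl⟩
      exact ⟨inc K c.F w, tsp_j c hTF hw, (jv_v2 c w).symm⟩
    let f : (AT c S T) × (XU T : Set (V2 K)) → (XU TF : Set (V2 c.F)) := fun q =>
      ⟨(q.1 : V2 c.F) + jv c q.2, tsp_add (tsp_AT c hST hTF hF q.1.2) (hj q.2 q.2.2)⟩
    have hf : Function.Bijective f := by
      constructor
      · rintro ⟨⟨y, hy⟩, ⟨z, hz⟩⟩ ⟨⟨y', hy'⟩, ⟨z', hz'⟩⟩ h
        have h1 : y + jv c z = y' + jv c z' := congrArg Subtype.val h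
        obtain ⟨w, -, hw⟩ := id hz
        obtain ⟨w', -, hw'⟩ := id hz'
        have hyV := ((mem_AT c S T y).1 hy).1
        have hyV' := ((mem_AT c S T y').1 hy').1
        obtain ⟨a, ha, ha2⟩ := hyV
        obtain ⟨a', ha', ha2'⟩ := hyV'
        have h2 : z = z' := by
          rw [← hw, ← hw', ← ha, ← ha', jv_v2, jv_v2, ← v2_mul, ← v2_mul] at h1
          rw [← hw, ← hw']
          exact tsp_cancel c ha2 ha2' h1
        have h3 : y = y' := by
          rw [h2] at h1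
          exact add_right_cancel h1
        subst h2
        subst h3
        rfl
      · rintro ⟨_, ⟨u, hu, rfl⟩⟩
        have hn := tsp_N c hTF hu
        have hy : v2 (u * inc K c.F (Nm K c.F u)) ∈ AT c S T := by
          rw [mem_AT]
          constructor
          · rw [mem_VA]
            refine ⟨(Nm K c.F u : K) ^ 2, ?_⟩
            have h1 : Nm K c.F (u * inc K c.F (Nm K c.F u)) = Nm K c.F u ^ 2 * Nm K c.F u ^ 2 := by
              rw [map_mul, tsp_Ninc, ← pow_succ', ← pow_add]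
            have h2 := congrArg (Units.val) h1
            rw [Units.val_mul, Units.val_pow_eq_pow_val] at h2
            exact h2
          · intro P hP
            rw [oL_v2, oF]
            split_ifs with h
            · rfl
            · have hP' : P ∉ TF := fun h' => hP ((hTF P).1 h')
              rw [ord_mul, hu P hP', tsp_j c hTF hn P hP', add_zero, Int.cast_zero]
        refine ⟨(⟨_, hy⟩, ⟨v2 (Nm K c.F u), ⟨_, hn, rfl⟩⟩), Subtype.ext ?_⟩
        change v2 (u * inc K c.F (Nm K c.F u)) + jv c (v2 (Nm K c.F u)) = v2 u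
        rw [jv_v2, ← v2_mul]
        exact v2_eq.2 ⟨inc K c.F (Nm K c.F u), by rw [sq, mul_assoc]⟩
    have h1 := Nat.card_congr (Equiv.ofBijective f hf)
    rw [Nat.card_prod, Nat.card_coe_set_eq, Nat.card_coe_set_eq] at h1
    exact h1

end H48.SF
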