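import Pool.Agent.H48.SF.LtA
import Pool.Agent.H48.SF.Ogv
import Pool.Agent.H48.SF.GvI
import Pool.Agent.H48.SF.TSp
import Pool.Agent.H48.SF.TIn
import Pool.Agent.H48.T3.LAb
import Pool.Agent.H48.T3.Psf
import Pool.Agent.H48.T3.TEx

/-!
# [H48 SF TEX] a set `T` for which the linear algebra applies, 130-190 lines. File Pool/Agent/H48/SF/TEx.lean

Pattern: Pool/Agent/H48/T3/TEx.lean (copy and adapt). `F = c.F`. `rdx F Nat.prime_two` (Pool/Agent/H48/KV/Rdx.lean; `MOne 2 F` by `mone_map`, `-1` primitive) for a finite `S1` which contains its `T` and all primes of `F` over `S` gives `D : RD F 2 (-1)`, `D.S0 = S1`. `B` from `psf`. For every `b ∈ B` for which some `a ∈ Fˣ` of square norm has `a = b y² s`, `PS s`,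
choose such an `a_b`. For every value `κ` of `D.q` on the primes outside `S1` choose a prime `R_κ ∉ S1` with `D.q R_κ = κ`. Let `T` be a finite set of primes of `K` which contains `S`, the primes below the elements of `S1`, below the `R_κ`, below the primes `P` with `ord P a_b ≠ 0` (`finite_ord`), and a set with `ClOne` (`exists_clone K`; `clone_mono`).
`ClOne TF`: `TF ⊇ S1`, and `ClOne S1`. `LAH (oL c S) (VA) (VA ⊓ VL) (AT) (Ig) (IT)`: `le'`, `leT`, `leI` are clear (`mem_AT`, `mem_IT`), `oI` is `of_mem`, `oT`: `mem_AT`, `mem_IT`, `of_mem`. `finA`: `tsp`. `finI`: `tin`.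
`genA`: `x = v2 a ∈ VA`: `a = b y² s`, so `b` has an `a_b = b y'² s'`, `v2 a - v2 a_b` is the class of `s / s'`, with `LTr` by `ltr_ps` (for `s`, `s'`; `VL` is a subspace), and in `VA`; `v2 a_b ∈ AT`.
`genI`: by `gv_exp` it is enough to treat `gv c S P`. If `P` is over `T`: `gv P ∈ IT` (`gv_mem`; its support lies over `bl P`). Otherwise `P ∉ S1`; let `P' = R_κ`, `κ = D.q P`; `P' ≠ P` (`P'` is over `T`). `x = D.pi P * D.pi P'`, `PS x` (`psf_cl`), so `LTr x` (`ltr_ps`), `LTr (x * inc (Nm x))` (`ltr_nrm`, `ltr_mul`), in `VA` (`og_sq`). By `og_sum`: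
`oF (x * inc (Nm x)) = ∑_E (ord R x) gv R` where `ord P x = 1`, `ord P' x = 1`, and `ord R x = 0` for the other `R ∉ S1`. So `gv P = o (..) + ∑_{R over T} (..) gv R`.
-/

set_option autoImplicit false
set_option linter.dupNamespace false

open scoped NumberField Classical Pointwise
open IsDedekindDomain H38.ML H63.MA

noncomputable section

namespace H48.SF

open H48.KV H67.SX H38.SE
open H48.T3 hiding Ch Fib

variable {K : IntermediateField ℚ QBar} [NumberField K]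

/-- `gv P` is in `IT` if `P` is over `T` -/
private theorem tex_gv (c : Cu K) (S T : Finset (Pl K)) (P : Pl c.F) (hP : OvS c T P) :
    gv c S P ∈ IT c S T := by
  rw [mem_IT]
  refine ⟨gv_mem c S P, fun R hR => ?_⟩
  unfold gv
  split_ifs with h1 h2 h3 h3
  · rfl
  · exact absurd (h2 ▸ hP) hR
  · exact absurd (h2 ▸ hP) hR
  · exfalso
    obtain ⟨l, hl, hPl⟩ := hP
    exact hR ⟨l, hl, (bl_eq c R l).2 (h3.trans ((bl_eq c P l).1 hPl))⟩
  · rw [add_zero]

private theorem tex_v2sq {F : Type} [Field F] (b y s : Fˣ) : v2 (b * y ^ 2 * s) = v2 b + v2 s := by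
  rw [v2_mul, v2_mul, sq, v2_mul, ← two_nsmul, v2_two, add_zero]

/-- the generation of `VA` -/
private theorem tex_genA (hi : MOne 2 K) (c : Cu K) (S T : Finset (Pl K))
    (D : RD0 c.F 2 (-1 : c.F)) (hD : ∀ P, OvS c S P → P ∈ D.S0) (B : Finset c.Fˣ)
    (hB : ∀ x : c.Fˣ, ∃ b ∈ B, ∃ y s : c.Fˣ, PS 2 (-1 : c.F) D.S0 s ∧ x = b * y ^ 2 * s)
    (ab : c.Fˣ → c.Fˣ)
    (hab : ∀ b : c.Fˣ, (∃ a : c.Fˣ, IsSquare (Algebra.norm K (a : c.F)) ∧
      ∃ y s : c.Fˣ, PS 2 (-1 : c.F) D.S0 s ∧ a = b * y ^ 2 * s) →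
      (IsSquare (Algebra.norm K ((ab b : c.Fˣ) : c.F)) ∧
      ∃ y s : c.Fˣ, PS 2 (-1 : c.F) D.S0 s ∧ ab b = b * y ^ 2 * s))
    (hT : ∀ b ∈ B, ∀ P, ord P (ab b) ≠ 0 → OvS c T P) :
    VA c ≤ AT c S T ⊔ (VA c ⊓ VL c S) := by
  intro x hx
  obtain ⟨a, rfl⟩ := v2_surj x
  have ha := (mem_VA c a).1 hx
  obtain ⟨b, hb, y, s, hs, hays⟩ := hB a
  obtain ⟨hsq, y', s', hs', hab'⟩ := hab b ⟨a, ha, y, s, hs, hays⟩
  have h1 : v2 (ab b) ∈ VA c := (mem_VA c _).2 hsq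
  have h2 : v2 (ab b) ∈ AT c S T := by
    rw [mem_AT]
    refine ⟨h1, fun P hP => ?_⟩
    rw [oL_v2]
    unfold oF
    split_ifs
    · rfl
    · have h3 : ord P (ab b) = 0 := by
        by_contra h4
        exact hP (hT b hb P h4)
      rw [h3, Int.cast_zero]
  have h5 : v2 a - v2 (ab b) ∈ VL c S := by
    have h6 : v2 a - v2 (ab b) = v2 s - v2 s' := by
      rw [hays, hab', tex_v2sq, tex_v2sq, add_sub_add_left_eq_sub]
    rw [h6]
    exact Submodule.sub_mem _ ((mem_VL c S s).2 (ltr_ps hi c S D hD s hs))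
      ((mem_VL c S s').2 (ltr_ps hi c S D hD s' hs'))
  rw [Submodule.mem_sup]
  exact ⟨v2 (ab b), h2, v2 a - v2 (ab b), ⟨Submodule.sub_mem _ hx h1, h5⟩,
    add_sub_cancel _ _⟩

/-- the generation of `Ig` -/
private theorem tex_genI (hi : MOne 2 K) (c : Cu K) (S T : Finset (Pl K))
    (D : RD0 c.F 2 (-1 : c.F)) (hD : ∀ P, OvS c S P → P ∈ D.S0)
    (hT1 : ∀ P ∈ D.S0, OvS c T P)
    (hT2 : ∀ P, P ∉ D.S0 → ∃ R, R ∉ D.S0 ∧ OvS c T R ∧ D.q R = D.q P) :
    Ig c S ≤ IT c S T ⊔ (VA c ⊓ VL c S).map (oL c S) := by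
  intro g hg
  have hE0 : ∀ P, P ∉ hg.1.toFinset → g P = 0 := by
    intro P hP
    rw [Set.Finite.mem_toFinset] at hP
    exact Function.notMem_support.1 hP
  rw [gv_exp c S g hg _ hE0]
  refine Submodule.sum_mem _ fun P _ => Submodule.smul_mem _ _ ?_
  by_cases hP : OvS c T P
  · exact Submodule.mem_sup_left (tex_gv c S T P hP)
  · have hPS : P ∉ D.S0 := fun h => hP (hT1 P h)
    obtain ⟨R, hRS, hRT, hRq⟩ := hT2 P hPS
    have hne : P ≠ R := by
      rintro rfl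
      exact hP hRT
    have hps := psf_cl D P R hPS hRS hRq.symm
    have hl := ltr_ps hi c S D hD _ hps
    obtain ⟨x, hx⟩ : ∃ x : c.Fˣ, x = D.pi P * D.pi R := ⟨_, rfl⟩
    rw [← hx] at hl hps
    have hu1 : v2 (x * inc K c.F (Nm K c.F x)) ∈ VA c := (mem_VA c _).2 (og_sq c x)
    have hu2 : v2 (x * inc K c.F (Nm K c.F x)) ∈ VL c S := (mem_VL c S _).2
      (ltr_mul c S hl (ltr_nrm c S x hl))
    have hPn : P ∉ insert R D.S0 := by
      rw [Finset.mem_insert]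
      rintro (h | h)
      · exact hne h
      · exact hPS h
    have hE : ∀ Q, Q ∉ insert P (insert R D.S0) → ord Q x = 0 := by
      intro Q hQ
      rw [Finset.mem_insert, Finset.mem_insert, not_or, not_or] at hQ
      rw [hx, ord_mul, D.pi_ne P Q hPS hQ.2.2 hQ.1, D.pi_ne R Q hRS hQ.2.2 hQ.2.1, add_zero]
    have hsum := og_sum c S x _ hE
    rw [Finset.sum_insert hPn] at hsum
    have hP1 : ord P x = 1 := by
      rw [hx, ord_mul, D.pi_self P hPS, D.pi_ne R P hRS hPS hne, add_zero]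
    rw [hP1, Int.cast_one, one_smul] at hsum
    have hgv : gv c S P = oL c S (v2 (x * inc K c.F (Nm K c.F x))) -
        ∑ Q ∈ insert R D.S0, (ord Q x : ZMod 2) • gv c S Q := by
      rw [oL_v2, hsum, add_sub_cancel_right]
    rw [hgv]
    refine Submodule.sub_mem _ (Submodule.mem_sup_right
      (Submodule.mem_map_of_mem ⟨hu1, hu2⟩)) (Submodule.mem_sup_left ?_)
    refine Submodule.sum_mem _ fun Q hQ => Submodule.smul_mem _ _ (tex_gv c S T Q ?_)
    rcases Finset.mem_insert.1 hQ with rfl | hQ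
    · exact hRT
    · exact hT1 Q hQ

theorem tex (hi : MOne 2 K) (c : Cu K) (S : Finset (Pl K)) : ∃ T : Finset (Pl K), S ⊆ T ∧
    ClOne T ∧ (∀ TF : Finset (Pl c.F), (∀ P, P ∈ TF ↔ OvS c T P) → ClOne TF) ∧
      LAH (oL c S) (VA c) (VA c ⊓ VL c S) (AT c S T) (Ig c S) (IT c S T) := by
  have hiF : MOne 2 c.F := mone_map hi c.F
  obtain ⟨T0, hT0, _, hrd⟩ := rdx c.F Nat.prime_two hiF (neg_one_prim c.F)
  obtain ⟨TS, hTS, _⟩ := tov_card c S
  obtain ⟨S1, hS1⟩ : ∃ S1 : Finset (Pl c.F), S1 = T0 ∪ TS := ⟨_, rfl⟩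
  have h01 : T0 ⊆ S1 := by
    rw [hS1]
    exact Finset.subset_union_left
  have hS1S : ∀ P, OvS c S P → P ∈ S1 := by
    intro P hP
    rw [hS1]
    exact Finset.mem_union_right _ ((hTS P).2 hP)
  have hcl1 : ClOne S1 := clone_mono hT0 h01
  obtain ⟨D, hD⟩ := hrd S1 (fun v hv => h01 hv)
  obtain ⟨B, hB⟩ := psf Nat.prime_two D.toRD0
  have hex : ∀ b : c.Fˣ, ∃ ab : c.Fˣ, (∃ a : c.Fˣ, IsSquare (Algebra.norm K (a : c.F)) ∧
      ∃ y s : c.Fˣ, PS 2 (-1 : c.F) D.S0 s ∧ a = b * y ^ 2 * s) →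
      (IsSquare (Algebra.norm K (ab : c.F)) ∧
      ∃ y s : c.Fˣ, PS 2 (-1 : c.F) D.S0 s ∧ ab = b * y ^ 2 * s) := by
    intro b
    by_cases h : ∃ a : c.Fˣ, IsSquare (Algebra.norm K (a : c.F)) ∧
      ∃ y s : c.Fˣ, PS 2 (-1 : c.F) D.S0 s ∧ a = b * y ^ 2 * s
    · obtain ⟨a, ha⟩ := h
      exact ⟨a, fun _ => ha⟩
    · exact ⟨1, fun h' => absurd h' h⟩
  choose ab hab using hex
  have hexE : ∀ κ : Fin D.r → ZMod 2, ∃ E : Finset (Pl c.F), ∀ P, P ∉ D.S0 → D.q P = κ →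
      ∃ R ∈ E, R ∉ D.S0 ∧ D.q R = κ := by
    intro κ
    by_cases h : ∃ P, P ∉ D.S0 ∧ D.q P = κ
    · obtain ⟨R, hR⟩ := h
      exact ⟨{R}, fun _ _ _ => ⟨R, Finset.mem_singleton_self R, hR⟩⟩
    · exact ⟨∅, fun P hP hq => absurd ⟨P, hP, hq⟩ h⟩
  choose E hE using hexE
  have hbex : ∀ P : Pl c.F, ∃ l : Pl K, Over P l := fun P => exists_below P
  choose bel hbel using hbex
  obtain ⟨TK, hTK⟩ := exists_clone K
  obtain ⟨Z, hZ⟩ : ∃ Z : Finset (Pl c.F), Z = S1 ∪ Finset.univ.biUnion E ∪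
      B.biUnion (fun b => (finite_ord (ab b)).toFinset) := ⟨_, rfl⟩
  obtain ⟨T, hT⟩ : ∃ T : Finset (Pl K), T = S ∪ TK ∪ Z.image bel := ⟨_, rfl⟩
  have hST : S ⊆ T := by
    rw [hT]
    exact Finset.subset_union_left.trans Finset.subset_union_left
  have hKT : ClOne T := by
    refine clone_mono hTK ?_
    rw [hT]
    exact Finset.subset_union_right.trans Finset.subset_union_left
  have hZT : ∀ P ∈ Z, OvS c T P := by
    intro P hP
    refine ⟨bel P, ?_, hbel P⟩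
    rw [hT]
    exact Finset.mem_union_right _ (Finset.mem_image_of_mem _ hP)
  have hS1T : ∀ P ∈ S1, OvS c T P := by
    intro P hP
    apply hZT
    rw [hZ]
    exact Finset.mem_union_left _ (Finset.mem_union_left _ hP)
  have hFT : ∀ TF : Finset (Pl c.F), (∀ P, P ∈ TF ↔ OvS c T P) → ClOne TF := by
    intro TF hTF
    exact clone_mono hcl1 fun P hP => (hTF P).2 (hS1T P hP)
  obtain ⟨TF, hTF, _⟩ := tov_card c T
  refine ⟨T, hST, hKT, hFT, ?_⟩
  refine ⟨inf_le_left, inf_le_left, inf_le_left, fun a ha => of_mem c S a ha, ?_, ?_, ?_, ?_, ?_⟩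
  · intro a ha
    rw [mem_AT, mem_IT]
    exact ⟨fun h => ⟨ha, h.2⟩, fun h => ⟨of_mem c S a ha, h.2⟩⟩
  · refine tex_genA hi c S T D.toRD0 (fun P hP => by rw [hD]; exact hS1S P hP) B hB ab hab ?_
    intro b hb P hP
    apply hZT
    rw [hZ]
    refine Finset.mem_union_right _ (Finset.mem_biUnion.2 ⟨b, hb, ?_⟩)
    rw [Set.Finite.mem_toFinset]
    exact hP
  · refine tex_genI hi c S T D.toRD0 (fun P hP => by rw [hD]; exact hS1S P hP) ?_ ?_
    · intro P hP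
      rw [hD] at hP
      exact hS1T P hP
    · intro P hP
      obtain ⟨R, hR, hRS, hRq⟩ := hE (D.q P) P hP rfl
      refine ⟨R, hRS, ?_, hRq⟩
      apply hZT
      rw [hZ]
      exact Finset.mem_union_left _ (Finset.mem_union_right _
        (Finset.mem_biUnion.2 ⟨D.q P, Finset.mem_univ _, hR⟩))
  · exact (tsp hi c S T hST hKT TF hTF (hFT TF hTF)).1
  · exact (tin c S T).1

end H48.SF
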