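import Pool.Agent.H48.SF.AxC
import Pool.Agent.H48.SF.Lep

/-!
# [H48 SF TYA] the number of local types depends only on the local type of the cubic field, 70-110 lines. File Pool/Agent/H48/SF/TyA.lean

Pattern: Pool/Agent/H48/T3/TyA.lean.
* `lq_refl`: `δ = 1`. `lq_symm`: `δ⁻¹`. `lq_trans`: the product.
* `lq_quot`: the classes of the `Quot` are the `Lq` classes (`Lq` is an equivalence relation; see T3).
* `nty_inv`: `e` from `leq_perm`, `s` from `ks_sec`. For `φ ∈ SL k χ` with `p φ` the approximation lemma `apx` gives `φ' ∈ SL k χ'` with `φ' σ = (δ s(e v)) φ σ (δ s(e v))⁻¹` on `dec (Q.P v)`, so `p φ'` (`hp`). This defines a map of the `Quot`s: if `Lq φ₁ φ₂` then `Lq φ₁' φ₂'` (`s(e v) V s(e v)⁻¹ = V`: `pi (s(e v) δ s(e v)⁻¹) = 1`). Injective: the same backwards. Surjective: given `φ' ∈ SL k χ'` with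
  `p φ'`, `apx` in the other direction (`e v⁻¹`) gives `φ ∈ SL k χ`, and the class of `φ'` is the image of the class of `φ`. `Nat.card_eq_of_bijective`.
-/

set_option autoImplicit false
set_option linter.dupNamespace false

open scoped NumberField Classical Pointwise
open IsDedekindDomain H38.ML H63.MA

noncomputable section

namespace H48.SF

open H48.KV H67.SX H38.SE
open H48.T3 hiding Ch Fib

variable {K : IntermediateField ℚ QBar} [NumberField K] {G : Type} [Group G]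
  {χ χ' : Gal(QBar/K) →* Equiv.Perm (Fin 3)} {c c' : Cu K} {t t' : Fin 3 → Gal(QBar/K)}

theorem lq_refl (k : KS G) (S : Finset (Pl K)) (Q : DP K QBar) (φ : Gal(QBar/K) →* G) :
    Lq k S Q φ φ := by
  intro v _
  exact ⟨1, map_one _, fun σ _ => by rw [one_mul, inv_one, mul_one]⟩

theorem lq_symm {k : KS G} {S : Finset (Pl K)} {Q : DP K QBar} {φ φ' : Gal(QBar/K) →* G}
    (h : Lq k S Q φ φ') : Lq k S Q φ' φ := by
  intro v hv
  obtain ⟨δ, hδ, h1⟩ := h v hv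
  refine ⟨δ⁻¹, by rw [map_inv, hδ, inv_one], fun σ hσ => ?_⟩
  rw [h1 σ hσ]
  group

theorem lq_trans {k : KS G} {S : Finset (Pl K)} {Q : DP K QBar}
    {φ φ' φ'' : Gal(QBar/K) →* G} (h : Lq k S Q φ φ') (h' : Lq k S Q φ' φ'') :
    Lq k S Q φ φ'' := by
  intro v hv
  obtain ⟨δ, hδ, h1⟩ := h v hv
  obtain ⟨ε, hε, h2⟩ := h' v hv
  refine ⟨δ * ε, by rw [map_mul, hδ, hε, one_mul], fun σ hσ => ?_⟩
  rw [h1 σ hσ, h2 σ hσ]
  group

theorem lq_quot (k : KS G) (S : Finset (Pl K)) (Q : DP K QBar)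
    (χ : Gal(QBar/K) →* Equiv.Perm (Fin 3)) (p : (Gal(QBar/K) →* G) → Prop)
    (x y : {φ : Gal(QBar/K) →* G // φ ∈ SL k χ ∧ p φ}) :
    Quot.mk (fun φ φ' : {φ : Gal(QBar/K) →* G // φ ∈ SL k χ ∧ p φ} => Lq k S Q φ.1 φ'.1) x =
      Quot.mk _ y ↔ Lq k S Q x.1 y.1 := by
  have he : Equivalence
      (fun φ φ' : {φ : Gal(QBar/K) →* G // φ ∈ SL k χ ∧ p φ} => Lq k S Q φ.1 φ'.1) :=
    ⟨fun φ => lq_refl k S Q φ.1, fun h => lq_symm h, fun h h' => lq_trans h h'⟩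
  constructor
  · intro h
    exact he.eqvGen_iff.1 (Quot.eqvGen_exact h)
  · intro h
    exact Quot.sound h

/-- conjugate on every decomposition group by an element with the image `w v` -/
private def Lx (k : KS G) (S : Finset (Pl K)) (Q : DP K QBar) (w : Pl K → Equiv.Perm (Fin 3))
    (φ φ' : Gal(QBar/K) →* G) : Prop :=
  ∀ v ∈ S, ∃ δ, k.pi δ = w v ∧ ∀ σ ∈ dec (K := K) (Q.P v), φ' σ = δ * φ σ * δ⁻¹

private theorem lx_trans {k : KS G} {S : Finset (Pl K)} {Q : DP K QBar}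
    {w w' w'' : Pl K → Equiv.Perm (Fin 3)} {φ φ' φ'' : Gal(QBar/K) →* G}
    (h : Lx k S Q w φ φ') (h' : Lx k S Q w' φ' φ'') (hw : ∀ v, w' v * w v = w'' v) :
    Lx k S Q w'' φ φ'' := by
  intro v hv
  obtain ⟨δ, hδ, h1⟩ := h v hv
  obtain ⟨ε, hε, h2⟩ := h' v hv
  refine ⟨ε * δ, by rw [map_mul, hδ, hε, hw], fun σ hσ => ?_⟩
  rw [h2 σ hσ, h1 σ hσ]
  group

private theorem lx_symm {k : KS G} {S : Finset (Pl K)} {Q : DP K QBar}
    {w : Pl K → Equiv.Perm (Fin 3)} {φ φ' : Gal(QBar/K) →* G} (h : Lx k S Q w φ φ') :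
    Lx k S Q (fun v => (w v)⁻¹) φ' φ := by
  intro v hv
  obtain ⟨δ, hδ, h1⟩ := h v hv
  refine ⟨δ⁻¹, by rw [map_inv, hδ], fun σ hσ => ?_⟩
  rw [h1 σ hσ]
  group

private theorem lx_lq {k : KS G} {S : Finset (Pl K)} {Q : DP K QBar} {φ φ' : Gal(QBar/K) →* G} :
    Lx k S Q (fun _ => 1) φ' φ ↔ Lq k S Q φ φ' := Iff.rfl

private theorem nty_step {k : KS G} (H' : Std χ' c' t') {s : Equiv.Perm (Fin 3) →* G}
    (hs : ∀ x, k.pi (s x) = x) (Q : DP K QBar) (S : Finset (Pl K))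
    (e : Pl K → Equiv.Perm (Fin 3))
    (he : ∀ v ∈ S, ∀ σ ∈ dec (K := K) (Q.P v), χ' σ = e v * χ σ * (e v)⁻¹)
    (p : (Gal(QBar/K) →* G) → Prop) (hp : Inv S Q p)
    (x : {φ : Gal(QBar/K) →* G // φ ∈ SL k χ ∧ p φ}) :
    ∃ y : {φ : Gal(QBar/K) →* G // φ ∈ SL k χ' ∧ p φ}, Lx k S Q e x.1 y.1 := by
  obtain ⟨φ, ⟨h1, h2, h3⟩, h4⟩ := x
  obtain ⟨φ', ⟨g1, g2, g3⟩, g4⟩ := apx H' hs Q S e he φ ⟨h1, h3⟩
  have g5 : Lx k S Q e φ φ' := by
    intro v hv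
    obtain ⟨δ, hδ, h5⟩ := g4 v hv
    exact ⟨δ * s (e v), by rw [map_mul, hδ, hs, one_mul], h5⟩
  refine ⟨⟨φ', ⟨g1, g2, g3⟩, (hp φ φ' h1 h2 g1 g2 fun v hv => ?_).1 h4⟩, g5⟩
  obtain ⟨δ, -, h5⟩ := lx_symm g5 v hv
  exact ⟨δ, h5⟩

theorem nty_inv (k : KS G) (H : Std χ c t) (H' : Std χ' c' t') (Q : DP K QBar)
    (S : Finset (Pl K)) (hT : LEq S Q c c') (p : (Gal(QBar/K) →* G) → Prop)
    (hp : Inv S Q p) : nty k S Q χ p = nty k S Q χ' p := by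
  obtain ⟨e, he⟩ := leq_perm H H' Q S hT
  obtain ⟨s, hs, -⟩ := ks_sec k
  have he' : ∀ v ∈ S, ∀ σ ∈ dec (K := K) (Q.P v), χ σ = (e v)⁻¹ * χ' σ * ((e v)⁻¹)⁻¹ := by
    intro v hv σ hσ
    rw [he v hv σ hσ]
    group
  choose f hf using nty_step (χ := χ) H' hs Q S e he p hp
  choose g hg using nty_step (χ := χ') H hs Q S (fun v => (e v)⁻¹) he' p hp
  unfold nty
  have hss : ∀ a b : {φ : Gal(QBar/K) →* G // φ ∈ SL k χ ∧ p φ}, Lq k S Q a.1 b.1 →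
      Lq k S Q (f a).1 (f b).1 := by
    intro a b h
    rw [← lx_lq] at h ⊢
    have h1 : Lx k S Q e b.1 (f a).1 := lx_trans h (hf a) (fun v => mul_one _)
    exact lx_trans (lx_symm (hf b)) h1 (fun v => mul_inv_cancel _)
  refine Nat.card_eq_of_bijective (Quot.map f hss) ⟨?_, ?_⟩
  · rintro ⟨a⟩ ⟨b⟩ h
    have h' := (lq_quot k S Q χ' p (f a) (f b)).1 h
    refine (lq_quot k S Q χ p a b).2 ?_
    rw [← lx_lq] at h' ⊢
    have h1 : Lx k S Q e b.1 (f a).1 := lx_trans (hf b) h' (fun v => one_mul _)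
    exact lx_trans h1 (lx_symm (hf a)) (fun v => inv_mul_cancel _)
  · rintro ⟨b⟩
    refine ⟨Quot.mk _ (g b), ?_⟩
    refine (lq_quot k S Q χ' p (f (g b)) b).2 ?_
    rw [← lx_lq]
    exact lx_trans (hg b) (hf (g b)) (fun v => mul_inv_cancel _)

end H48.SF
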